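import Mathlib
import Pool.Agent.Lib_helper35.FGRF.Chain

/-!
# Lemmas on central chains: finite presentation of the quotient, central elements of infinite order
-/

set_option autoImplicit false

namespace Pool.Agent.FGRF

universe u v w

variable {G : Type u} [Group G]

theorem sup_zpowers_normal {N : Subgroup G} (hN : N.Normal) (t : G)
    (ht : ∀ g : G, g * t * g⁻¹ * t⁻¹ ∈ N) : (N ⊔ Subgroup.zpowers t).Normal := by
  have h : CCov N (N ⊔ Subgroup.zpowers t) := CCov.step t CCov.base ht
  exact h.normal hN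

/-- If `G` is finitely generated and `G / P` has a central chain with cyclic factors then `P` is the
normal closure of a finite set. -/
theorem normalClosure_down {P : Subgroup G} (hP : P.Normal) {X : Set G} (hX : X.Finite)
    (hXG : Subgroup.closure X = ⊤) {H : Subgroup G} (hc : CCov P H) :
    (∃ S : Set G, S.Finite ∧ H = Subgroup.normalClosure S) →
      ∃ S : Set G, S.Finite ∧ P = Subgroup.normalClosure S := by
  induction hc with
  | base => exact id
  | @step H t hH ht ih =>
    rintro ⟨S, hS, hHS⟩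
    apply ih
    have hHn : H.Normal := hH.normal hP
    have hmem : ∀ s ∈ S, ∃ h ∈ H, ∃ k : ℤ, h * t ^ k = s := by
      intro s hs
      have h1 : s ∈ H ⊔ Subgroup.zpowers t := by
        rw [hHS]; exact Subgroup.subset_normalClosure hs
      obtain ⟨h, hh, z, hz, rfl⟩ := Subgroup.mem_sup_of_normal_left.1 h1
      obtain ⟨k, rfl⟩ := Subgroup.mem_zpowers_iff.1 hz
      exact ⟨h, hh, k, rfl⟩
    choose! hf hfH kf hfe using hmem
    -- exponents
    let E : AddSubgroup ℤ :=
      { carrier := {k | t ^ k ∈ H}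
        zero_mem' := by simp
        add_mem' := fun {a b} ha hb => by
          change t ^ (a + b) ∈ H
          rw [zpow_add]; exact mul_mem ha hb
        neg_mem' := fun {a} ha => by
          change t ^ (-a) ∈ H
          rw [zpow_neg]; exact inv_mem ha }
    obtain ⟨e, he⟩ := Int.subgroup_cyclic E
    have heE : ∀ k : ℤ, t ^ k ∈ H ↔ ∃ m : ℤ, k = m * e := by
      intro k
      have : k ∈ E ↔ t ^ k ∈ H := Iff.rfl
      rw [← this, he, AddSubgroup.mem_closure_singleton]
      constructor
      · rintro ⟨m, hm⟩; exact ⟨m, by rw [← hm]; simp⟩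
      · rintro ⟨m, hm⟩; exact ⟨m, by rw [hm]; simp⟩
    let S' : Set G := (hf '' S ∪ {t ^ e}) ∪ (fun g => g * t * g⁻¹ * t⁻¹) '' X
    refine ⟨S', ((hS.image _).union (Set.finite_singleton _)).union (hX.image _), ?_⟩
    set N := Subgroup.normalClosure S' with hN
    have hNn : N.Normal := Subgroup.normalClosure_normal
    have hNH : N ≤ H := by
      refine Subgroup.normalClosure_le_normal ?_
      rintro x ((⟨s, hs, rfl⟩ | hx) | ⟨g, hg, rfl⟩)
      · exact hfH s hs
      · rw [Set.mem_singleton_iff] at hx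
        subst hx
        exact (heE e).2 ⟨1, by ring⟩
      · exact ht g
    have hcomm : ∀ g : G, g * t * g⁻¹ * t⁻¹ ∈ N := by
      intro g
      have hg : g ∈ Subgroup.closure X := by rw [hXG]; trivial
      induction hg using Subgroup.closure_induction with
      | mem g hg => exact Subgroup.subset_normalClosure (Or.inr ⟨g, hg, rfl⟩)
      | one => simp
      | mul a b _ _ ha hb =>
        have : a * b * t * (a * b)⁻¹ * t⁻¹ = a * (b * t * b⁻¹ * t⁻¹) * a⁻¹ * (a * t * a⁻¹ * t⁻¹) := by
          group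
        rw [this]
        exact mul_mem (hNn.conj_mem _ hb a) ha
      | inv a _ ha =>
        have : a⁻¹ * t * a⁻¹⁻¹ * t⁻¹ = a⁻¹ * (a * t * a⁻¹ * t⁻¹)⁻¹ * a⁻¹⁻¹ := by group
        rw [this]
        exact hNn.conj_mem _ (inv_mem ha) _
    have hsup : H ⊔ Subgroup.zpowers t ≤ N ⊔ Subgroup.zpowers t := by
      rw [hHS]
      have := sup_zpowers_normal hNn t hcomm
      refine Subgroup.normalClosure_le_normal ?_
      intro s hs
      rw [← hfe s hs]
      refine mul_mem ?_ ?_
      · exact Subgroup.mem_sup_left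
          (Subgroup.subset_normalClosure (Or.inl (Or.inl ⟨s, hs, rfl⟩)))
      · exact Subgroup.mem_sup_right (zpow_mem (Subgroup.mem_zpowers t) _)
    refine le_antisymm ?_ hNH
    intro h hh
    have h1 := hsup (Subgroup.mem_sup_left hh)
    obtain ⟨n, hn, z, hz, hnz⟩ := Subgroup.mem_sup_of_normal_left.1 h1
    obtain ⟨k, rfl⟩ := Subgroup.mem_zpowers_iff.1 hz
    have h2 : t ^ k ∈ H := by
      have : t ^ k = n⁻¹ * h := by rw [← hnz]; group
      rw [this]
      exact mul_mem (inv_mem (hNH hn)) hh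
    obtain ⟨m, rfl⟩ := (heE k).1 h2
    rw [← hnz]
    refine mul_mem hn ?_
    have h3 : t ^ e ∈ N := Subgroup.subset_normalClosure (Or.inl (Or.inr (Set.mem_singleton _)))
    rw [mul_comm, zpow_mul]
    exact zpow_mem h3 m

/-- If `G` is finitely generated and `G / P` has a central chain with cyclic factors then `P` is the
normal closure of a finite set. -/
theorem fg_normalClosure {P : Subgroup G} (hP : P.Normal) (hG : Group.FG G) (hc : CCov P ⊤) :
    ∃ S : Set G, S.Finite ∧ P = Subgroup.normalClosure S := by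
  obtain ⟨X, hXG, hX⟩ := Group.fg_iff.1 hG
  refine normalClosure_down hP hX hXG hc ⟨X, hX, ?_⟩
  rw [eq_comm, eq_top_iff, ← hXG, Subgroup.closure_le]
  exact Subgroup.subset_normalClosure

/-- If `H` is finite, `[G,t] ⊆ H` and no positive power of `t` lies in `H`, then some positive power
of `t` is central in `G`. -/
theorem exists_central_pow {H : Subgroup G} (hHf : Finite H) (t : G)
    (ht : ∀ g : G, g * t * g⁻¹ * t⁻¹ ∈ H) (hHn : H.Normal) :
    ∃ e : ℕ, 1 ≤ e ∧ ∀ g : G, g * t ^ e = t ^ e * g := by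
  -- conjugation by `t` on `H`
  have hconj : ∃ e : ℕ, 1 ≤ e ∧ ∀ h ∈ H, t ^ e * h * (t ^ e)⁻¹ = h := by
    have hfin : Finite (H → H) := inferInstance
    let c : ℕ → (H → H) := fun n h => ⟨t ^ n * h.1 * (t ^ n)⁻¹, hHn.conj_mem _ h.2 _⟩
    obtain ⟨i, j, hij, hc⟩ := Finite.exists_ne_map_eq_of_infinite c
    wlog hlt : i < j generalizing i j
    · exact this j i hij.symm hc.symm (by omega)
    refine ⟨j - i, by omega, fun h hh => ?_⟩
    have h1 := congrArg Subtype.val (congrFun hc ⟨(t ^ i)⁻¹ * h * t ^ i, by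
      have := hHn.conj_mem h hh (t ^ i)⁻¹
      simpa using this⟩)
    simp only [c] at h1
    have h2 : t ^ i * ((t ^ i)⁻¹ * h * t ^ i) * (t ^ i)⁻¹ = h := by group
    rw [h2] at h1
    have h3 : t ^ j = t ^ (j - i) * t ^ i := by rw [← pow_add]; congr 1; omega
    rw [h3] at h1
    rw [h1]
    have h4 : t ^ (j - i) * t ^ i * ((t ^ i)⁻¹ * h * t ^ i) * (t ^ (j - i) * t ^ i)⁻¹ =
      t ^ (j - i) * h * (t ^ (j - i))⁻¹ := by group
    rw [← h1] at h4 ⊢
    exact h4.symm.trans rfl |>.symm ▸ rfl
  obtain ⟨e, he, hce⟩ := hconj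
  -- `s = t ^ e` commutes with `H` and `[G, s] ⊆ H`
  set s := t ^ e with hs
  have hsH : ∀ g : G, g * s * g⁻¹ * s⁻¹ ∈ H := by
    intro g
    have hgen : ∀ n : ℕ, g * t ^ n * g⁻¹ * (t ^ n)⁻¹ ∈ H := by
      intro n
      induction n with
      | zero => simp
      | succ n ih =>
        have : g * t ^ (n + 1) * g⁻¹ * (t ^ (n + 1))⁻¹ =
            (g * t ^ n * g⁻¹ * (t ^ n)⁻¹) * (t ^ n * (g * t * g⁻¹ * t⁻¹) * (t ^ n)⁻¹) := by
          rw [pow_succ]; group
        rw [this]
        exact mul_mem ih (hHn.conj_mem _ (ht g) _)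
    exact hgen e
  refine ⟨e * Nat.card H, Nat.mul_pos he Nat.card_pos, fun g => ?_⟩
  set h := g * s * g⁻¹ * s⁻¹ with hh
  have hhs : g * s * g⁻¹ = h * s := by rw [hh]; group
  have hcm : Commute h s := by
    have := hce h (hsH g)
    show h * s = s * h
    rw [← this]
    have h5 : s * h * s⁻¹ = h := this
    calc s * h * s⁻¹ * s = s * h := by group
      _ = s * (s * h * s⁻¹) := by rw [h5]
  have h6 : g * s ^ Nat.card H * g⁻¹ = s ^ Nat.card H := by
    have h7 : g * s ^ Nat.card H * g⁻¹ = (g * s * g⁻¹) ^ Nat.card H := by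
      rw [conj_pow]
    rw [h7, hhs, hcm.mul_pow]
    have h8 : h ^ Nat.card H = 1 := by
      have := pow_card_eq_one' (G := H) (x := ⟨h, hsH g⟩)
      exact congrArg Subtype.val this
    rw [h8, one_mul]
  rw [pow_mul, ← hs]
  rw [mul_inv_eq_iff_eq_mul] at h6
  exact h6

/-- If `P` is finite and `G / P` has a finite central chain with cyclic factors, then `G` is
finite or has a central element of infinite order. -/
theorem finite_or_central {P : Subgroup G} (hP : P.Normal) (hPf : Finite P) {H : Subgroup G}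
    (hc : CCov P H) : Finite H ∨ ∃ z : G, (∀ g : G, g * z = z * g) ∧ ¬ IsOfFinOrder z := by
  induction hc with
  | base => exact Or.inl hPf
  | @step H t hH ht ih =>
    rcases ih with ih | ih
    · by_cases hfo : IsOfFinOrder t
      · left
        have hHn : H.Normal := hH.normal hP
        have h1 : Finite (Subgroup.zpowers t) := by
          exact hfo.finite_zpowers
        have h2 : ((H ⊔ Subgroup.zpowers t : Subgroup G) : Set G) =
            (fun x : G × G => x.1 * x.2) '' ((H : Set G) ×ˢ (Subgroup.zpowers t : Set G)) := by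
          ext x
          constructor
          · intro hx
            obtain ⟨a, ha, b, hb, rfl⟩ := Subgroup.mem_sup_of_normal_left.1 hx
            exact ⟨(a, b), ⟨ha, hb⟩, rfl⟩
          · rintro ⟨⟨a, b⟩, ⟨ha, hb⟩, rfl⟩
            exact Subgroup.mem_sup_of_normal_left.2 ⟨a, ha, b, hb, rfl⟩
        have h3 : ((H ⊔ Subgroup.zpowers t : Subgroup G) : Set G).Finite := by
          rw [h2]
          refine Set.Finite.image _ (Set.Finite.prod ?_ ?_)
          · exact Set.toFinite _
          · exact Set.toFinite _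
        exact h3.to_subtype
      · right
        obtain ⟨e, he, hce⟩ := exists_central_pow ih t ht (hH.normal hP)
        refine ⟨t ^ e, hce, fun h => hfo ?_⟩
        exact (isOfFinOrder_pow.1 h).resolve_right (by omega)
    · exact Or.inr ih

/-- T1: if `K ≤ H` are normal, `H / K` is finite and `[G,t] ⊆ H` then `[G,t^N] ⊆ K` for some
`N ≥ 1`. -/
theorem exists_pow_comm {K H : Subgroup G} (hK : K.Normal) (hH : H.Normal)
    (hfin : Finite (H.map (QuotientGroup.mk' K))) (t : G)
    (ht : ∀ g : G, g * t * g⁻¹ * t⁻¹ ∈ H) :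
    ∃ e : ℕ, 1 ≤ e ∧ ∀ g : G, g * t ^ e * g⁻¹ * (t ^ e)⁻¹ ∈ K := by
  let π := QuotientGroup.mk' K
  have hHn : (H.map π).Normal := hH.map π (QuotientGroup.mk'_surjective K)
  obtain ⟨e, he, h⟩ := exists_central_pow hfin (π t) (by
    intro g
    obtain ⟨g, rfl⟩ := QuotientGroup.mk'_surjective K g
    exact ⟨g * t * g⁻¹ * t⁻¹, ht g, by simp [π]⟩) hHn
  refine ⟨e, he, fun g => ?_⟩
  have h1 := h (π g)
  have h2 : π (g * t ^ e * g⁻¹ * (t ^ e)⁻¹) = 1 := by
    rw [map_mul, map_mul, map_mul, map_inv, map_inv, map_pow, h1]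
    group
  exact (QuotientGroup.eq_one_iff _).1 h2

/-! ### finitely generated nilpotent groups have central chains -/

theorem CCov.add_finite {P H : Subgroup G} (h : CCov P H) (S : Set G)
    (hS : S.Finite) (hc : ∀ s ∈ S, ∀ g : G, g * s * g⁻¹ * s⁻¹ ∈ H) :
    CCov P (H ⊔ Subgroup.closure S) := by
  induction S, hS using Set.Finite.induction_on with
  | empty => simpa using h
  | @insert s S hs hS ih =>
    have h1 := ih fun x hx => hc x (Set.mem_insert_of_mem _ hx)
    have h2 := CCov.step (P := P) s h1 fun g => Subgroup.mem_sup_left (hc s (Set.mem_insert _ _) g)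
    have h3 : H ⊔ Subgroup.closure S ⊔ Subgroup.zpowers s = H ⊔ Subgroup.closure (insert s S) := by
      rw [Set.insert_eq, Subgroup.closure_union, Subgroup.zpowers_eq_closure, sup_assoc,
        sup_comm (Subgroup.closure S)]
    rw [h3] at h2
    exact h2

theorem CCov.trans' {P H K : Subgroup G} (h : CCov P H) (h' : CCov H K) : CCov P K := by
  induction h' with
  | base => exact h
  | step t _ ht ih => exact CCov.step t ih ht

theorem CCov.comap {Q : Type v} [Group Q] (φ : G →* Q) (hφ : Function.Surjective φ)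
    {P H : Subgroup Q} (h : CCov P H) : CCov (P.comap φ) (H.comap φ) := by
  induction h with
  | base => exact CCov.base
  | @step H t _ ht ih =>
    obtain ⟨t, rfl⟩ := hφ t
    have h1 := CCov.step (P := P.comap φ) t ih fun g => by
      have := ht (φ g)
      rw [Subgroup.mem_comap]
      simpa using this
    have h2 : H.comap φ ⊔ Subgroup.zpowers t = (H ⊔ Subgroup.zpowers (φ t)).comap φ := by
      rw [← MonoidHom.map_zpowers]
      have h3 := Subgroup.comap_sup_eq φ H ((Subgroup.zpowers t).map φ) hφ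
      rw [← h3, Subgroup.comap_map_eq, ← sup_assoc, sup_comm _ φ.ker, ← sup_assoc]
      have h4 : φ.ker ≤ H.comap φ := φ.ker_le_comap H
      rw [sup_eq_right.2 h4]
    rw [h2] at h1
    exact h1

/-- the set of `q` with `s q s⁻¹ q⁻¹ ∈ K`, `K` normal -/
def rightComm (K : Subgroup G) (hK : K.Normal) (s : G) : Subgroup G where
  carrier := {q | s * q * s⁻¹ * q⁻¹ ∈ K}
  one_mem' := by simp
  mul_mem' := by
    intro a b ha hb
    change s * (a * b) * s⁻¹ * (a * b)⁻¹ ∈ K
    have : s * (a * b) * s⁻¹ * (a * b)⁻¹ =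
        (s * a * s⁻¹ * a⁻¹) * (a * (s * b * s⁻¹ * b⁻¹) * a⁻¹) := by group
    rw [this]
    exact mul_mem ha (hK.conj_mem _ hb a)
  inv_mem' := by
    intro a ha
    change s * a⁻¹ * s⁻¹ * a⁻¹⁻¹ ∈ K
    have : s * a⁻¹ * s⁻¹ * a⁻¹⁻¹ = a⁻¹ * (s * a * s⁻¹ * a⁻¹)⁻¹ * a⁻¹⁻¹ := by group
    rw [this]
    exact hK.conj_mem _ (inv_mem ha) _

theorem mem_rightComm {K : Subgroup G} {hK : K.Normal} {s q : G} :
    q ∈ rightComm K hK s ↔ s * q * s⁻¹ * q⁻¹ ∈ K := Iff.rfl

/-- the set of `a` with `a q a⁻¹ q⁻¹ ∈ K`, `K` normal -/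
def leftComm (K : Subgroup G) (hK : K.Normal) (q : G) : Subgroup G where
  carrier := {a | a * q * a⁻¹ * q⁻¹ ∈ K}
  one_mem' := by simp
  mul_mem' := by
    intro a b ha hb
    change (a * b) * q * (a * b)⁻¹ * q⁻¹ ∈ K
    have : (a * b) * q * (a * b)⁻¹ * q⁻¹ =
        (a * (b * q * b⁻¹ * q⁻¹) * a⁻¹) * (a * q * a⁻¹ * q⁻¹) := by group
    rw [this]
    exact mul_mem (hK.conj_mem _ hb a) ha
  inv_mem' := by
    intro a ha
    change a⁻¹ * q * a⁻¹⁻¹ * q⁻¹ ∈ K
    have : a⁻¹ * q * a⁻¹⁻¹ * q⁻¹ = a⁻¹ * (a * q * a⁻¹ * q⁻¹)⁻¹ * a⁻¹⁻¹ := by group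
    rw [this]
    exact hK.conj_mem _ (inv_mem ha) _

theorem mem_leftComm {K : Subgroup G} {hK : K.Normal} {a q : G} :
    a ∈ leftComm K hK q ↔ a * q * a⁻¹ * q⁻¹ ∈ K := Iff.rfl

/-- the lower central factors of a finitely generated group are finitely generated -/
theorem lcs_fg {X : Set G} (hX : X.Finite) (hXG : Subgroup.closure X = ⊤) (n : ℕ) :
    ∃ S : Set G, S.Finite ∧ S ⊆ (⊤ : Subgroup G).lowerCentralSeries n ∧
      (⊤ : Subgroup G).lowerCentralSeries n ≤
        Subgroup.closure S ⊔ (⊤ : Subgroup G).lowerCentralSeries (n + 1) := by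
  have hcom : ∀ (n : ℕ) (a : G), a ∈ (⊤ : Subgroup G).lowerCentralSeries n → ∀ q : G,
      a * q * a⁻¹ * q⁻¹ ∈ (⊤ : Subgroup G).lowerCentralSeries (n + 1) := by
    intro n a ha q
    rw [Subgroup.mem_lowerCentralSeries_succ_iff]
    exact Subgroup.subset_closure ⟨a, ha, q, Subgroup.mem_top q, rfl⟩
  induction n with
  | zero =>
    refine ⟨X, hX, fun x _ => Subgroup.mem_top x, ?_⟩
    rw [hXG]
    exact le_sup_of_le_left le_top
  | succ n ih =>
    obtain ⟨S, hS, hSγ, hle⟩ := ih
    let S' : Set G := (fun z : G × G => z.1 * z.2 * z.1⁻¹ * z.2⁻¹) '' (S ×ˢ X)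
    have hS'γ : S' ⊆ (⊤ : Subgroup G).lowerCentralSeries (n + 1) := by
      rintro _ ⟨⟨a, q⟩, ⟨ha, -⟩, rfl⟩
      exact hcom n a (hSγ ha) q
    refine ⟨S', (hS.prod hX).image _, hS'γ, ?_⟩
    set K := Subgroup.closure S' ⊔ (⊤ : Subgroup G).lowerCentralSeries (n + 1 + 1) with hK
    have hanti : (⊤ : Subgroup G).lowerCentralSeries (n + 1 + 1) ≤
        (⊤ : Subgroup G).lowerCentralSeries (n + 1) :=
      Subgroup.lowerCentralSeries_antitone _ (Nat.le_succ _)
    have hKγ : K ≤ (⊤ : Subgroup G).lowerCentralSeries (n + 1) := by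
      refine sup_le ?_ hanti
      rw [Subgroup.closure_le]
      exact hS'γ
    have hKn : K.Normal := by
      constructor
      intro x hx g
      have h1 := hcom (n + 1) x (hKγ hx) g
      have h2 : g * x * g⁻¹ = (x * g * x⁻¹ * g⁻¹)⁻¹ * x := by group
      rw [h2]
      exact mul_mem (Subgroup.mem_sup_right (inv_mem h1)) hx
    have step1 : ∀ s ∈ S, ∀ q : G, s * q * s⁻¹ * q⁻¹ ∈ K := by
      intro s hs q
      have : Subgroup.closure X ≤ rightComm K hKn s := by
        rw [Subgroup.closure_le]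
        intro y hy
        exact Subgroup.mem_sup_left (Subgroup.subset_closure ⟨(s, y), ⟨hs, hy⟩, rfl⟩)
      rw [hXG] at this
      exact this (Subgroup.mem_top q)
    have step2 : ∀ a ∈ (⊤ : Subgroup G).lowerCentralSeries n, ∀ q : G,
        a * q * a⁻¹ * q⁻¹ ∈ K := by
      intro a ha q
      have : Subgroup.closure S ⊔ (⊤ : Subgroup G).lowerCentralSeries (n + 1) ≤
          leftComm K hKn q := by
        refine sup_le ?_ ?_
        · rw [Subgroup.closure_le]
          intro s hs
          exact step1 s hs q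
        · intro x hx
          exact Subgroup.mem_sup_right (hcom (n + 1) x hx q)
      exact this (hle ha)
    rw [Subgroup.lowerCentralSeries_succ, Subgroup.commutator_def, Subgroup.closure_le]
    rintro _ ⟨a, ha, q, -, rfl⟩
    exact step2 a ha q

/-- A finitely generated nilpotent group has a central chain with cyclic factors. -/
theorem ccov_of_nilpotent (hG : Group.FG G) (hN : Group.IsNilpotent G) :
    CCov (⊥ : Subgroup G) ⊤ := by
  obtain ⟨X, hXG, hX⟩ := Group.fg_iff.1 hG
  obtain ⟨c, hc⟩ := (Subgroup.nilpotent_iff_lowerCentralSeries (G := G)).1 hN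
  have key : ∀ k ≤ c, CCov (⊥ : Subgroup G) ((⊤ : Subgroup G).lowerCentralSeries (c - k)) := by
    intro k
    induction k with
    | zero => intro _; rw [Nat.sub_zero, hc]; exact CCov.base
    | succ k ih =>
      intro hk
      have h1 := ih (by omega)
      obtain ⟨S, hS, hSγ, hle⟩ := lcs_fg hX hXG (c - (k + 1))
      have h2 : c - (k + 1) + 1 = c - k := by omega
      rw [h2] at hle
      have h3 := CCov.add_finite h1 S hS (by
        intro s hs g
        rw [← h2, Subgroup.mem_lowerCentralSeries_succ_iff]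
        have h4 : g * s * g⁻¹ * s⁻¹ = (s * g * s⁻¹ * g⁻¹)⁻¹ := by group
        rw [h4]
        exact inv_mem (Subgroup.subset_closure ⟨s, hSγ hs, g, Subgroup.mem_top g, rfl⟩))
      have h5 : (⊤ : Subgroup G).lowerCentralSeries (c - k) ⊔ Subgroup.closure S =
          (⊤ : Subgroup G).lowerCentralSeries (c - (k + 1)) := by
        refine le_antisymm (sup_le ?_ ?_) ?_
        · exact Subgroup.lowerCentralSeries_antitone _ (by omega)
        · rw [Subgroup.closure_le]; exact hSγ
        · rw [sup_comm]; exact hle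
      rw [h5] at h3
      exact h3
  have := key c le_rfl
  rwa [Nat.sub_self, Subgroup.lowerCentralSeries_zero] at this

/-- If `G` is finitely generated and `G / P` is nilpotent then `CCov P ⊤`. -/
theorem ccov_of_quotient_nilpotent (hG : Group.FG G) (P : Subgroup G) [P.Normal]
    (hN : Group.IsNilpotent (G ⧸ P)) : CCov P ⊤ := by
  have h1 : Group.FG (G ⧸ P) := Group.fg_of_surjective (QuotientGroup.mk'_surjective P)
  have h2 := (ccov_of_nilpotent h1 hN).comap (QuotientGroup.mk' P)
    (QuotientGroup.mk'_surjective P)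
  rwa [MonoidHom.comap_bot, QuotientGroup.ker_mk', Subgroup.comap_top] at h2

end Pool.Agent.FGRF
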