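import Mathlib
import Pool.Agent.Lib_helper35.FGRF.Sat

/-!
# Commutator pairings: statements PBa and PBb (interface)
-/

set_option autoImplicit false

namespace Pool.Agent.FGRF

universe u

/-- conjugation by `t ^ n` minus the identity -/
def cg {G : Type*} [Group G] (t : G) (n : ℕ) (g : G) : G := t ^ n * g * (t ^ n)⁻¹ * g⁻¹

/-- the commutator `x y x⁻¹ y⁻¹` -/
def cm {G : Type*} [Group G] (x y : G) : G := x * y * x⁻¹ * y⁻¹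

/-- Normal subgroups `D, N, C ≥ C₀` such that `(d, x) ↦ [x, d]` is bilinear modulo `C₀`. -/
structure Pair (G : Type u) [Group G] where
  D : Subgroup G
  N : Subgroup G
  C : Subgroup G
  C₀ : Subgroup G
  hD : D.Normal
  hN : N.Normal
  hC : C.Normal
  hC₀ : C₀.Normal
  le : C₀ ≤ C
  nd : ∀ x ∈ N, ∀ d ∈ D, cm x d ∈ C
  cc : ∀ c ∈ C, ∀ c' ∈ C, cm c c' ∈ C₀
  dc : ∀ d ∈ D, ∀ c ∈ C, cm d c ∈ C₀
  nc : ∀ x ∈ N, ∀ c ∈ C, cm x c ∈ C₀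

/-- Finite generation of the pairing. -/
def PBa (L : Set (FreeGroup ℕ)) : Prop :=
  ∃ N₀ : ℕ, 1 ≤ N₀ ∧ ∀ (G : Type u) [Group G], Sat L G → ∀ (S : Pair G) (t : G), ∀ d ∈ S.D,
    ∀ x ∈ S.N, ∀ k : ℤ, cm x (t ^ k * d * (t ^ k)⁻¹) ∈
      S.C₀ ⊔ Subgroup.closure {y | ∃ (j : ℤ) (i : ℕ), i < N₀ ∧
        y = t ^ j * cm x (t ^ i * d * (t ^ i)⁻¹) * (t ^ j)⁻¹}

/-- Unipotence is inherited along the pairing. -/
def PBb (L : Set (FreeGroup ℕ)) : Prop :=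
  ∀ n r : ℕ, 1 ≤ n → ∃ n' r' : ℕ, 1 ≤ n' ∧ ∀ (G : Type u) [Group G], Sat L G → ∀ (S : Pair G)
    (t : G), (∀ c ∈ S.C, (cg t n)^[r] c ∈ S.C₀) →
      ∀ d ∈ S.D, ∀ x ∈ S.N, cm x ((cg t n')^[r'] d) ∈ S.C₀

end Pool.Agent.FGRF
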