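import Mathlib
import Pool.Agent.Lib_helper35.FGRF.Trip
import Pool.Agent.Lib_helper35.FGRF.Chain
import Pool.Agent.LibH11.PHall.Noeth
import Pool.Agent.Lib_helper93.FGRF.PairDef
import Pool.Agent.Lib_helper93.FGRF.ChainLem

/-!
# Step A: the maximal condition on normal subgroups inside `P`
-/

set_option autoImplicit false

namespace Pool.Agent.FGRF

universe u v w x

open Pool.Agent.LibH11.PHall

/-! ### generation of pairings -/

section pairgen

variable {G : Type u} [Group G] {D : Type v} {B : Type w} {C : Type x} [AddCommGroup D]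
  [AddCommGroup B] [AddCommGroup C] [DistribMulAction G D] [DistribMulAction G B]
  [DistribMulAction G C]

theorem pair_gen (β : D →+ B →+ C) (hβ : ∀ (g : G) (d : D) (b : B), g • β d b = β (g • d) (g • b))
    {P : Subgroup G} (hP : P.Normal) (hPD : ∀ g ∈ P, ∀ d : D, g • d = d) (N₀ : ℕ)
    (hpba : ∀ (t : G) (d : D) (b : B) (k : ℤ), β (t ^ k • d) b ∈
      AddSubgroup.closure {c | ∃ (j : ℤ) (i : ℕ), i < N₀ ∧ c = t ^ j • β (t ^ i • d) b})
    {H : Subgroup G} (hc : CCov P H) :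
    ∀ SD : Set D, SD.Finite → ∀ SB : Set B, SB.Finite → ∃ SC : Set C, SC.Finite ∧
      ∀ h ∈ H, ∀ d ∈ SD, ∀ b ∈ SB, β (h • d) b ∈ hspan ℤ H SC := by
  induction hc with
  | base =>
    intro SD hSD SB hSB
    refine ⟨(fun z : D × B => β z.1 z.2) '' (SD ×ˢ SB), (hSD.prod hSB).image _, ?_⟩
    intro h hh d hd b hb
    rw [hPD h hh]
    exact subset_hspan P _ ⟨(d, b), ⟨hd, hb⟩, rfl⟩
  | @step H t hH ht ih =>
    intro SD hSD SB hSB
    let SB' : Set B := ⋃ i ∈ Set.Iio N₀, (fun b => (t ^ i)⁻¹ • b) '' SB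
    have hSB' : SB'.Finite := Set.Finite.biUnion (Set.finite_Iio N₀) fun i _ => hSB.image _
    obtain ⟨SC, hSC, hgen⟩ := ih SD hSD SB' hSB'
    refine ⟨SC, hSC, ?_⟩
    intro h hh d hd b hb
    have hHn : H.Normal := hH.normal hP
    -- `h = t ^ k * h'`
    obtain ⟨h', hh', k, rfl⟩ : ∃ h' ∈ H, ∃ k : ℤ, t ^ k * h' = h := by
      obtain ⟨y, hy, z, hz, rfl⟩ := Subgroup.mem_sup_of_normal_left.1 hh
      obtain ⟨k, rfl⟩ := Subgroup.mem_zpowers_iff.1 hz
      refine ⟨(t ^ k)⁻¹ * y * t ^ k, ?_, k, by group⟩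
      have := hHn.conj_mem y hy (t ^ k)⁻¹
      simpa using this
    rw [mul_smul]
    have h1 := hpba t (h' • d) b k
    have h2 : AddSubgroup.closure {c | ∃ (j : ℤ) (i : ℕ), i < N₀ ∧
        c = t ^ j • β (t ^ i • h' • d) b} ≤
        (hspan ℤ (H ⊔ Subgroup.zpowers t) SC).toAddSubgroup := by
      rw [AddSubgroup.closure_le]
      rintro _ ⟨j, i, hi, rfl⟩
      have h3 : β (t ^ i • h' • d) b = t ^ i • β (h' • d) ((t ^ i)⁻¹ • b) := by
        rw [hβ, smul_inv_smul]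
      rw [h3]
      have h4 : β (h' • d) ((t ^ i)⁻¹ • b) ∈ hspan ℤ H SC :=
        hgen h' hh' d hd _ (Set.mem_biUnion (Set.mem_Iio.2 hi) ⟨b, hb, rfl⟩)
      have h5 : hspan ℤ H SC ≤ hspan ℤ (H ⊔ Subgroup.zpowers t) SC :=
        hspan_le (subset_hspan _ _) ((inv_hspan _ _).mono le_sup_left)
      have htm : t ∈ H ⊔ Subgroup.zpowers t := Subgroup.mem_sup_right (Subgroup.mem_zpowers t)
      exact inv_hspan _ _ _ (zpow_mem htm j) _ (inv_hspan _ _ _ (pow_mem htm i) _ (h5 h4))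
    exact h2 h1

/-- If the pairing generates `C` and `D`, `B` are finitely generated modules, so is `C`. -/
theorem pair_fg (β : D →+ B →+ C) (hβ : ∀ (g : G) (d : D) (b : B), g • β d b = β (g • d) (g • b))
    {P : Subgroup G} (hP : P.Normal) (hPD : ∀ g ∈ P, ∀ d : D, g • d = d) (N₀ : ℕ)
    (hpba : ∀ (t : G) (d : D) (b : B) (k : ℤ), β (t ^ k • d) b ∈
      AddSubgroup.closure {c | ∃ (j : ℤ) (i : ℕ), i < N₀ ∧ c = t ^ j • β (t ^ i • d) b})
    (hc : CCov P (⊤ : Subgroup G))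
    (hD : ∃ S : Set D, S.Finite ∧ hspan ℤ (⊤ : Subgroup G) S = ⊤)
    (hB : ∃ S : Set B, S.Finite ∧ hspan ℤ (⊤ : Subgroup G) S = ⊤)
    (hC : ∀ N : Submodule ℤ C, (∀ d b, β d b ∈ N) → N = ⊤) :
    ∃ S : Set C, S.Finite ∧ hspan ℤ (⊤ : Subgroup G) S = ⊤ := by
  obtain ⟨SD, hSD, hD⟩ := hD
  obtain ⟨SB, hSB, hB⟩ := hB
  obtain ⟨SC, hSC, h⟩ := pair_gen β hβ hP hPD N₀ hpba hc SD hSD SB hSB
  refine ⟨SC, hSC, hC _ ?_⟩
  intro d b
  have hb : b ∈ hspan ℤ (⊤ : Subgroup G) SB := by rw [hB]; trivial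
  have hd : d ∈ hspan ℤ (⊤ : Subgroup G) SD := by rw [hD]; trivial
  unfold hspan at hb hd
  induction hd using Submodule.span_induction with
  | zero => rw [map_zero, AddMonoidHom.zero_apply]; exact Submodule.zero_mem _
  | add x y _ _ hx hy => rw [map_add, AddMonoidHom.add_apply]; exact Submodule.add_mem _ hx hy
  | smul a x _ hx =>
    rw [map_zsmul, AddMonoidHom.zsmul_apply]
    exact Submodule.smul_mem _ a hx
  | mem d hd =>
    obtain ⟨g, -, d, hd, rfl⟩ := hd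
    induction hb using Submodule.span_induction with
    | zero => rw [map_zero]; exact Submodule.zero_mem _
    | add x y _ _ hx hy => rw [map_add]; exact Submodule.add_mem _ hx hy
    | smul a x _ hx => rw [map_zsmul]; exact Submodule.smul_mem _ a hx
    | mem b hb =>
      obtain ⟨g', -, b, hb, rfl⟩ := hb
      have h1 : β (g • d) (g' • b) = g' • β ((g'⁻¹ * g) • d) b := by
        rw [hβ, ← mul_smul, mul_inv_cancel_left]
      rw [h1]
      exact inv_hspan _ _ _ (Subgroup.mem_top _) _ (h _ (Subgroup.mem_top _) d hd b hb)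

end pairgen

/-! ### sections -/

namespace NSec

variable {G : Type u} [Group G] (S : NSec G)

/-- the section is finitely generated as a module -/
def MFG : Prop := ∃ T : Set S.Mod, T.Finite ∧ hspan ℤ (⊤ : Subgroup G) T = ⊤

variable {S}

theorem mfg_of_normalClosure {X : Set G} (hX : X.Finite)
    (h : S.A ≤ S.B ⊔ Subgroup.normalClosure X) (hXA : X ⊆ S.A) : S.MFG := by
  classical
  let T : Set S.Mod := {c | ∃ (x : G) (hx : x ∈ S.A), x ∈ X ∧ c = cl x hx}
  have hT : T.Finite := by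
    have : T ⊆ (fun x : G => if hx : x ∈ S.A then cl (S := S) x hx else 0) '' X := by
      rintro _ ⟨x, hx, hxX, rfl⟩
      exact ⟨x, hxX, dif_pos hx⟩
    exact (hX.image _).subset this
  refine ⟨T, hT, ?_⟩
  rw [eq_top_iff]
  intro m _
  obtain ⟨y, hy, rfl⟩ := cl_surjective m
  set W := (hspan ℤ (⊤ : Subgroup G) T).toAddSubgroup with hW
  have hWinv : ∀ (g : G), ∀ x ∈ W, g • x ∈ W := fun g x hx =>
    inv_hspan _ _ g (Subgroup.mem_top g) x hx
  have h1 : S.B ⊔ Subgroup.normalClosure X ≤ toSub W := by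
    refine sup_le (le_toSub W) ?_
    have := toSub_normal hWinv
    refine Subgroup.normalClosure_le_normal ?_
    intro x hx
    exact ⟨hXA hx, subset_hspan _ _ ⟨x, hXA hx, hx, rfl⟩⟩
  obtain ⟨hy', h2⟩ := h1 (h hy)
  exact h2

/-- the normal subgroups `K` meet a noetherian section in a finitely generated subgroup -/
theorem exists_finite_inf {P : Subgroup G} (hP : P.Normal) (hc : CCov P ⊤) (hfg : S.MFG)
    (hact : ∀ g ∈ P, ∀ m : S.Mod, g • m = m) {K : Subgroup G} (hK : K.Normal) :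
    ∃ X : Set G, X.Finite ∧ X ⊆ K ∧ X ⊆ S.A ∧ K ⊓ S.A ≤ S.B ⊔ Subgroup.normalClosure X := by
  classical
  obtain ⟨T, hT, hTt⟩ := hfg
  have : SMulCommClass G ℤ S.Mod := ⟨fun g n m => (map_zsmul (DistribSMul.toAddMonoidHom _ g) n m)⟩
  obtain ⟨T', hT', hKT⟩ := noethStatement ℤ G P hP hc S.Mod hact T hT hTt
    (AddSubgroup.toIntSubmodule (ofSub (S := S) K)) (fun g x hx => smul_mem_ofSub hK g x hx)
  have hT'K : ∀ c ∈ T', c ∈ ofSub (S := S) K := by
    intro c hc
    have : c ∈ AddSubgroup.toIntSubmodule (ofSub (S := S) K) := by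
      rw [hKT]; exact subset_hspan _ _ hc
    exact this
  choose! f hfA hfK hfc using hT'K
  refine ⟨f '' T', hT'.image _, ?_, ?_, ?_⟩
  · rintro _ ⟨c, hc, rfl⟩; exact hfK c hc
  · rintro _ ⟨c, hc, rfl⟩; exact hfA c hc
  · rintro y ⟨hyK, hyA⟩
    set R := S.B ⊔ Subgroup.normalClosure (f '' T') with hR
    have hRn : R.Normal := by
      have := S.hB
      have h' : (Subgroup.normalClosure (f '' T')).Normal := Subgroup.normalClosure_normal
      exact Subgroup.sup_normal _ _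
    have h1 : hspan ℤ (⊤ : Subgroup G) T' ≤ AddSubgroup.toIntSubmodule (ofSub (S := S) R) := by
      refine hspan_le ?_ (fun g _ x hx => smul_mem_ofSub hRn g x hx)
      intro c hc
      exact ⟨f c, hfA c hc, Subgroup.mem_sup_right (Subgroup.subset_normalClosure ⟨c, hc, rfl⟩),
        hfc c hc⟩
    have h2 : cl y hyA ∈ ofSub (S := S) R := by
      apply h1
      rw [← hKT]
      exact ⟨y, hyA, hyK, rfl⟩
    exact (cl_mem_ofSub le_sup_left hyA).1 h2

end NSec

/-! ### pairings of sections -/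

namespace SecPair

variable {G : Type u} [Group G] (S : SecPair G)

/-- the underlying `Pair` -/
def toPair : Pair G where
  D := S.D.A
  N := S.N.A
  C := S.C.A
  C₀ := S.C.B
  hD := S.D.hA
  hN := S.N.hA
  hC := S.C.hA
  hC₀ := S.C.hB
  le := S.C.le
  nd := fun x hx d hd => S.h1 d hd x hx
  cc := fun c hc c' hc' => S.C.comm c hc c' hc'
  dc := fun d hd c hc => S.h5 c hc d hd
  nc := fun x hx c hc => S.h4 c hc x hx

theorem pba {L : Set (FreeGroup ℕ)} {N₀ : ℕ}
    (hA : ∀ (G : Type u) [Group G], Sat L G → ∀ (S : Pair G) (t : G), ∀ d ∈ S.D,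
      ∀ x ∈ S.N, ∀ k : ℤ, cm x (t ^ k * d * (t ^ k)⁻¹) ∈
        S.C₀ ⊔ Subgroup.closure {y | ∃ (j : ℤ) (i : ℕ), i < N₀ ∧
          y = t ^ j * cm x (t ^ i * d * (t ^ i)⁻¹) * (t ^ j)⁻¹})
    (hsat : Sat L G) (t : G) (d : S.D.Mod) (b : S.N.Mod) (k : ℤ) :
    S.β (t ^ k • d) b ∈
      AddSubgroup.closure {c | ∃ (j : ℤ) (i : ℕ), i < N₀ ∧ c = t ^ j • S.β (t ^ i • d) b} := by
  obtain ⟨d, hd, rfl⟩ := NSec.cl_surjective d
  obtain ⟨x, hx, rfl⟩ := NSec.cl_surjective b
  have h1 := hA G hsat S.toPair t d hd x hx k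
  set W := AddSubgroup.closure {c | ∃ (j : ℤ) (i : ℕ), i < N₀ ∧
    c = t ^ j • S.β (t ^ i • NSec.cl d hd) (NSec.cl x hx)} with hW
  have h2 : S.toPair.C₀ ⊔ Subgroup.closure {y | ∃ (j : ℤ) (i : ℕ), i < N₀ ∧
      y = t ^ j * cm x (t ^ i * d * (t ^ i)⁻¹) * (t ^ j)⁻¹} ≤ NSec.toSub W := by
    refine sup_le (NSec.le_toSub W) ?_
    rw [Subgroup.closure_le]
    rintro _ ⟨j, i, hi, rfl⟩
    have hm : cm x (t ^ i * d * (t ^ i)⁻¹) ∈ S.C.A :=
      S.h1 _ (S.D.hA.conj_mem d hd _) x hx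
    refine ⟨S.C.hA.conj_mem _ hm _, ?_⟩
    exact AddSubgroup.subset_closure ⟨j, i, hi, rfl⟩
  obtain ⟨h3, h4⟩ := h2 h1
  exact h4

/-- Step from `D`, `N` finitely generated to `C` finitely generated. -/
theorem mfg {L : Set (FreeGroup ℕ)} (hA : PBa.{u} L) (hsat : Sat L G) {P : Subgroup G}
    (hP : P.Normal) (hc : CCov P ⊤) (hPD : ∀ g ∈ P, ∀ d : S.D.Mod, g • d = d) (hD : S.D.MFG)
    (hN : S.N.MFG)
    (hgen : S.C.A ≤ S.C.B ⊔ Subgroup.closure {y | ∃ d ∈ S.D.A, ∃ x ∈ S.N.A, y = cm x d}) :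
    S.C.MFG := by
  obtain ⟨N₀, -, hA⟩ := hA
  refine pair_fg S.β (fun g d b => S.pairD.equi g d b) hP hPD N₀
    (fun t d b k => S.pba hA hsat t d b k) hc hD hN ?_
  intro N hN
  rw [eq_top_iff]
  intro c _
  obtain ⟨y, hy, rfl⟩ := NSec.cl_surjective c
  have h1 : S.C.B ⊔ Subgroup.closure {y | ∃ d ∈ S.D.A, ∃ x ∈ S.N.A, y = cm x d} ≤
      NSec.toSub N.toAddSubgroup := by
    refine sup_le (NSec.le_toSub _) ?_
    rw [Subgroup.closure_le]
    rintro _ ⟨d, hd, x, hx, rfl⟩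
    exact ⟨S.h1 d hd x hx, hN (NSec.cl d hd) (NSec.cl x hx)⟩
  obtain ⟨h2, h3⟩ := h1 (hgen hy)
  exact h3

end SecPair

/-! ### the lower central series of a normal subgroup -/

section lower

variable {G : Type u} [Group G] {P : Subgroup G}

theorem lcs_normal (hP : P.Normal) (n : ℕ) : (P.lowerCentralSeries n).Normal := by
  induction n with
  | zero => exact hP
  | succ n ih =>
    rw [Subgroup.lowerCentralSeries_succ]
    exact Subgroup.commutator_normal _ _

theorem cm_mem_lcs {n : ℕ} {a x : G} (ha : a ∈ P.lowerCentralSeries n) (hx : x ∈ P) :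
    a * x * a⁻¹ * x⁻¹ ∈ P.lowerCentralSeries (n + 1) := by
  rw [Subgroup.mem_lowerCentralSeries_succ_iff]
  exact Subgroup.subset_closure ⟨a, ha, x, hx, rfl⟩

theorem cm_mem_lcs' {n : ℕ} {a x : G} (ha : a ∈ P.lowerCentralSeries n) (hx : x ∈ P) :
    x * a * x⁻¹ * a⁻¹ ∈ P.lowerCentralSeries (n + 1) := by
  have h : x * a * x⁻¹ * a⁻¹ = (a * x * a⁻¹ * x⁻¹)⁻¹ := by group
  rw [h]
  exact inv_mem (cm_mem_lcs ha hx)

theorem lcs_le (n : ℕ) : P.lowerCentralSeries n ≤ P :=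
  Subgroup.lowerCentralSeries_antitone _ (Nat.zero_le n)

/-- the sections of the lower central series -/
def lsec (hP : P.Normal) (n : ℕ) : NSec G where
  A := P.lowerCentralSeries n
  B := P.lowerCentralSeries (n + 1)
  hA := lcs_normal hP n
  hB := lcs_normal hP (n + 1)
  le := Subgroup.lowerCentralSeries_antitone _ (Nat.le_succ n)
  comm := fun _ hx _ hy => cm_mem_lcs hx (lcs_le n hy)

theorem cm_mem_lsec (hP : P.Normal) {n : ℕ} {a x : G} (ha : a ∈ P.lowerCentralSeries n)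
    (hx : x ∈ P) : x * a * x⁻¹ * a⁻¹ ∈ (lsec hP (n + 1)).A := cm_mem_lcs' ha hx

theorem lsec_act (hP : P.Normal) (n : ℕ) (g : G) (hg : g ∈ P) (m : (lsec hP n).Mod) :
    g • m = m := by
  obtain ⟨x, hx, rfl⟩ := NSec.cl_surjective m
  rw [NSec.smul_cl, NSec.cl_eq_iff]
  exact cm_mem_lcs' hx hg

/-- `[[P,P], γ_n] ≤ γ_{n+2}` -/
theorem comm_comm_mem (hP : P.Normal) {n : ℕ} {d : G} (hd : d ∈ P.lowerCentralSeries n)
    {x : G} (hx : x ∈ P.lowerCentralSeries 1) :
    x * d * x⁻¹ * d⁻¹ ∈ P.lowerCentralSeries (n + 2) := by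
  -- the homomorphism `x ↦ [x,d]`
  have hK := lcs_normal hP (n + 2)
  let f : P →* Multiplicative (lsec hP (n + 1)).Mod :=
    MonoidHom.mk' (fun x => Multiplicative.ofAdd
      (NSec.cl (S := lsec hP (n + 1)) (x.1 * d * x.1⁻¹ * d⁻¹) (cm_mem_lsec hP hd x.2))) (by
      intro a b
      rw [← ofAdd_add]
      congr 1
      have h1 := lsec_act hP (n + 1) a.1 a.2
        (NSec.cl (S := lsec hP (n + 1)) (b.1 * d * b.1⁻¹ * d⁻¹) (cm_mem_lsec hP hd b.2))
      rw [← h1, NSec.smul_cl]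
      refine Eq.trans ?_ (add_comm _ _)
      rw [← NSec.cl_mul]
      apply NSec.cl_congr
      simp [mul_assoc])
  have hf : ∀ x : P, f x = 1 ↔ x.1 * d * x.1⁻¹ * d⁻¹ ∈ P.lowerCentralSeries (n + 2) := fun x => by
    have : f x = 1 ↔ (NSec.cl (S := lsec hP (n + 1)) (x.1 * d * x.1⁻¹ * d⁻¹)
      (cm_mem_lsec hP hd x.2)) = 0 := Iff.rfl
    rw [this, NSec.cl_eq_zero]
    exact Iff.rfl
  have h1 : P.lowerCentralSeries 1 ≤ (f.ker).map P.subtype := by
    rw [Subgroup.lowerCentralSeries_succ, Subgroup.commutator_def, Subgroup.closure_le]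
    rintro _ ⟨a, ha, b, hb, rfl⟩
    refine ⟨⟨a, ha⟩ * ⟨b, hb⟩ * ⟨a, ha⟩⁻¹ * ⟨b, hb⟩⁻¹, ?_, rfl⟩
    change f _ = 1
    rw [map_mul, map_mul, map_mul, map_inv, map_inv, mul_comm (f _) (f _)]
    simp
  obtain ⟨y, hy, rfl⟩ := h1 hx
  exact (hf y).1 hy

/-- the pairing `γ_n/γ_{n+1} × P/γ_2 → γ_{n+1}/γ_{n+2}` -/
def lpair (hP : P.Normal) (n : ℕ) : SecPair G where
  D := lsec hP n
  N := lsec hP 0
  C := lsec hP (n + 1)
  h1 := fun _ hd _ hx => cm_mem_lcs' hd hx
  h2 := fun _ hd _ hx => cm_mem_lcs' hd hx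
  h3 := fun _ hd _ hx => comm_comm_mem hP hd hx
  h4 := fun _ hc _ hx => cm_mem_lcs' hc hx
  h5 := fun _ hc _ hd => cm_mem_lcs' hc (lcs_le n hd)

/-- all lower central factors of `P` are finitely generated modules -/
theorem lsec_mfg {L : Set (FreeGroup ℕ)} (hA : PBa.{u} L) (hsat : Sat L G) (hG : Group.FG G)
    (hP : P.Normal) (hc : CCov P ⊤) (n : ℕ) : (lsec hP n).MFG := by
  have h0 : (lsec hP 0).MFG := by
    obtain ⟨X, hX, hPX⟩ := fg_normalClosure hP hG hc
    refine NSec.mfg_of_normalClosure hX ?_ ?_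
    · change P ≤ _
      rw [← hPX]
      exact le_sup_right
    · change X ⊆ (P : Set G)
      rw [hPX]
      exact Subgroup.subset_normalClosure
  induction n with
  | zero => exact h0
  | succ n ih =>
    refine (lpair hP n).mfg hA hsat hP hc (lsec_act hP n) ih h0 ?_
    refine le_sup_of_le_right ?_
    change P.lowerCentralSeries (n + 1) ≤ _
    rw [Subgroup.lowerCentralSeries_succ, Subgroup.commutator_def, Subgroup.closure_le]
    rintro _ ⟨a, ha, b, hb, rfl⟩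
    have h : a * b * a⁻¹ * b⁻¹ = (cm b a)⁻¹ := by unfold cm; group
    change a * b * a⁻¹ * b⁻¹ ∈
      Subgroup.closure {y | ∃ d ∈ (lsec hP n).A, ∃ x ∈ (lsec hP 0).A, y = cm x d}
    rw [h]
    exact inv_mem (Subgroup.subset_closure ⟨a, ha, b, hb, rfl⟩)

/-- Step A: every normal subgroup of `G` inside `P` is the normal closure of a finite set. -/
theorem stepA {L : Set (FreeGroup ℕ)} (hA : PBa.{u} L) (hsat : Sat L G) (hG : Group.FG G)
    (hP : P.Normal) (hnil : Group.IsNilpotent P) (hc : CCov P ⊤) (K : Subgroup G) (hK : K.Normal)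
    (hKP : K ≤ P) : ∃ X : Set G, X.Finite ∧ K = Subgroup.normalClosure X := by
  obtain ⟨c, hc0⟩ := (Subgroup.isNilpotent_iff_lowerCentralSeries P).1 hnil
  have hX := fun n => NSec.exists_finite_inf (S := lsec hP n) hP hc
    (lsec_mfg hA hsat hG hP hc n) (lsec_act hP n) hK
  choose X hXf hXK hXA hXle using hX
  let Y : Set G := ⋃ n ∈ Set.Iio c, X n
  refine ⟨Y, Set.Finite.biUnion (Set.finite_Iio c) fun n _ => hXf n, ?_⟩
  have hYK : Subgroup.normalClosure Y ≤ K := by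
    refine Subgroup.normalClosure_le_normal ?_
    intro y hy
    obtain ⟨n, -, hn⟩ := Set.mem_iUnion₂.1 hy
    exact hXK n hn
  refine le_antisymm ?_ hYK
  have key : ∀ k ≤ c, K ⊓ P.lowerCentralSeries (c - k) ≤ Subgroup.normalClosure Y := by
    intro k
    induction k with
    | zero =>
      intro _
      rw [Nat.sub_zero, hc0, inf_bot_eq]
      exact bot_le
    | succ k ih =>
      intro hk y hy
      set n := c - (k + 1) with hn
      have h2 : n + 1 = c - k := by omega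
      have h1 := hXle n hy
      have hXY : Subgroup.normalClosure (X n) ≤ Subgroup.normalClosure Y :=
        Subgroup.normalClosure_mono (Set.subset_biUnion_of_mem (u := X)
          (Set.mem_Iio.2 (by omega)))
      have hBn : (lsec hP n).B.Normal := (lsec hP n).hB
      obtain ⟨b, hb, z, hz, rfl⟩ := Subgroup.mem_sup_of_normal_left.1 h1
      refine mul_mem (ih (by omega) ⟨?_, ?_⟩) (hXY hz)
      · have hb' : b = b * z * z⁻¹ := by group
        have hz' : z⁻¹ ∈ K := inv_mem (hYK (hXY hz))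
        have hy' : b * z ∈ K := hy.1
        change b ∈ K
        rw [hb']
        exact mul_mem hy' hz'
      · rw [← h2]; exact hb
  intro y hy
  have := key c le_rfl
  rw [Nat.sub_self] at this
  exact this ⟨hy, hKP hy⟩

end lower

end Pool.Agent.FGRF
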