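import Mathlib
import Pool.Agent.Lib_helper93.FGRF.StepA
import Pool.Agent.LibH11.PHall.Mono

/-!
# Step B: residual finiteness of `G` with `P` nilpotent and `G / P` nilpotent
-/

set_option autoImplicit false

namespace Pool.Agent.FGRF

universe u v w x

open Pool.Agent.LibH11.PHall

/-! ### modules on which all elements act unipotently -/

section unip

variable {G : Type u} [Group G] {M : Type v} [AddCommGroup M] [DistribMulAction G M]

/-- `t ^ n - 1` -/
def dt (t : G) (n : ℕ) (x : M) : M := t ^ n • x - x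

/-- the action as an endomorphism -/
def τe (t : G) : Module.End ℤ M := (DistribSMul.toAddMonoidHom M t).toIntLinearMap

theorem τe_apply (t : G) (x : M) : τe t x = t • x := rfl

theorem τe_pow (t : G) (k : ℕ) (x : M) : (τe t ^ k) x = t ^ k • x := by
  induction k generalizing x with
  | zero => simp
  | succ k ih => rw [pow_succ, Module.End.mul_apply, ih, τe_apply, ← mul_smul, ← pow_succ]

theorem dt_iterate (t : G) (n r : ℕ) (x : M) :
    (dt t n)^[r] x = ((τe (M := M) t ^ n - 1) ^ r) x := by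
  induction r generalizing x with
  | zero => rfl
  | succ r ih =>
    rw [Function.iterate_succ_apply, ih, pow_succ, Module.End.mul_apply]
    congr 1
    rw [LinearMap.sub_apply, τe_pow]
    rfl

theorem pow_smul_mem_span (t : G) (n r : ℕ) (hn : 1 ≤ n) (x : M)
    (h : ∀ y : M, (dt t n)^[r] y = 0) (k : ℕ) :
    t ^ k • x ∈ Submodule.span ℤ ((fun i : ℕ => t ^ i • x) '' Set.Iio (n * r)) := by
  have hz : (τe (M := M) t ^ n - 1) ^ r = 0 := by
    ext y
    rw [← dt_iterate, h y]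
    rfl
  let q : Polynomial ℤ := (Polynomial.X ^ n - 1) ^ r
  have hn0 : n ≠ 0 := by omega
  have hq1 : (Polynomial.X ^ n - 1 : Polynomial ℤ).Monic := by
    have := Polynomial.monic_X_pow_sub_C (1 : ℤ) hn0
    simpa using this
  have hq : q.Monic := hq1.pow r
  have haq : Polynomial.aeval (τe (M := M) t) q = 0 := by
    simp only [q, map_pow, map_sub, map_one, Polynomial.aeval_X]
    exact hz
  have h1 : τe (M := M) t ^ k =
      Polynomial.aeval (τe (M := M) t) ((Polynomial.X ^ k : Polynomial ℤ) %ₘ q) := by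
    have h2 := congrArg (Polynomial.aeval (τe (M := M) t))
      (Polynomial.modByMonic_add_div (Polynomial.X ^ k : Polynomial ℤ) q)
    rw [map_add, map_mul, haq, zero_mul, add_zero, map_pow, Polynomial.aeval_X] at h2
    exact h2.symm
  rw [← τe_pow, h1, Polynomial.aeval_eq_sum_range, LinearMap.sum_apply]
  refine Submodule.sum_mem _ fun i hi => ?_
  rw [LinearMap.smul_apply]
  by_cases hi' : i < n * r
  · refine Submodule.smul_mem _ _ (Submodule.subset_span ⟨i, hi', ?_⟩)
    exact (τe_pow t i x).symm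
  · have h3 : ((Polynomial.X ^ k : Polynomial ℤ) %ₘ q).coeff i = 0 := by
      have hdeg : q.natDegree = n * r := by
        have h4 : (Polynomial.X ^ n - 1 : Polynomial ℤ).natDegree = n := by
          have := Polynomial.natDegree_X_pow_sub_C (n := n) (r := (1 : ℤ))
          simpa using this
        rw [hq1.natDegree_pow, h4, mul_comm]
      apply Polynomial.coeff_eq_zero_of_degree_lt
      have h5 := Polynomial.degree_modByMonic_lt (Polynomial.X ^ k : Polynomial ℤ) hq
      refine h5.trans_le ?_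
      rw [Polynomial.degree_eq_natDegree hq.ne_zero, hdeg]
      exact_mod_cast not_lt.1 hi'
    rw [h3, zero_smul]
    exact Submodule.zero_mem _

theorem zpow_smul_mem_span (t : G) (n r : ℕ) (hn : 1 ≤ n) (x : M)
    (h : ∀ (t : G) (y : M), (dt t n)^[r] y = 0) (k : ℤ) :
    t ^ k • x ∈ Submodule.span ℤ ((fun i : ℤ => t ^ i • x) '' {i | |i| < n * r}) := by
  obtain ⟨m, rfl | rfl⟩ := k.eq_nat_or_neg
  · have h1 := pow_smul_mem_span t n r hn x (h t) m
    rw [zpow_natCast]
    refine Submodule.span_mono ?_ h1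
    rintro _ ⟨i, hi, rfl⟩
    refine ⟨(i : ℤ), ?_, by simp⟩
    have : i < n * r := hi
    simp only [Set.mem_ofPred_eq, Nat.abs_cast]
    exact_mod_cast this
  · have h1 := pow_smul_mem_span t⁻¹ n r hn x (h t⁻¹) m
    have h2 : t ^ (-(m : ℤ)) = t⁻¹ ^ m := by simp
    rw [h2]
    refine Submodule.span_mono ?_ h1
    rintro _ ⟨i, hi, rfl⟩
    refine ⟨-(i : ℤ), ?_, by simp⟩
    have : i < n * r := hi
    simp only [Set.mem_ofPred_eq, abs_neg, Nat.abs_cast]
    exact_mod_cast this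

theorem unip_gen {P : Subgroup G} (hP : P.Normal) (hPM : ∀ g ∈ P, ∀ x : M, g • x = x) (n r : ℕ)
    (hn : 1 ≤ n) (h : ∀ (t : G) (y : M), (dt t n)^[r] y = 0) {H : Subgroup G} (hc : CCov P H) :
    ∀ S : Set M, S.Finite → ∃ S' : Set M, S'.Finite ∧ hspan ℤ H S ≤ Submodule.span ℤ S' := by
  induction hc with
  | base =>
    intro S hS
    refine ⟨S, hS, ?_⟩
    unfold hspan
    rw [Submodule.span_le]
    rintro _ ⟨g, hg, s, hs, rfl⟩
    rw [hPM g hg]
    exact Submodule.subset_span hs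
  | @step H t hH ht ih =>
    intro S hS
    obtain ⟨S₁, hS₁, hle⟩ := ih S hS
    have hfin : {i : ℤ | |i| < n * r}.Finite := by
      refine (Set.finite_Ioo (-((n : ℤ) * r)) ((n : ℤ) * r)).subset ?_
      intro i hi
      exact abs_lt.1 hi
    let S' : Set M := (fun z : ℤ × M => t ^ z.1 • z.2) '' ({i : ℤ | |i| < n * r} ×ˢ S₁)
    refine ⟨S', (hfin.prod hS₁).image _, ?_⟩
    have key : ∀ (k : ℤ), ∀ y ∈ Submodule.span ℤ S₁, t ^ k • y ∈ Submodule.span ℤ S' := by
      intro k y hy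
      have h1 : Submodule.span ℤ S₁ ≤ (Submodule.span ℤ S').comap (τe (M := M) (t ^ k)) := by
        rw [Submodule.span_le]
        intro s hs
        change t ^ k • s ∈ Submodule.span ℤ S'
        refine Submodule.span_mono ?_ (zpow_smul_mem_span t n r hn s h k)
        rintro _ ⟨i, hi, rfl⟩
        exact ⟨(i, s), ⟨hi, hs⟩, rfl⟩
      exact h1 hy
    unfold hspan
    rw [Submodule.span_le]
    rintro _ ⟨g, hg, s, hs, rfl⟩
    have hHn : H.Normal := hH.normal hP
    obtain ⟨h', hh', k, rfl⟩ : ∃ h' ∈ H, ∃ k : ℤ, t ^ k * h' = g := by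
      obtain ⟨y, hy, z, hz, rfl⟩ := Subgroup.mem_sup_of_normal_left.1 hg
      obtain ⟨k, rfl⟩ := Subgroup.mem_zpowers_iff.1 hz
      refine ⟨(t ^ k)⁻¹ * y * t ^ k, ?_, k, by group⟩
      have := hHn.conj_mem y hy (t ^ k)⁻¹
      simpa using this
    rw [mul_smul]
    exact key k _ (hle (Submodule.subset_span ⟨h', hh', s, hs, rfl⟩))

/-- A finitely generated module on which every element is unipotent up to a fixed power is a
finitely generated abelian group. -/
theorem unip_fg {P : Subgroup G} (hP : P.Normal) (hPM : ∀ g ∈ P, ∀ x : M, g • x = x) (n r : ℕ)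
    (hn : 1 ≤ n) (h : ∀ (t : G) (y : M), (dt t n)^[r] y = 0) (hc : CCov P (⊤ : Subgroup G))
    (hfg : ∃ S : Set M, S.Finite ∧ hspan ℤ (⊤ : Subgroup G) S = ⊤) :
    ∃ S : Set M, S.Finite ∧ AddSubgroup.closure S = ⊤ := by
  obtain ⟨S, hS, hSt⟩ := hfg
  obtain ⟨S', hS', hle⟩ := unip_gen hP hPM n r hn h hc S hS
  refine ⟨S', hS', ?_⟩
  rw [hSt] at hle
  rw [eq_top_iff]
  intro x _
  have h1 : x ∈ Submodule.span ℤ S' := hle trivial
  rw [← Submodule.mem_toAddSubgroup, Submodule.span_int_eq_addSubgroupClosure] at h1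
  simpa using h1

end unip

/-! ### the upper central series of `P` inside `G` -/

section upper

variable {G : Type u} [Group G]

/-- the elements of `P` that are central in `P` modulo `K` -/
def cstep (P K : Subgroup G) (hK : K.Normal) : Subgroup G where
  carrier := {x | x ∈ P ∧ ∀ y ∈ P, y * x * y⁻¹ * x⁻¹ ∈ K}
  one_mem' := ⟨P.one_mem, fun y _ => by simp⟩
  mul_mem' := by
    rintro a b ⟨ha, ha'⟩ ⟨hb, hb'⟩
    refine ⟨mul_mem ha hb, fun y hy => ?_⟩
    have h : y * (a * b) * y⁻¹ * (a * b)⁻¹ =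
        (y * a * y⁻¹ * a⁻¹) * (a * (y * b * y⁻¹ * b⁻¹) * a⁻¹) := by group
    rw [h]
    exact mul_mem (ha' y hy) (hK.conj_mem _ (hb' y hy) a)
  inv_mem' := by
    rintro a ⟨ha, ha'⟩
    refine ⟨inv_mem ha, fun y hy => ?_⟩
    have h : y * a⁻¹ * y⁻¹ * a⁻¹⁻¹ = a⁻¹ * (y * a * y⁻¹ * a⁻¹)⁻¹ * a⁻¹⁻¹ := by group
    rw [h]
    exact hK.conj_mem _ (inv_mem (ha' y hy)) _

theorem cstep_normal {P K : Subgroup G} (hP : P.Normal) (hK : K.Normal) :
    (cstep P K hK).Normal where
  conj_mem := by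
    rintro x ⟨hx, hx'⟩ g
    refine ⟨hP.conj_mem x hx g, fun y hy => ?_⟩
    have h : y * (g * x * g⁻¹) * y⁻¹ * (g * x * g⁻¹)⁻¹ =
        g * ((g⁻¹ * y * g⁻¹⁻¹) * x * (g⁻¹ * y * g⁻¹⁻¹)⁻¹ * x⁻¹) * g⁻¹ := by group
    rw [h]
    exact hK.conj_mem _ (hx' _ (hP.conj_mem y hy g⁻¹)) g

/-- the upper central series of `P` -/
def ucsAux (P : Subgroup G) (hP : P.Normal) : ℕ → {K : Subgroup G // K.Normal}
  | 0 => ⟨⊥, inferInstance⟩
  | n + 1 => ⟨cstep P (ucsAux P hP n).1 (ucsAux P hP n).2, cstep_normal hP (ucsAux P hP n).2⟩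

/-- the upper central series of `P`, as normal subgroups of `G` -/
def ucs (P : Subgroup G) (hP : P.Normal) (n : ℕ) : Subgroup G := (ucsAux P hP n).1

theorem ucs_normal (P : Subgroup G) (hP : P.Normal) (n : ℕ) : (ucs P hP n).Normal :=
  (ucsAux P hP n).2

theorem ucs_zero (P : Subgroup G) (hP : P.Normal) : ucs P hP 0 = ⊥ := rfl

theorem mem_ucs_succ {P : Subgroup G} {hP : P.Normal} {n : ℕ} {x : G} :
    x ∈ ucs P hP (n + 1) ↔ x ∈ P ∧ ∀ y ∈ P, y * x * y⁻¹ * x⁻¹ ∈ ucs P hP n := Iff.rfl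

theorem ucs_le {P : Subgroup G} {hP : P.Normal} (n : ℕ) : ucs P hP n ≤ P := by
  cases n with
  | zero => rw [ucs_zero]; exact bot_le
  | succ n => exact fun x hx => hx.1

theorem ucs_le_succ {P : Subgroup G} {hP : P.Normal} (n : ℕ) :
    ucs P hP n ≤ ucs P hP (n + 1) := by
  intro x hx
  refine ⟨ucs_le n hx, fun y _ => ?_⟩
  have := (ucs_normal P hP n).conj_mem x hx y
  exact mul_mem this (inv_mem hx)

theorem lcs_le_ucs {P : Subgroup G} {hP : P.Normal} {c : ℕ}
    (hc : P.lowerCentralSeries c = ⊥) (k : ℕ) (hk : k ≤ c) :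
    P.lowerCentralSeries (c - k) ≤ ucs P hP k := by
  induction k with
  | zero => rw [Nat.sub_zero, hc]; exact bot_le
  | succ k ih =>
    intro x hx
    refine ⟨lcs_le _ hx, fun y hy => ih (by omega) ?_⟩
    have h := cm_mem_lcs' hx hy
    have h2 : c - (k + 1) + 1 = c - k := by omega
    rwa [h2] at h

theorem exists_ucs_eq {P : Subgroup G} (hP : P.Normal) (hnil : Group.IsNilpotent P) :
    ∃ c, ucs P hP c = P := by
  obtain ⟨c, hc⟩ := (Subgroup.isNilpotent_iff_lowerCentralSeries P).1 hnil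
  refine ⟨c, le_antisymm (ucs_le c) ?_⟩
  have := lcs_le_ucs (hP := hP) hc c le_rfl
  rwa [Nat.sub_self] at this

/-- the sections of the upper central series -/
def usec {P : Subgroup G} (hP : P.Normal) (n : ℕ) : NSec G where
  A := ucs P hP (n + 1)
  B := ucs P hP n
  hA := ucs_normal P hP (n + 1)
  hB := ucs_normal P hP n
  le := ucs_le_succ n
  comm := fun _ hx _ hy => hy.2 _ hx.1

theorem usec_act {P : Subgroup G} (hP : P.Normal) (n : ℕ) (g : G) (hg : g ∈ P)
    (m : (usec hP n).Mod) : g • m = m := by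
  obtain ⟨x, hx, rfl⟩ := NSec.cl_surjective m
  rw [NSec.smul_cl, NSec.cl_eq_iff]
  exact hx.2 g hg

/-- the pairing `Z_{n+2}/Z_{n+1} × P → Z_{n+1}/Z_n` -/
def upair {P : Subgroup G} (hP : P.Normal) (n : ℕ) : Pair G where
  D := ucs P hP (n + 2)
  N := P
  C := ucs P hP (n + 1)
  C₀ := ucs P hP n
  hD := ucs_normal P hP _
  hN := hP
  hC := ucs_normal P hP _
  hC₀ := ucs_normal P hP _
  le := ucs_le_succ n
  nd := fun _ hx _ hd => hd.2 _ hx
  cc := fun _ hc _ hc' => hc'.2 _ hc.1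
  dc := fun _ hd _ hc => hc.2 _ hd.1
  nc := fun _ hx _ hc => hc.2 _ hx

theorem usec_mfg {L : Set (FreeGroup ℕ)} (hA : PBa.{u} L) (hsat : Sat L G) (hG : Group.FG G)
    {P : Subgroup G} (hP : P.Normal) (hnil : Group.IsNilpotent P) (hc : CCov P ⊤) (n : ℕ) :
    (usec hP n).MFG := by
  obtain ⟨X, hX, hKX⟩ := stepA hA hsat hG hP hnil hc (ucs P hP (n + 1)) (ucs_normal P hP _)
    (ucs_le _)
  refine NSec.mfg_of_normalClosure hX ?_ ?_
  · change ucs P hP (n + 1) ≤ _
    rw [← hKX]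
    exact le_sup_right
  · change X ⊆ (ucs P hP (n + 1) : Set G)
    rw [hKX]
    exact Subgroup.subset_normalClosure

theorem cl_cg_iterate {S : NSec G} {x : G} (hx : x ∈ S.A) (t : G) (n r : ℕ) :
    ∃ h : (cg t n)^[r] x ∈ S.A, (NSec.cl ((cg t n)^[r] x) h : S.Mod) =
      (dt t n)^[r] (NSec.cl x hx) := by
  induction r with
  | zero => exact ⟨hx, rfl⟩
  | succ r ih =>
    obtain ⟨h, he⟩ := ih
    have h1 : (cg t n)^[r + 1] x = cg t n ((cg t n)^[r] x) := Function.iterate_succ_apply' _ _ _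
    have h2 : cg t n ((cg t n)^[r] x) ∈ S.A :=
      mul_mem (S.hA.conj_mem _ h _) (inv_mem h)
    refine ⟨h1 ▸ h2, ?_⟩
    rw [Function.iterate_succ_apply' (dt t n), ← he]
    have h3 : (NSec.cl (cg t n ((cg t n)^[r] x)) h2 : S.Mod) =
        dt t n (NSec.cl ((cg t n)^[r] x) h) := by
      unfold dt
      rw [NSec.smul_cl, sub_eq_add_neg, ← NSec.cl_inv, ← NSec.cl_mul]
      rfl
    rw [← h3]
    exact NSec.cl_congr h1

/-- on a finite module some power of every element acts trivially -/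
theorem exists_uniform_pow (M : Type v) [AddCommGroup M] [DistribMulAction G M] [Finite M] :
    ∃ e : ℕ, 1 ≤ e ∧ ∀ (t : G) (x : M), t ^ e • x = x := by
  classical
  have : Fintype M := Fintype.ofFinite M
  refine ⟨Nat.card (Equiv.Perm M), Nat.card_pos, fun t x => ?_⟩
  have h1 : (MulAction.toPermHom G M t) ^ Nat.card (Equiv.Perm M) = 1 := pow_card_eq_one'
  rw [← map_pow] at h1
  have h2 := congrArg (fun f : Equiv.Perm M => f x) h1
  exact h2

/-- upper central factors above a finite one are finite -/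
theorem usec_finite_succ {L : Set (FreeGroup ℕ)} (hA : PBa.{u} L) (hB : PBb.{u} L)
    (hsat : Sat L G) (hG : Group.FG G)
    {P : Subgroup G} (hP : P.Normal) (hnil : Group.IsNilpotent P) (hc : CCov P ⊤) (n : ℕ)
    (hfin : Finite (usec hP n).Mod) : Finite (usec hP (n + 1)).Mod := by
  obtain ⟨e, he, hte⟩ := exists_uniform_pow (G := G) (usec hP n).Mod
  obtain ⟨n', r', hn', hPB⟩ := hB e 1 he
  have h1 : ∀ (t : G) (y : (usec hP (n + 1)).Mod), (dt t n')^[r'] y = 0 := by
    intro t y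
    obtain ⟨d, hd, rfl⟩ := NSec.cl_surjective y
    obtain ⟨h2, h3⟩ := cl_cg_iterate hd t n' r'
    rw [← h3, NSec.cl_eq_zero]
    refine ⟨h2.1, fun x hx => ?_⟩
    refine hPB G hsat (upair hP n) t ?_ d hd x hx
    intro c hc'
    rw [Function.iterate_one]
    have hc'' : c ∈ (usec hP n).A := hc'
    have h4 := hte t (NSec.cl (S := usec hP n) c hc'')
    rw [NSec.smul_cl, NSec.cl_eq_iff] at h4
    exact h4
  obtain ⟨S, hS, hSt⟩ := unip_fg hP (usec_act hP (n + 1)) n' r' hn' h1 hc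
    (usec_mfg hA hsat hG hP hnil hc (n + 1))
  refine finite_of_closure S hS hSt (Nat.card (usec hP n).Mod) Nat.card_pos ?_
  intro y
  obtain ⟨d, hd, rfl⟩ := NSec.cl_surjective y
  rw [← NSec.cl_npow, NSec.cl_eq_zero]
  refine ⟨pow_mem hd.1 _, fun x hx => ?_⟩
  -- `[x, d ^ k] ≡ k [x, d]`
  have key : ∀ k : ℕ, ∃ h : x * d ^ k * x⁻¹ * (d ^ k)⁻¹ ∈ (usec hP n).A,
      (NSec.cl (x * d ^ k * x⁻¹ * (d ^ k)⁻¹) h : (usec hP n).Mod) =
        k • NSec.cl (x * d * x⁻¹ * d⁻¹) (hd.2 x hx) := by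
    intro k
    induction k with
    | zero =>
      refine ⟨by simp, ?_⟩
      rw [zero_smul]
      exact NSec.cl_eq_zero.2 (by simp)
    | succ k ih =>
      obtain ⟨h, he⟩ := ih
      have h5 : x * d ^ (k + 1) * x⁻¹ * (d ^ (k + 1))⁻¹ =
          (x * d ^ k * x⁻¹ * (d ^ k)⁻¹) * (d ^ k * (x * d * x⁻¹ * d⁻¹) * (d ^ k)⁻¹) := by
        rw [pow_succ]; group
      have h6 : d ^ k * (x * d * x⁻¹ * d⁻¹) * (d ^ k)⁻¹ ∈ (usec hP n).A :=
        (usec hP n).hA.conj_mem _ (hd.2 x hx) _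
      refine ⟨h5 ▸ mul_mem h h6, ?_⟩
      rw [succ_nsmul, ← he]
      have h7 : (NSec.cl (d ^ k * (x * d * x⁻¹ * d⁻¹) * (d ^ k)⁻¹) h6 : (usec hP n).Mod) =
          NSec.cl (x * d * x⁻¹ * d⁻¹) (hd.2 x hx) := by
        rw [← NSec.smul_cl (S := usec hP n) (d ^ k) (hd.2 x hx)]
        exact usec_act hP n (d ^ k) (pow_mem hd.1 k) _
      rw [← h7, ← NSec.cl_mul]
      exact NSec.cl_congr h5
  obtain ⟨h8, h9⟩ := key (Nat.card (usec hP n).Mod)
  have h10 : (NSec.cl (x * d ^ Nat.card (usec hP n).Mod * x⁻¹ *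
      (d ^ Nat.card (usec hP n).Mod)⁻¹) h8 : (usec hP n).Mod) = 0 := by
    rw [h9]
    exact card_nsmul_eq_zero'
  exact NSec.cl_eq_zero.1 h10

end upper

/-! ### monolithic groups are finite -/

section mono

variable {G : Type u} [Group G]

theorem NSec.finite_A {S : NSec G} (hB : Finite S.B) (hM : Finite S.Mod) : Finite S.A := by
  have h1 : Finite (S.A ⧸ S.B.subgroupOf S.A) := hM
  have h2 : Finite (S.B.subgroupOf S.A) :=
    Finite.of_injective (fun x : S.B.subgroupOf S.A => (⟨x.1.1, x.2⟩ : S.B)) (by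
      intro x y h
      have := congrArg Subtype.val h
      exact Subtype.ext (Subtype.ext this))
  exact (Subgroup.finite_iff_finite_and_finiteIndex (H := S.B.subgroupOf S.A)).2
    ⟨h2, Subgroup.finiteIndex_iff_finite_quotient.2 h1⟩

theorem usec_zero_finite {L : Set (FreeGroup ℕ)} (hA : PBa.{u} L)
    (hsat : Sat L G) (hG : Group.FG G)
    {P : Subgroup G} (hP : P.Normal) (hnil : Group.IsNilpotent P) (hc : CCov P ⊤) {g₀ : G}
    (hg₀ : g₀ ≠ 1) (hmono : ∀ K : Subgroup G, K.Normal → K ≠ ⊥ → g₀ ∈ K) :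
    Finite (usec hP 0).Mod := by
  by_cases h0 : ucs P hP 1 = ⊥
  · have : Subsingleton (usec hP 0).Mod := by
      constructor
      intro a b
      obtain ⟨x, hx, rfl⟩ := NSec.cl_surjective a
      obtain ⟨y, hy, rfl⟩ := NSec.cl_surjective b
      have hx' : x ∈ ucs P hP 1 := hx
      have hy' : y ∈ ucs P hP 1 := hy
      rw [h0, Subgroup.mem_bot] at hx' hy'
      subst hx'
      subst hy'
      rfl
    infer_instance
  · have hgZ : g₀ ∈ (usec hP 0).A := hmono _ (ucs_normal P hP 1) h0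
    obtain ⟨T, hT, hTt⟩ := usec_mfg hA hsat hG hP hnil hc 0
    refine mono_finite P hP hc (usec_act hP 0) ⟨T, hT, ?_⟩ (NSec.cl (S := usec hP 0) g₀ hgZ) ?_ ?_
    · rw [eq_top_iff]
      intro x _
      have hx : x ∈ hspan ℤ (⊤ : Subgroup G) T := by rw [hTt]; trivial
      unfold hspan at hx
      rw [← Submodule.mem_toAddSubgroup, Submodule.span_int_eq_addSubgroupClosure] at hx
      have h3 : {x | ∃ h ∈ (⊤ : Subgroup G), ∃ s ∈ T, x = h • s} =
          {x | ∃ g : G, ∃ s ∈ T, x = g • s} := by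
        ext y
        simp
      rw [h3] at hx
      simpa using hx
    · intro h
      rw [NSec.cl_eq_zero] at h
      have h' : g₀ ∈ ucs P hP 0 := h
      rw [ucs_zero, Subgroup.mem_bot] at h'
      exact hg₀ h'
    · intro N hN hN0
      have h4 : (NSec.toSub N).Normal := NSec.toSub_normal hN
      have h5 : NSec.toSub N ≠ ⊥ := by
        intro h
        apply hN0
        rw [AddSubgroup.eq_bot_iff_forall]
        intro m hm
        obtain ⟨x, hx, rfl⟩ := NSec.cl_surjective m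
        have h6 : x ∈ NSec.toSub N := ⟨hx, hm⟩
        rw [h, Subgroup.mem_bot] at h6
        subst h6
        rfl
      obtain ⟨h7, h8⟩ := hmono _ h4 h5
      exact h8

theorem P_finite {L : Set (FreeGroup ℕ)} (hA : PBa.{u} L) (hB : PBb.{u} L)
    (hsat : Sat L G) (hG : Group.FG G)
    {P : Subgroup G} (hP : P.Normal) (hnil : Group.IsNilpotent P) (hc : CCov P ⊤) {g₀ : G}
    (hg₀ : g₀ ≠ 1) (hmono : ∀ K : Subgroup G, K.Normal → K ≠ ⊥ → g₀ ∈ K) : Finite P := by
  have h1 : ∀ n, Finite (usec hP n).Mod := by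
    intro n
    induction n with
    | zero => exact usec_zero_finite hA hsat hG hP hnil hc hg₀ hmono
    | succ n ih => exact usec_finite_succ hA hB hsat hG hP hnil hc n ih
  have h2 : ∀ n, Finite (ucs P hP n) := by
    intro n
    induction n with
    | zero => rw [ucs_zero]; infer_instance
    | succ n ih => exact NSec.finite_A (S := usec hP n) ih (h1 n)
  obtain ⟨c, hc⟩ := exists_ucs_eq hP hnil
  have := h2 c
  rwa [hc] at this

theorem G_finite {L : Set (FreeGroup ℕ)} (hA : PBa.{u} L) (hB : PBb.{u} L)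
    (hsat : Sat L G) (hG : Group.FG G)
    {P : Subgroup G} (hP : P.Normal) (hnil : Group.IsNilpotent P) (hc : CCov P ⊤) {g₀ : G}
    (hg₀ : g₀ ≠ 1) (hmono : ∀ K : Subgroup G, K.Normal → K ≠ ⊥ → g₀ ∈ K) : Finite G := by
  rcases finite_or_central hP (P_finite hA hB hsat hG hP hnil hc hg₀ hmono) hc with h | ⟨z, hz, hzo⟩
  · exact Finite.of_equiv _ Subgroup.topEquiv.toEquiv
  · exfalso
    have hnorm : ∀ k : ℤ, (Subgroup.zpowers (z ^ k)).Normal := by
      intro k
      constructor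
      intro x hx g
      obtain ⟨m, rfl⟩ := Subgroup.mem_zpowers_iff.1 hx
      have h1 : Commute g ((z ^ k) ^ m) :=
        ((show Commute g z from hz g).zpow_right k).zpow_right m
      have h2 : g * (z ^ k) ^ m * g⁻¹ = (z ^ k) ^ m := by
        rw [h1.eq]; group
      rw [h2]
      exact hx
    have hinj : ∀ a b : ℤ, z ^ a = z ^ b → a = b := by
      intro a b h
      exact (injective_zpow_iff_not_isOfFinOrder.2 hzo) h
    have hne : ∀ k : ℤ, k ≠ 0 → Subgroup.zpowers (z ^ k) ≠ ⊥ := by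
      intro k hk h
      rw [Subgroup.zpowers_eq_bot] at h
      exact hk (hinj k 0 (by simpa using h))
    obtain ⟨m, hm⟩ := Subgroup.mem_zpowers_iff.1 (hmono _ (hnorm 1) (hne 1 one_ne_zero))
    rw [zpow_one] at hm
    have hm0 : m ≠ 0 := by
      rintro rfl
      exact hg₀ (by rw [← hm, zpow_zero])
    obtain ⟨l, hl⟩ := Subgroup.mem_zpowers_iff.1 (hmono _ (hnorm (2 * m)) (hne _ (by omega)))
    rw [← hm, ← zpow_mul] at hl
    have h3 := hinj _ _ hl
    have h4 : m * (2 * l - 1) = 0 := by linear_combination h3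
    rcases mul_eq_zero.1 h4 with h5 | h5
    · exact hm0 h5
    · omega

theorem CCov.map {Q : Type v} [Group Q] (φ : G →* Q) (hφ : Function.Surjective φ)
    {P H : Subgroup G} (h : CCov P H) : CCov (P.map φ) (H.map φ) := by
  induction h with
  | base => exact CCov.base
  | @step H t _ ht ih =>
    rw [Subgroup.map_sup, MonoidHom.map_zpowers]
    refine CCov.step (φ t) ih fun g => ?_
    obtain ⟨g, rfl⟩ := hφ g
    exact ⟨g * t * g⁻¹ * t⁻¹, ht g, by simp⟩

/-- Step B. -/
theorem stepB {L : Set (FreeGroup ℕ)} (hA : PBa.{u} L) (hB : PBb.{u} L)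
    (hsat : Sat L G) (hG : Group.FG G)
    {P : Subgroup G} (hP : P.Normal) (hnil : Group.IsNilpotent P) (hc : CCov P ⊤) :
    Group.ResiduallyFinite G := by
  rw [Group.residuallyFinite_iff_exists_finiteIndex]
  intro g hg
  -- a maximal normal subgroup avoiding `g`
  let 𝒮 : Set (Subgroup G) := {N | N.Normal ∧ g ∉ N}
  obtain ⟨N, -, hN⟩ := zorn_le_nonempty₀ 𝒮 (by
    intro c hcS hch y hy
    refine ⟨sSup c, ⟨?_, ?_⟩, fun z hz => le_sSup hz⟩
    · constructor
      intro x hx t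
      rw [Subgroup.mem_sSup_of_directedOn ⟨y, hy⟩ hch.directedOn] at hx ⊢
      obtain ⟨K, hK, hxK⟩ := hx
      exact ⟨K, hK, (hcS hK).1.conj_mem x hxK t⟩
    · intro hx
      rw [Subgroup.mem_sSup_of_directedOn ⟨y, hy⟩ hch.directedOn] at hx
      obtain ⟨K, hK, hxK⟩ := hx
      exact (hcS hK).2 hxK) ⊥ ⟨inferInstance, by simpa using hg⟩
  obtain ⟨⟨hNn, hgN⟩, hmax⟩ := hN
  let π := QuotientGroup.mk' N
  have hπ : Function.Surjective π := QuotientGroup.mk'_surjective N
  have hfin : Finite (G ⧸ N) := by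
    have hnil' : Group.IsNilpotent (P.map π) :=
      Group.nilpotent_of_surjective (π.subgroupMap P) (π.subgroupMap_surjective P)
    have hc' : CCov (P.map π) ⊤ := by
      have := hc.map π hπ
      rwa [Subgroup.map_top_of_surjective π hπ] at this
    refine G_finite hA hB (hsat.quotient N) (Group.fg_of_surjective hπ) (hP.map π hπ) hnil' hc'
      (g₀ := π g) ?_ ?_
    · intro h
      exact hgN ((QuotientGroup.eq_one_iff g).1 h)
    · intro K hK hK0
      by_contra hgK
      have h1 : (K.comap π) ∈ 𝒮 := ⟨hK.comap π, hgK⟩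
      have h2 : N ≤ K.comap π := by
        intro x hx
        change π x ∈ K
        have : π x = 1 := (QuotientGroup.eq_one_iff x).2 hx
        rw [this]
        exact K.one_mem
      have h3 := hmax h1 h2
      apply hK0
      rw [eq_bot_iff]
      intro y hy
      obtain ⟨x, rfl⟩ := hπ y
      have h4 : x ∈ N := h3 hy
      exact (QuotientGroup.eq_one_iff x).2 h4
  exact ⟨N, Subgroup.finiteIndex_iff_finite_quotient.2 hfin, hgN⟩

end mono

end Pool.Agent.FGRF
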