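import Mathlib
import Pool.Agent.Lib_helper93.FGRF.StepA

/-!
# Maximal elements of sets of normal subgroups of `G` inside `P`
-/

set_option autoImplicit false

namespace Pool.Agent.FGRF

universe u v w

/-- every nonempty set of normal subgroups of `G` inside `P` has a maximal element -/
theorem exists_maximal_normal {G : Type u} [Group G] {L : Set (FreeGroup ℕ)} (hA : PBa.{u} L)
    (hsat : Sat L G) (hG : Group.FG G) {P : Subgroup G} (hP : P.Normal)
    (hnil : Group.IsNilpotent P) (hc : CCov P ⊤) (𝒮 : Set (Subgroup G))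
    (h𝒮 : ∀ K ∈ 𝒮, K.Normal ∧ K ≤ P) (hne : 𝒮.Nonempty) :
    ∃ K ∈ 𝒮, ∀ K' ∈ 𝒮, K ≤ K' → K' = K := by
  obtain ⟨K₀, hK₀⟩ := hne
  obtain ⟨K, -, hK⟩ := zorn_le_nonempty₀ 𝒮 (by
    intro c hcS hch y hy
    have hdir := hch.directedOn
    have hn : (sSup c).Normal := by
      constructor
      intro x hx t
      rw [Subgroup.mem_sSup_of_directedOn ⟨y, hy⟩ hdir] at hx ⊢
      obtain ⟨K, hK, hxK⟩ := hx
      exact ⟨K, hK, (h𝒮 K (hcS hK)).1.conj_mem x hxK t⟩
    have hle : sSup c ≤ P := sSup_le fun K hK => (h𝒮 K (hcS hK)).2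
    obtain ⟨X, hX, hKX⟩ := stepA hA hsat hG hP hnil hc _ hn hle
    -- `X` lies in a member of the chain
    have hXc : ∃ K ∈ c, X ⊆ K := by
      have hXs : X ⊆ (sSup c : Subgroup G) := by
        rw [hKX]; exact Subgroup.subset_normalClosure
      clear hKX
      induction X, hX using Set.Finite.induction_on with
      | empty => exact ⟨y, hy, Set.empty_subset _⟩
      | @insert x X _ _ ih =>
        obtain ⟨K, hK, hXK⟩ := ih fun z hz => hXs (Set.mem_insert_of_mem _ hz)
        have hx := hXs (Set.mem_insert x X)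
        rw [SetLike.mem_coe, Subgroup.mem_sSup_of_directedOn ⟨y, hy⟩ hdir] at hx
        obtain ⟨K', hK', hxK'⟩ := hx
        obtain ⟨K'', hK'', h1, h2⟩ := hdir K hK K' hK'
        exact ⟨K'', hK'', Set.insert_subset (h2 hxK') (hXK.trans h1)⟩
    obtain ⟨K, hK, hXK⟩ := hXc
    refine ⟨K, hcS hK, fun z hz => (le_sSup hz).trans ?_⟩
    rw [hKX]
    have := (h𝒮 K (hcS hK)).1
    exact Subgroup.normalClosure_le_normal hXK) K₀ hK₀
  exact ⟨K, hK.1, fun K' hK' hle => le_antisymm (hK.2 hK' hle) hle⟩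

end Pool.Agent.FGRF
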