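import Mathlib

/-!
# Ideals of `ℤ[T;T⁻¹]` closed under the substitutions `T ↦ T^j`

Commutative algebra used in the proof of the relation lemmas (block UP of MP_364ede_al).
-/

set_option autoImplicit false

namespace Pool.Agent.FGRF.UP

open LaurentPolynomial
open Polynomial hiding C

/-- the substitution `T ↦ T^j` -/
noncomputable def sub (j : ℤ) : ℤ[T;T⁻¹] →+* ℤ[T;T⁻¹] :=
  AddMonoidAlgebra.mapDomainRingHom ℤ (j • AddMonoidHom.id ℤ)

lemma sub_single (j m c : ℤ) : sub j (AddMonoidAlgebra.single m c) = C c * T m ^ j.toNat ∨ j < 0 := by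
  rcases lt_or_ge j 0 with h | h
  · exact Or.inr h
  · left
    obtain ⟨k, rfl⟩ := Int.eq_ofNat_of_zero_le h
    rw [sub, AddMonoidAlgebra.mapDomainRingHom_apply, AddMonoidAlgebra.mapDomain_single,
      T_pow, ← single_eq_C_mul_T]
    simp

lemma sub_single_nat (j : ℕ) (m c : ℤ) :
    sub j (AddMonoidAlgebra.single m c) = C c * T m ^ j := by
  rcases sub_single j m c with h | h
  · simpa using h
  · omega

lemma dvd_of_coeff (p : ℕ) (x : ℤ[T;T⁻¹]) (h : ∀ a, (p : ℤ) ∣ x.coeff a) :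
    (p : ℤ[T;T⁻¹]) ∣ x := by
  refine ⟨.ofCoeff (x.coeff.mapRange (fun z => z / p) (by simp)), ?_⟩
  ext a
  rw [← nsmul_eq_mul, AddMonoidAlgebra.coeff_smul]
  simp only [Finsupp.smul_apply, Finsupp.mapRange_apply, nsmul_eq_mul]
  exact (Int.mul_ediv_cancel' (h a)).symm

/-- reduction mod `p` -/
noncomputable def red (p : ℕ) : ℤ[T;T⁻¹] →+* (ZMod p)[T;T⁻¹] :=
  AddMonoidAlgebra.mapRingHom ℤ (Int.castRingHom (ZMod p))

lemma red_coeff (p : ℕ) (x : ℤ[T;T⁻¹]) (a : ℤ) : (red p x).coeff a = (x.coeff a : ZMod p) := by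
  simp [red]

lemma red_T (p : ℕ) (a : ℤ) : red p (T a) = T a := by
  ext b
  rw [red_coeff]
  simp

lemma red_surjective (p : ℕ) : Function.Surjective (red p) := by
  intro x
  obtain ⟨y, hy⟩ := AddMonoidAlgebra.map_surjective (M := ℤ)
    (Int.castRingHom (ZMod p)).toAddMonoidHom (ZMod.intCast_surjective) x
  exact ⟨y, hy⟩

lemma red_eq_zero (p : ℕ) (x : ℤ[T;T⁻¹]) : red p x = 0 ↔ (p : ℤ[T;T⁻¹]) ∣ x := by
  constructor
  · intro h
    refine dvd_of_coeff p x fun a => ?_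
    have := congrArg (fun y => y.coeff a) h
    simp only [red_coeff, AddMonoidAlgebra.coeff_zero, Finsupp.coe_zero, Pi.zero_apply] at this
    exact (ZMod.intCast_zmod_eq_zero_iff_dvd _ _).1 this
  · rintro ⟨y, rfl⟩
    rw [map_mul, map_natCast]
    have : ((p : ℕ) : (ZMod p)[T;T⁻¹]) = 0 := by
      rw [← map_natCast (C : ZMod p →+* (ZMod p)[T;T⁻¹])]
      simp
    rw [this, zero_mul]

lemma exists_dvd (p : ℕ) (hp : p.Prime) (w : ℤ[T;T⁻¹]) (hw : ¬ (p : ℤ[T;T⁻¹]) ∣ w) :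
    ∃ n : ℕ, 1 ≤ n ∧ ∃ u u' : ℤ[T;T⁻¹], T (n : ℤ) - 1 = u * w + (p : ℤ[T;T⁻¹]) * u' := by
  have := Fact.mk hp
  have hw0 : red p w ≠ 0 := fun h => hw ((red_eq_zero p w).1 h)
  obtain ⟨m, f, hf⟩ := exists_T_pow (red p w)
  have hf0 : f ≠ 0 := by
    rintro rfl
    rw [map_zero] at hf
    exact hw0 (((isUnit_T (R := ZMod p) (m : ℤ)).mul_left_eq_zero).1 hf.symm)
  have : Module.Finite (ZMod p) (AdjoinRoot f) := (AdjoinRoot.powerBasis hf0).finite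
  have : Finite (AdjoinRoot f) := Module.finite_of_finite (ZMod p)
  obtain ⟨i, j, hij, hEq⟩ := Finite.exists_ne_map_eq_of_infinite
    (fun k : ℕ => (AdjoinRoot.root f) ^ k)
  wlog hlt : i < j generalizing i j
  · exact this j i hij.symm hEq.symm (by omega)
  have hd : f ∣ X ^ j - X ^ i := by
    rw [← AdjoinRoot.mk_eq_zero, map_sub, map_pow, map_pow, AdjoinRoot.mk_X]
    have hEq' : AdjoinRoot.root f ^ i = AdjoinRoot.root f ^ j := hEq
    rw [hEq', sub_self]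
  obtain ⟨v, hv⟩ := hd
  have hv' := congrArg toLaurent hv
  rw [map_sub, toLaurent_X_pow, toLaurent_X_pow, map_mul, hf] at hv'
  obtain ⟨u, hu⟩ := red_surjective p (T (-(i : ℤ)) * (T m * toLaurent v))
  refine ⟨j - i, by omega, u, ?_⟩
  have h2 : red p (T ((j - i : ℕ) : ℤ) - 1 - u * w) = 0 := by
    rw [map_sub, map_sub, map_mul, hu, red_T, map_one]
    have h3 : (T ((j - i : ℕ) : ℤ) : (ZMod p)[T;T⁻¹]) - 1 = T (-(i : ℤ)) * (T j - T i) := by
      rw [mul_sub, ← T_add, ← T_add, neg_add_cancel, T_zero]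
      congr 2
      push_cast [hlt.le]
      ring
    rw [h3, hv']
    ring
  obtain ⟨u', hu'⟩ := (red_eq_zero p _).1 h2
  exact ⟨u', by rw [← hu']; ring⟩

lemma T_sub_one_dvd {a b : ℕ} (h : a ∣ b) :
    (T (a : ℤ) - 1 : ℤ[T;T⁻¹]) ∣ T (b : ℤ) - 1 := by
  obtain ⟨c, rfl⟩ := h
  have : (T ((a * c : ℕ) : ℤ) : ℤ[T;T⁻¹]) = T (a : ℤ) ^ c := by
    rw [T_pow]; congr 1; push_cast; ring
  rw [this]
  exact sub_one_dvd_pow_sub_one _ _

lemma T_sub_T_dvd (a b : ℤ) (D : ℕ) (h : (a - b).natAbs ∣ D) :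
    (T a - T b : ℤ[T;T⁻¹]) ∣ T (D : ℤ) - 1 := by
  refine dvd_trans ?_ (T_sub_one_dvd h)
  rcases le_total b a with hab | hab
  · refine ⟨T (-b), ?_⟩
    rw [sub_mul, ← T_add, ← T_add, add_neg_cancel, T_zero]
    congr 2
    omega
  · refine ⟨-T (-a), ?_⟩
    rw [mul_neg, sub_mul, ← T_add, ← T_add, add_neg_cancel, T_zero, neg_sub]
    congr 2
    omega

lemma remove (N : Ideal ℤ[T;T⁻¹])
    (hp : ∀ p : ℕ, p.Prime → ∃ w : ℤ[T;T⁻¹], ¬ (p : ℤ[T;T⁻¹]) ∣ w ∧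
      ∀ f, (p : ℤ[T;T⁻¹]) * f ∈ N → w * f ∈ N) (e : ℕ) :
    e ≠ 0 → ∀ f, (e : ℤ[T;T⁻¹]) * f ∈ N →
      ∃ n s : ℕ, 1 ≤ n ∧ (T (n : ℤ) - 1) ^ s * f ∈ N := by
  induction e using Nat.recOnMul with
  | zero => intro h; exact absurd rfl h
  | one => intro _ f hf; exact ⟨1, 0, le_rfl, by simpa using hf⟩
  | prime p hpp =>
    intro _ f hf
    obtain ⟨w, hw, hwf⟩ := hp p hpp
    obtain ⟨n, hn, u, u', hu⟩ := exists_dvd p hpp w hw
    refine ⟨n, 1, hn, ?_⟩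
    rw [pow_one, hu]
    have : (u * w + ↑p * u') * f = u * (w * f) + u' * (p * f) := by ring
    rw [this]
    exact N.add_mem (N.mul_mem_left _ (hwf f hf)) (N.mul_mem_left _ hf)
  | mul a b iha ihb =>
    intro hab f hf
    obtain ⟨n, s, hn, h1⟩ := iha (by rintro rfl; simp at hab) ((b : ℤ[T;T⁻¹]) * f)
      (by rw [← mul_assoc]; simpa using hf)
    obtain ⟨n', s', hn', h2⟩ := ihb (by rintro rfl; simp at hab) ((T (n : ℤ) - 1) ^ s * f)
      (by rw [mul_left_comm]; exact h1)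
    refine ⟨n * n', s + s', Nat.mul_pos hn hn', ?_⟩
    obtain ⟨x, hx⟩ := pow_dvd_pow_of_dvd (T_sub_one_dvd (Dvd.intro n' rfl : n ∣ n * n')) s
    obtain ⟨y, hy⟩ := pow_dvd_pow_of_dvd (T_sub_one_dvd (Dvd.intro_left n rfl : n' ∣ n * n')) s'
    rw [pow_add, hx, hy]
    have : (T (n : ℤ) - 1) ^ s * x * ((T (n' : ℤ) - 1) ^ s' * y) * f =
      x * y * ((T (n' : ℤ) - 1) ^ s' * ((T (n : ℤ) - 1) ^ s * f)) := by ring
    rw [this]
    exact N.mul_mem_left _ h2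

lemma lagrange (N : Ideal ℤ[T;T⁻¹]) (hsub : ∀ j : ℕ, 1 ≤ j → ∀ f ∈ N, sub j f ∈ N)
    (f : ℤ[T;T⁻¹]) (hf : f ∈ N) (μ : ℤ) (hμ : μ ∈ f.coeff.support) :
    C (f.coeff μ) * (T μ * ∏ ν ∈ f.coeff.support.erase μ, (T μ - T ν)) ∈ N := by
  classical
  set S := f.coeff.support.erase μ with hS
  set g : ℤ[T;T⁻¹][X] := X * ∏ ν ∈ S, (X - Polynomial.C (T ν)) with hg
  have hg0 : g.coeff 0 = 0 := by simp [hg, Polynomial.mul_coeff_zero]
  have hgμ : g.eval (T μ) = T μ * ∏ ν ∈ S, (T μ - T ν) := by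
    simp [hg, Polynomial.eval_prod]
  have hgν : ∀ ν ∈ S, g.eval (T ν) = 0 := by
    intro ν hν
    rw [hg, Polynomial.eval_mul, Polynomial.eval_prod]
    refine mul_eq_zero_of_right _ (Finset.prod_eq_zero hν ?_)
    simp
  have hfs : f = ∑ ν ∈ f.coeff.support, AddMonoidAlgebra.single ν (f.coeff ν) := by
    ext a
    rw [AddMonoidAlgebra.coeff_sum]
    simp only [AddMonoidAlgebra.coeff_single]
    conv_lhs => rw [← Finsupp.sum_single f.coeff]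
    rfl
  have key : ∑ k ∈ Finset.range (g.natDegree + 1), g.coeff k * sub k f =
      C (f.coeff μ) * (T μ * ∏ ν ∈ S, (T μ - T ν)) := by
    have h1 : ∀ k : ℕ, sub k f = ∑ ν ∈ f.coeff.support, C (f.coeff ν) * T ν ^ k := by
      intro k
      conv_lhs => rw [hfs]
      rw [map_sum]
      exact Finset.sum_congr rfl fun ν _ => sub_single_nat k ν _
    simp_rw [h1, Finset.mul_sum]
    rw [Finset.sum_comm]
    have h2 : ∀ ν ∈ f.coeff.support,
        ∑ k ∈ Finset.range (g.natDegree + 1), g.coeff k * (C (f.coeff ν) * T ν ^ k) =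
          C (f.coeff ν) * g.eval (T ν) := by
      intro ν _
      rw [Polynomial.eval_eq_sum_range, Finset.mul_sum]
      exact Finset.sum_congr rfl fun k _ => by ring
    rw [Finset.sum_congr rfl h2, ← Finset.add_sum_erase _ _ hμ, hgμ]
    rw [Finset.sum_eq_zero, add_zero]
    intro ν hν
    rw [hgν ν hν, mul_zero]
  rw [← key]
  refine N.sum_mem fun k _ => ?_
  rcases Nat.eq_zero_or_pos k with rfl | hk
  · rw [hg0, zero_mul]; exact N.zero_mem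
  · exact N.mul_mem_left _ (hsub k hk f hf)

/-- An ideal of `ℤ[T;T⁻¹]`, non-zero, closed under `T ↦ T^j` and from which every prime can be
removed at the cost of a factor non-zero mod `p`, contains some `(T^n - 1)^s`. -/
theorem core (N : Ideal ℤ[T;T⁻¹]) (hsub : ∀ j : ℕ, 1 ≤ j → ∀ f ∈ N, sub j f ∈ N)
    (h0 : ∃ f ∈ N, f ≠ 0)
    (hp : ∀ p : ℕ, p.Prime → ∃ w : ℤ[T;T⁻¹], ¬ (p : ℤ[T;T⁻¹]) ∣ w ∧
      ∀ f, (p : ℤ[T;T⁻¹]) * f ∈ N → w * f ∈ N) :
    ∃ n s : ℕ, 1 ≤ n ∧ (T (n : ℤ) - 1) ^ s ∈ N := by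
  classical
  obtain ⟨f, hf, hf0⟩ := h0
  have hsupp : f.coeff.support.Nonempty := by
    rw [Finsupp.support_nonempty_iff]
    exact fun h => hf0 (AddMonoidAlgebra.coeff_eq_zero.1 h)
  obtain ⟨μ, hμ⟩ := hsupp
  have h1 := lagrange N hsub f hf μ hμ
  set S := f.coeff.support.erase μ with hS
  set D : ℕ := ∏ ν ∈ S, (μ - ν).natAbs with hD
  have hD1 : 1 ≤ D := by
    refine Nat.one_le_iff_ne_zero.2 (Finset.prod_ne_zero_iff.2 fun ν hν => ?_)
    have : ν ≠ μ := Finset.ne_of_mem_erase hν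
    rw [Ne, Int.natAbs_eq_zero, sub_eq_zero]
    exact fun h => this h.symm
  have h2 : (∏ ν ∈ S, (T μ - T ν) : ℤ[T;T⁻¹]) ∣ (T (D : ℤ) - 1) ^ S.card := by
    rw [← Finset.prod_const]
    exact Finset.prod_dvd_prod_of_dvd _ _ fun ν hν =>
      T_sub_T_dvd μ ν D (Finset.dvd_prod_of_mem _ hν)
  have h3 : C (f.coeff μ) * (T (D : ℤ) - 1) ^ S.card ∈ N := by
    obtain ⟨x, hx⟩ := h2
    rw [hx]
    have h4 : C (f.coeff μ) * ((∏ ν ∈ S, (T μ - T ν)) * x) =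
        T (-μ) * x * (C (f.coeff μ) * (T μ * ∏ ν ∈ S, (T μ - T ν))) := by
      have : (T (-μ) * T μ : ℤ[T;T⁻¹]) = 1 := by rw [← T_add, neg_add_cancel, T_zero]
      calc C (f.coeff μ) * ((∏ ν ∈ S, (T μ - T ν)) * x)
          = (T (-μ) * T μ) * (C (f.coeff μ) * ((∏ ν ∈ S, (T μ - T ν)) * x)) := by
            rw [this, one_mul]
        _ = _ := by ring
    rw [h4]
    exact N.mul_mem_left _ h1
  have hc0 : (f.coeff μ).natAbs ≠ 0 := by
    rw [Ne, Int.natAbs_eq_zero]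
    exact Finsupp.mem_support_iff.1 hμ
  have h5 : (((f.coeff μ).natAbs : ℕ) : ℤ[T;T⁻¹]) * (T (D : ℤ) - 1) ^ S.card ∈ N := by
    rcases Int.natAbs_eq (f.coeff μ) with h | h
    · have : (((f.coeff μ).natAbs : ℕ) : ℤ[T;T⁻¹]) = C (f.coeff μ) := by
        conv_rhs => rw [h]
        simp
      rw [this]; exact h3
    · have : (((f.coeff μ).natAbs : ℕ) : ℤ[T;T⁻¹]) = - C (f.coeff μ) := by
        conv_rhs => rw [h]
        simp
      rw [this, neg_mul]; exact N.neg_mem h3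
  obtain ⟨n, s, hn, h6⟩ := remove N hp _ hc0 _ h5
  refine ⟨n * D, s + S.card, Nat.mul_pos hn hD1, ?_⟩
  obtain ⟨x, hx⟩ := pow_dvd_pow_of_dvd (T_sub_one_dvd (Dvd.intro D rfl : n ∣ n * D)) s
  obtain ⟨y, hy⟩ := pow_dvd_pow_of_dvd (T_sub_one_dvd (Dvd.intro_left n rfl : D ∣ n * D)) S.card
  rw [pow_add, hx, hy]
  have : (T (n : ℤ) - 1) ^ s * x * ((T (D : ℤ) - 1) ^ S.card * y) =
      x * y * ((T (n : ℤ) - 1) ^ s * (T (D : ℤ) - 1) ^ S.card) := by ring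
  rw [this]
  exact N.mul_mem_left _ h6

end Pool.Agent.FGRF.UP
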