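import Mathlib
import Pool.Agent.Lib_helper35.FGRF.Diff
import Pool.Agent.Lib_helper93.FGRF.UPalg

/-!
# Lemma I: a group ring relation from a law not satisfied by `U(R,S)`

Block UP of MP_364ede_al.
-/

set_option autoImplicit false

namespace Pool.Agent.FGRF.UP

open Pool.Agent.FGRF LaurentPolynomial

universe u v w

/-- `⟨T⟩` acts on `ℤ[T;T⁻¹]` -/
noncomputable instance actT : DistribMulAction (Multiplicative ℤ) ℤ[T;T⁻¹] where
  smul n f := T n.toAdd * f
  one_smul f := by change T 0 * f = f; rw [T_zero, one_mul]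
  mul_smul m n f := by
    change T (m.toAdd + n.toAdd) * f = T m.toAdd * (T n.toAdd * f)
    rw [T_add, mul_assoc]
  smul_zero n := mul_zero _
  smul_add n x y := mul_add _ _ _

theorem actT_def (n : Multiplicative ℤ) (f : ℤ[T;T⁻¹]) : n • f = T n.toAdd * f := rfl

/-- the wreath product `ℤ wr ℤ` -/
abbrev GT := SD ℤ[T;T⁻¹] (Multiplicative ℤ)

/-- the group `ℤ wr (ℤ wr ℤ)` -/
abbrev UZ := SD (MonoidAlgebra ℤ GT) GT

/-- reduction mod `p` on `ℤ wr ℤ` -/
noncomputable def redGT (p : ℕ) : GT →* Lamp p :=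
  SD.map (red p).toAddMonoidHom (MonoidHom.id _) (by
    intro g x
    change red p (T g.toAdd * x) = T g.toAdd * red p x
    rw [map_mul, red_T])

theorem map_surj {M Γ M' Γ' : Type*} [AddCommGroup M] [Group Γ] [DistribMulAction Γ M]
    [AddCommGroup M'] [Group Γ'] [DistribMulAction Γ' M'] (φ : M →+ M') (ψ : Γ →* Γ')
    (h : ∀ (g : Γ) (x : M), φ (g • x) = ψ g • φ x) (hφ : Function.Surjective φ)
    (hψ : Function.Surjective ψ) : Function.Surjective (SD.map φ ψ h) := by
  rintro ⟨y, k⟩
  obtain ⟨x, rfl⟩ := hφ y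
  obtain ⟨g, rfl⟩ := hψ k
  exact ⟨⟨x, g⟩, rfl⟩

theorem redGT_surjective (p : ℕ) : Function.Surjective (redGT p) :=
  map_surj _ _ _ (red_surjective p) Function.surjective_id

/-- reduction of the group ring -/
noncomputable def redG (p q : ℕ) :
    MonoidAlgebra ℤ GT →+* MonoidAlgebra (ZMod q) (Lamp p) :=
  (MonoidAlgebra.mapDomainRingHom (ZMod q) (redGT p)).comp
    (MonoidAlgebra.mapRingHom GT (Int.castRingHom (ZMod q)))

theorem redG_single (p q : ℕ) (g : GT) (c : ℤ) :
    redG p q (MonoidAlgebra.single g c) = MonoidAlgebra.single (redGT p g) (c : ZMod q) := by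
  simp [redG]

theorem redG_surjective (p q : ℕ) : Function.Surjective (redG p q) := by
  intro x
  induction x using MonoidAlgebra.induction_linear with
  | zero => exact ⟨0, map_zero _⟩
  | add x y hx hy =>
    obtain ⟨a, ha⟩ := hx
    obtain ⟨b, hb⟩ := hy
    exact ⟨a + b, by rw [map_add, ha, hb]⟩
  | single g c =>
    obtain ⟨g', rfl⟩ := redGT_surjective p g
    obtain ⟨c', rfl⟩ := ZMod.intCast_surjective c
    exact ⟨MonoidAlgebra.single g' c', redG_single p q g' c'⟩

/-- reduction on `U(ℤ,ℤ)` -/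
noncomputable def redU (p q : ℕ) : UZ →* UG p q :=
  SD.map (redG p q).toAddMonoidHom (redGT p) (by
    intro g x
    change redG p q (MonoidAlgebra.single g 1 * x) = MonoidAlgebra.single (redGT p g) 1 * redG p q x
    rw [map_mul, redG_single, Int.cast_one])

theorem redU_surjective (p q : ℕ) : Function.Surjective (redU p q) :=
  map_surj _ _ _ (redG_surjective p q) (redGT_surjective p)

/-- the representation of the group ring of `ℤ wr ℤ` on `M` given by a homomorphism to `H` -/
noncomputable def EE {H : Type u} {M : Type v} [Group H] [AddCommGroup M] [DistribMulAction H M]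
    (ψ : GT →* H) : MonoidAlgebra ℤ GT →ₐ[ℤ] AddMonoid.End M :=
  MonoidAlgebra.lift ℤ (AddMonoid.End M) GT ((DistribMulAction.toAddMonoidEnd H M).comp ψ)

/-- the homomorphism `U(ℤ,ℤ) → M ⋊ H` sending the generator of the module to `m` -/
noncomputable def evU {H : Type u} {M : Type v} [Group H] [AddCommGroup M]
    [DistribMulAction H M] (ψ : GT →* H) (m : M) : UZ →* SD M H :=
  SD.map (AddMonoidHom.mk' (fun ξ => (EE ψ ξ) m) (by
    intro a b
    rw [map_add]; rfl)) ψ (by
    intro g x
    change (EE ψ (MonoidAlgebra.single g 1 * x)) m = ψ g • (EE ψ x) m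
    rw [map_mul]
    change (EE ψ (MonoidAlgebra.single g 1)) ((EE ψ x) m) = ψ g • (EE ψ x) m
    have : EE (M := M) ψ (MonoidAlgebra.single g 1) =
        DistribMulAction.toAddMonoidEnd H M (ψ g) := by
      rw [EE, MonoidAlgebra.lift_single, one_smul]; rfl
    rw [this]; rfl)

/-- Lemma I -/
theorem lemmaI (L : Set (FreeGroup ℕ)) (p q : ℕ) (hq : q ≠ 1)
    (h : ¬ Sat L (UG p q)) :
    ∃ η : MonoidAlgebra ℤ GT, redG p q η ≠ 0 ∧
      ∀ (H : Type u) (M : Type v) [Group H] [AddCommGroup M] [DistribMulAction H M],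
        Sat L (SD M H) → ∀ ψ : GT →* H, EE (M := M) ψ η = 0 := by
  classical
  unfold Sat at h
  push Not at h
  obtain ⟨w, hw, f, hf⟩ := h
  choose g hg using fun n => redU_surjective p q (f n)
  set x : UZ := FreeGroup.lift g w with hx
  have hx1 : redU p q x ≠ 1 := by
    have : (redU p q).comp (FreeGroup.lift g) = FreeGroup.lift f := by ext1 n; simp [hg]
    rw [hx, ← MonoidHom.comp_apply, this]
    exact hf
  have hev : ∀ (H : Type u) (M : Type v) [Group H] [AddCommGroup M] [DistribMulAction H M],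
        Sat L (SD M H) → ∀ (ψ : GT →* H) (m : M), evU ψ m x = 1 := by
    intro H M _ _ _ hV ψ m
    have : (evU ψ m).comp (FreeGroup.lift g) = FreeGroup.lift fun n => evU ψ m (g n) := by
      ext1 n; simp
    rw [hx, ← MonoidHom.comp_apply, this]
    exact hV w hw _
  by_cases hm : redG p q x.m = 0
  · have hh : redGT p x.g ≠ 1 := by
      intro hh
      apply hx1
      refine SD.ext ?_ ?_
      · exact hm
      · exact hh
    refine ⟨MonoidAlgebra.single x.g 1 - 1, ?_, ?_⟩
    · rw [map_sub, map_one, redG_single, Int.cast_one, MonoidAlgebra.one_def, sub_ne_zero]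
      intro h1
      have h2 := congrArg (fun y => y.coeff 1) h1
      simp only [MonoidAlgebra.coeff_single, Finsupp.single_eq_same] at h2
      rw [Finsupp.single_eq_of_ne' hh] at h2
      have : Nontrivial (ZMod q) := ZMod.nontrivial_iff.2 hq
      exact zero_ne_one h2
    · intro H M _ _ _ hV ψ
      have h1 := congrArg SD.g (hev H M hV ψ 0)
      change ψ x.g = 1 at h1
      rw [map_sub, map_one, EE, MonoidAlgebra.lift_single, one_smul]
      change DistribMulAction.toAddMonoidEnd H M (ψ x.g) - 1 = 0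
      rw [h1, map_one, sub_self]
  · refine ⟨x.m, hm, ?_⟩
    intro H M _ _ _ hV ψ
    ext m
    exact congrArg SD.m (hev H M hV ψ m)

end Pool.Agent.FGRF.UP
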