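import Mathlib
import Pool.Agent.Lib_helper93.FGRF.LemmaI

/-!
# Killing the terms of a group ring relation one at a time

Block UP of MP_364ede_al.
-/

set_option autoImplicit false

namespace Pool.Agent.FGRF.UP

open Pool.Agent.FGRF LaurentPolynomial Multiplicative

universe u v w

/-- The situation: `H` acts on `M`, `M ⋊ H` satisfies the laws `L`, `B` is a `ℤ[T;T⁻¹]`-module
mapped into `H` by `ρ`, and `T` is induced by conjugation by `τ`. -/
structure Sit (L : Set (FreeGroup ℕ)) where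
  /-- the module -/
  M : Type v
  /-- the group -/
  H : Type u
  /-- the abelian group of operators -/
  B : Type w
  [gH : Group H]
  [aM : AddCommGroup M]
  [aB : AddCommGroup B]
  [act : DistribMulAction H M]
  [mod : Module ℤ[T;T⁻¹] B]
  /-- the operators -/
  ρ : Multiplicative B →* H
  /-- the normalising element -/
  τ : H
  hτ : ∀ b : B, τ * ρ (ofAdd b) * τ⁻¹ = ρ (ofAdd ((T 1 : ℤ[T;T⁻¹]) • b))
  hV : Sat L (SD M H)

attribute [instance] Sit.gH Sit.aM Sit.aB Sit.act Sit.mod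

namespace Sit

variable {L : Set (FreeGroup ℕ)} (S : Sit.{u, v, w} L)

theorem tau_nat (n : ℕ) (b : S.B) :
    S.τ ^ n * S.ρ (ofAdd b) = S.ρ (ofAdd ((T (n : ℤ) : ℤ[T;T⁻¹]) • b)) * S.τ ^ n := by
  induction n generalizing b with
  | zero => simp
  | succ n ih =>
    have h1 : S.τ * S.ρ (ofAdd b) = S.ρ (ofAdd ((T 1 : ℤ[T;T⁻¹]) • b)) * S.τ := by
      rw [← S.hτ b]; group
    rw [pow_succ, mul_assoc, h1, ← mul_assoc, ih, smul_smul, ← T_add, mul_assoc]
    push_cast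
    rfl

theorem tau_zpow (k : ℤ) (b : S.B) :
    S.τ ^ k * S.ρ (ofAdd b) = S.ρ (ofAdd ((T k : ℤ[T;T⁻¹]) • b)) * S.τ ^ k := by
  obtain ⟨n, rfl | rfl⟩ := k.eq_nat_or_neg
  · simpa using S.tau_nat n b
  · have h := S.tau_nat n ((T (-(n : ℤ)) : ℤ[T;T⁻¹]) • b)
    rw [smul_smul, ← T_add, add_neg_cancel, T_zero, one_smul] at h
    rw [zpow_neg, zpow_natCast, inv_mul_eq_iff_eq_mul, ← mul_assoc, h, mul_inv_cancel_right]

/-- the homomorphism `ℤ wr ℤ → H` given by `b : B` and `τ ^ j` -/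
noncomputable def psi (j : ℕ) (b : S.B) : GT →* S.H where
  toFun s := S.ρ (ofAdd (sub j s.m • b)) * S.τ ^ ((j : ℤ) * s.g.toAdd)
  map_one' := by simp
  map_mul' s t := by
    have h1 : sub j (s * t).m = sub j s.m + T ((j : ℤ) * s.g.toAdd) * sub j t.m := by
      rw [SD.mul_m, actT_def, map_add, map_mul]
      congr 2
      have := sub_single_nat j s.g.toAdd 1
      rw [map_one, one_mul, T_pow] at this
      exact this
    rw [h1, SD.mul_g, toAdd_mul, mul_add, zpow_add, add_smul, ofAdd_add, map_mul, mul_smul,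
      mul_assoc, ← mul_assoc (S.ρ (ofAdd ((T ((j : ℤ) * s.g.toAdd) : ℤ[T;T⁻¹]) • sub j t.m • b))),
      ← S.tau_zpow]
    simp only [mul_assoc]

/-- the representation of `H` -/
def θ : S.H →* AddMonoid.End S.M := DistribMulAction.toAddMonoidEnd S.H S.M

/-- the group ring of `B` -/
abbrev R := AddMonoidAlgebra ℤ S.B

/-- the representation of the group ring of `B` -/
noncomputable def σ : S.R →ₐ[ℤ] AddMonoid.End S.M :=
  AddMonoidAlgebra.lift ℤ (AddMonoid.End S.M) S.B (S.θ.comp S.ρ)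

/-- the group element `b` in the group ring -/
noncomputable def e (b : S.B) : S.R := AddMonoidAlgebra.single b 1

theorem e_add (a b : S.B) : S.e (a + b) = S.e a * S.e b := by
  rw [e, e, e, AddMonoidAlgebra.single_mul_single, one_mul]

theorem e_zero : S.e 0 = 1 := rfl

theorem e_sub (a b : S.B) : S.e a = S.e b * S.e (a - b) := by
  rw [← e_add, add_sub_cancel]

theorem σ_e (b : S.B) : S.σ (S.e b) = S.θ (S.ρ (ofAdd b)) := by
  rw [σ, e, AddMonoidAlgebra.lift_single, one_smul]; rfl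

/-- the annihilator of `M` in the group ring of `B` -/
noncomputable def ann : Ideal S.R := RingHom.ker S.σ

theorem mem_ann (x : S.R) : x ∈ S.ann ↔ S.σ x = 0 := Iff.rfl

/-- the augmentation ideal of `f B` -/
noncomputable def I (f : ℤ[T;T⁻¹]) : Ideal S.R :=
  Ideal.span (Set.range fun b : S.B => S.e (f • b) - 1)

theorem e_sub_one_mem (f : ℤ[T;T⁻¹]) (b : S.B) : S.e (f • b) - 1 ∈ S.I f :=
  Ideal.subset_span ⟨b, rfl⟩

theorem I_mul_le (f g : ℤ[T;T⁻¹]) : S.I (f * g) ≤ S.I f := by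
  refine Ideal.span_le.2 ?_
  rintro _ ⟨b, rfl⟩
  change S.e ((f * g) • b) - 1 ∈ S.I f
  rw [mul_smul]
  exact S.e_sub_one_mem f _

theorem I_add_le (f g : ℤ[T;T⁻¹]) : S.I (f + g) ≤ S.I f ⊔ S.I g := by
  refine Ideal.span_le.2 ?_
  rintro _ ⟨b, rfl⟩
  change S.e ((f + g) • b) - 1 ∈ S.I f ⊔ S.I g
  rw [add_smul, e_add]
  have : S.e (f • b) * S.e (g • b) - 1 = S.e (g • b) * (S.e (f • b) - 1) + (S.e (g • b) - 1) := by
    ring
  rw [this]
  exact Ideal.add_mem _ (Ideal.mul_mem_left _ _ (Ideal.mem_sup_left (S.e_sub_one_mem f b)))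
    (Ideal.mem_sup_right (S.e_sub_one_mem g b))

theorem I_zero : S.I 0 = ⊥ := by
  refine le_bot_iff.1 (Ideal.span_le.2 ?_)
  rintro _ ⟨b, rfl⟩
  change S.e ((0 : ℤ[T;T⁻¹]) • b) - 1 ∈ (⊥ : Ideal S.R)
  rw [zero_smul, e_zero, sub_self]
  exact Ideal.zero_mem _

variable (η : MonoidAlgebra ℤ GT) (j : ℕ) (f : ℤ[T;T⁻¹])

/-- the operator given by a family of elements of the group ring of `B` -/
noncomputable def Phi (x : GT → S.R) : AddMonoid.End S.M :=
  ∑ s ∈ η.coeff.support, η.coeff s • (S.σ (x s) * S.θ (S.τ ^ ((j : ℤ) * s.g.toAdd)))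

theorem Phi_left (x : GT → S.R) (r : S.R) :
    S.Phi η j (fun s => r * x s) = S.σ r * S.Phi η j x := by
  rw [Phi, Phi, Finset.mul_sum]
  refine Finset.sum_congr rfl fun s _ => ?_
  rw [map_mul, mul_smul_comm, mul_assoc]

theorem Phi_sub (x y : GT → S.R) :
    S.Phi η j (fun s => x s - y s) = S.Phi η j x - S.Phi η j y := by
  rw [Phi, Phi, Phi, ← Finset.sum_sub_distrib]
  refine Finset.sum_congr rfl fun s _ => ?_
  rw [map_sub, sub_mul, zsmul_eq_mul, zsmul_eq_mul, zsmul_eq_mul, mul_sub]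

theorem Phi_conj (x : GT → S.R) (g : S.B) :
    S.Phi η j (fun s => S.e (g - (T ((j : ℤ) * s.g.toAdd) : ℤ[T;T⁻¹]) • g) * x s) =
      S.θ (S.ρ (ofAdd g)) * S.Phi η j x * S.θ (S.ρ (ofAdd (-g))) := by
  rw [Phi, Phi, Finset.mul_sum, Finset.sum_mul]
  refine Finset.sum_congr rfl fun s _ => ?_
  rw [mul_smul_comm, smul_mul_assoc]
  congr 1
  have h1 : S.θ (S.τ ^ ((j : ℤ) * s.g.toAdd)) * S.θ (S.ρ (ofAdd (-g))) =
      S.σ (S.e (-((T ((j : ℤ) * s.g.toAdd) : ℤ[T;T⁻¹]) • g))) *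
        S.θ (S.τ ^ ((j : ℤ) * s.g.toAdd)) := by
    rw [← map_mul, S.tau_zpow, smul_neg, σ_e, map_mul]
  rw [mul_assoc (S.θ (S.ρ (ofAdd g))), mul_assoc (S.σ (x s)), h1, ← σ_e, ← mul_assoc (S.σ (x s)),
    ← mul_assoc, ← map_mul, ← map_mul, sub_eq_add_neg, e_add]
  congr 2
  ring

/-- the families that kill the relation for all `a` -/
def KF (x : GT → S.R) : Prop :=
  ∀ a : S.B, S.Phi η j (fun s => S.e ((sub j s.m * f) • a) * x s) = 0

variable {η}

theorem KF_one (hη : ∀ ψ : GT →* S.H, EE (M := S.M) ψ η = 0) :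
    S.KF η j f (fun _ => 1) := by
  intro a
  rw [← hη (S.psi j (f • a)), EE, MonoidAlgebra.lift_apply, Phi]
  refine Finset.sum_congr rfl fun s _ => ?_
  rw [mul_one, σ_e, mul_smul]
  congr 1
  rw [← map_mul]
  rfl

variable {j f}

theorem KF_stepv {x : GT → S.R} (hx : S.KF η j f x) (g : S.B) (r : S.R) :
    S.KF η j f (fun s => (S.e ((sub j s.m * f) • g) - r) * x s) := by
  intro a
  have h1 := hx (a + g)
  have h2 := S.Phi_left η j (fun s => S.e ((sub j s.m * f) • a) * x s) r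
  rw [hx a, mul_zero] at h2
  have h3 := S.Phi_sub η j (fun s => S.e ((sub j s.m * f) • (a + g)) * x s)
    (fun s => r * (S.e ((sub j s.m * f) • a) * x s))
  rw [h1, h2, sub_zero] at h3
  rw [← h3]
  congr 1
  funext s
  rw [smul_add, e_add]
  ring

theorem KF_stepj {x : GT → S.R} (hx : S.KF η j f x) (g : S.B) (r : S.R) :
    S.KF η j f
      (fun s => (S.e (g - (T ((j : ℤ) * s.g.toAdd) : ℤ[T;T⁻¹]) • g) - r) * x s) := by
  intro a
  have h1 := S.Phi_conj η j (fun s => S.e ((sub j s.m * f) • a) * x s) g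
  rw [hx a, mul_zero, zero_mul] at h1
  have h2 := S.Phi_left η j (fun s => S.e ((sub j s.m * f) • a) * x s) r
  rw [hx a, mul_zero] at h2
  have h3 := S.Phi_sub η j
    (fun s => S.e (g - (T ((j : ℤ) * s.g.toAdd) : ℤ[T;T⁻¹]) • g) *
      (S.e ((sub j s.m * f) • a) * x s))
    (fun s => r * (S.e ((sub j s.m * f) • a) * x s))
  rw [h1, h2, sub_zero] at h3
  rw [← h3]
  congr 1
  funext s
  ring

variable (j f)

open Classical in
/-- the factor killing the term `t`, the term `s₀` being isolated -/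
noncomputable def kf (s₀ t : GT) (g : S.B) (s : GT) : S.R :=
  if t.g = s₀.g then S.e ((sub j s.m * f) • g) - S.e ((sub j t.m * f) • g)
  else S.e (f • g - (T ((j : ℤ) * s.g.toAdd) : ℤ[T;T⁻¹]) • f • g) -
    S.e (f • g - (T ((j : ℤ) * t.g.toAdd) : ℤ[T;T⁻¹]) • f • g)

theorem kf_self (s₀ t : GT) (g : S.B) : S.kf j f s₀ t g t = 0 := by
  unfold kf
  split_ifs <;> exact sub_self _

theorem KF_prod (hη : ∀ ψ : GT →* S.H, EE (M := S.M) ψ η = 0) (s₀ : GT)
    (F : Finset GT) (g : GT → S.B) :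
    S.KF η j f (fun s => ∏ t ∈ F, S.kf j f s₀ t (g t) s) := by
  classical
  induction F using Finset.induction_on with
  | empty => simpa using S.KF_one j f hη
  | insert t F ht ih =>
    simp_rw [Finset.prod_insert ht]
    unfold kf
    by_cases h : t.g = s₀.g
    · simp only [if_pos h]
      exact S.KF_stepv ih (g t) _
    · simp only [if_neg h]
      exact S.KF_stepj ih (f • g t) _

open Classical in
/-- the polynomial attached to the killed term `t` -/
noncomputable def ww (s₀ t : GT) : ℤ[T;T⁻¹] :=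
  if t.g = s₀.g then s₀.m - t.m else T t.g.toAdd - T s₀.g.toAdd

theorem sub_T' (k : ℤ) : sub j (T k) = T ((j : ℤ) * k) := by
  have := sub_single_nat j k 1
  rw [map_one, one_mul, T_pow] at this
  exact this

theorem kf_base (s₀ t : GT) (g : S.B) :
    ∃ u : S.B, S.kf j f s₀ t g s₀ = S.e u * (S.e ((sub j (ww s₀ t) * f) • g) - 1) := by
  unfold kf ww
  split_ifs with h
  · refine ⟨(sub j t.m * f) • g, ?_⟩
    rw [mul_sub, mul_one, ← e_add, ← add_smul, map_sub]
    congr 3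
    ring
  · refine ⟨f • g - (T ((j : ℤ) * t.g.toAdd) : ℤ[T;T⁻¹]) • f • g, ?_⟩
    rw [mul_sub, mul_one, ← e_add, map_sub, sub_T', sub_T', mul_smul, sub_smul]
    congr 2
    abel

theorem kf_congr (p : ℕ) (s₀ t s : GT) (g : S.B) (hh : s.g = s₀.g)
    (hm : (p : ℤ[T;T⁻¹]) ∣ s.m - s₀.m) :
    Ideal.Quotient.mk (S.I (p * f)) (S.kf j f s₀ t g s) =
      Ideal.Quotient.mk (S.I (p * f)) (S.kf j f s₀ t g s₀) := by
  unfold kf
  split_ifs with h
  · rw [map_sub, map_sub]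
    congr 1
    obtain ⟨c, hc⟩ := hm
    have h1 : (sub j s.m * f) • g = (sub j s₀.m * f) • g + ((p : ℤ[T;T⁻¹]) * f) • (sub j c) • g := by
      rw [← mul_smul, ← add_smul]
      congr 1
      have : s.m = s₀.m + p * c := by rw [← hc]; ring
      rw [this, map_add, map_mul, map_natCast]
      ring
    rw [h1, e_add, map_mul]
    have h2 : Ideal.Quotient.mk (S.I (p * f)) (S.e (((p : ℤ[T;T⁻¹]) * f) • (sub j c) • g)) = 1 := by
      rw [← map_one (Ideal.Quotient.mk (S.I (p * f))), Ideal.Quotient.eq]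
      exact S.e_sub_one_mem _ _
    rw [h2, mul_one]
  · rw [hh]

open Classical in
/-- the terms of `η` equivalent to `s₀` -/
noncomputable def cls (η : MonoidAlgebra ℤ GT) (p : ℕ) (s₀ : GT) : Finset GT :=
  η.coeff.support.filter fun s : GT => s.g = s₀.g ∧ (p : ℤ[T;T⁻¹]) ∣ s.m - s₀.m

theorem mem_cls (η : MonoidAlgebra ℤ GT) (p : ℕ) (s₀ s : GT) :
    s ∈ cls η p s₀ ↔ s ∈ η.coeff.support ∧ s.g = s₀.g ∧ (p : ℤ[T;T⁻¹]) ∣ s.m - s₀.m := by
  classical
  simp only [cls, Finset.mem_filter]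

open Classical in
/-- the terms of `η` not equivalent to `s₀` -/
noncomputable def oth (η : MonoidAlgebra ℤ GT) (p : ℕ) (s₀ : GT) : Finset GT :=
  η.coeff.support \ cls η p s₀

theorem kill_aux (hη : ∀ ψ : GT →* S.H, EE (M := S.M) ψ η = 0) (p : ℕ) (s₀ : GT)
    (g : GT → S.B) :
    ((∑ s ∈ cls η p s₀, η.coeff s : ℤ) : S.R) *
      ∏ t ∈ oth η p s₀, (S.e ((sub j (ww s₀ t) * f) • g t) - 1) ∈ S.I (p * f) ⊔ S.ann := by
  classical
  set F := oth η p s₀ with hF
  set x : GT → S.R := fun s => ∏ t ∈ F, S.kf j f s₀ t (g t) s with hx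
  have h1 := S.KF_prod j f hη s₀ F g 0
  have h0 : S.Phi η j x = 0 := by
    rw [← h1]
    congr 1
    funext s
    rw [smul_zero, e_zero, one_mul]
  have hsplit : S.Phi η j x = S.σ (∑ s ∈ cls η p s₀, (η.coeff s : S.R) * x s) *
      S.θ (S.τ ^ ((j : ℤ) * s₀.g.toAdd)) := by
    have hsub : cls η p s₀ ⊆ η.coeff.support := fun s hs => ((mem_cls _ _ _ _).1 hs).1
    rw [Phi, ← Finset.sum_subset hsub]
    · rw [map_sum, Finset.sum_mul]
      refine Finset.sum_congr rfl fun s hs => ?_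
      rw [map_mul, map_intCast, mul_assoc, zsmul_eq_mul, ((mem_cls _ _ _ _).1 hs).2.1]
    · intro s hs hs'
      have hsF : s ∈ F := Finset.mem_sdiff.2 ⟨hs, hs'⟩
      have : x s = 0 := Finset.prod_eq_zero hsF (S.kf_self j f s₀ s (g s))
      rw [this, map_zero, zero_mul, zsmul_eq_mul, mul_zero]
  have h2 : S.σ (∑ s ∈ cls η p s₀, (η.coeff s : S.R) * x s) = 0 := by
    rw [h0] at hsplit
    have h3 := congrArg (fun y => y * S.θ (S.τ ^ (-((j : ℤ) * s₀.g.toAdd)))) hsplit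
    simp only [zero_mul, mul_assoc] at h3
    rw [← map_mul, ← zpow_add, add_neg_cancel, zpow_zero, map_one, mul_one] at h3
    exact h3.symm
  have h3 : (∑ s ∈ cls η p s₀, (η.coeff s : S.R) * x s) -
      ((∑ s ∈ cls η p s₀, η.coeff s : ℤ) : S.R) * x s₀ ∈ S.I (p * f) := by
    rw [← Ideal.Quotient.eq, map_sum, map_mul, map_intCast, Int.cast_sum, Finset.sum_mul]
    refine Finset.sum_congr rfl fun s hs => ?_
    rw [map_mul, map_intCast]
    congr 1
    obtain ⟨-, hg, hm⟩ := (mem_cls _ _ _ _).1 hs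
    rw [hx, map_prod, map_prod]
    exact Finset.prod_congr rfl fun t _ => S.kf_congr j f p s₀ t s (g t) hg hm
  have h4 : ((∑ s ∈ cls η p s₀, η.coeff s : ℤ) : S.R) * x s₀ ∈ S.I (p * f) ⊔ S.ann := by
    have h5 : ((∑ s ∈ cls η p s₀, η.coeff s : ℤ) : S.R) * x s₀ =
        (∑ s ∈ cls η p s₀, (η.coeff s : S.R) * x s) -
        ((∑ s ∈ cls η p s₀, (η.coeff s : S.R) * x s) -
          ((∑ s ∈ cls η p s₀, η.coeff s : ℤ) : S.R) * x s₀) := by ring
    rw [h5]
    exact Ideal.sub_mem _ (Ideal.mem_sup_right h2) (Ideal.mem_sup_left h3)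
  choose u hu using fun t => S.kf_base j f s₀ t (g t)
  have h6 : ((∑ s ∈ cls η p s₀, η.coeff s : ℤ) : S.R) *
      ∏ t ∈ F, (S.e ((sub j (ww s₀ t) * f) • g t) - 1) =
      (∏ t ∈ F, S.e (- u t)) * (((∑ s ∈ cls η p s₀, η.coeff s : ℤ) : S.R) * x s₀) := by
    rw [hx]
    simp only
    rw [Finset.prod_congr rfl fun t _ => hu t, Finset.prod_mul_distrib]
    have h7 : (∏ t ∈ F, S.e (- u t)) * ∏ t ∈ F, S.e (u t) = 1 := by
      rw [← Finset.prod_mul_distrib]
      refine Finset.prod_eq_one fun t _ => ?_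
      rw [← e_add, neg_add_cancel, e_zero]
    calc _ = ((∏ t ∈ F, S.e (- u t)) * ∏ t ∈ F, S.e (u t)) *
          (((∑ s ∈ cls η p s₀, η.coeff s : ℤ) : S.R) *
            ∏ t ∈ F, (S.e ((sub j (ww s₀ t) * f) • g t) - 1)) := by rw [h7, one_mul]
      _ = _ := by ring
  rw [h6]
  exact Ideal.mul_mem_left _ _ h4

theorem prod_mem_aux (J : Ideal S.R) (c : S.R) (f : ℤ[T;T⁻¹]) (K : ℕ)
    (h : ∀ g : Fin K → S.B, c * ∏ i, (S.e (f • g i) - 1) ∈ J) :
    ∀ x ∈ S.I f ^ K, c * x ∈ J := by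
  intro x hx
  rw [I, Ideal.span, Submodule.span_pow] at hx
  induction hx using Submodule.span_induction with
  | mem x hx =>
    obtain ⟨y, hy⟩ := Set.mem_pow.1 hx
    rw [List.prod_ofFn] at hy
    choose g hg using fun i => (y i).2
    rw [← hy]
    convert h g using 3 with i
    exact (hg i).symm
  | zero => rw [mul_zero]; exact J.zero_mem
  | add x y _ _ hx hy => rw [mul_add]; exact J.add_mem hx hy
  | smul a x _ hx => rw [smul_eq_mul, mul_left_comm]; exact J.mul_mem_left _ hx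

/-- the coefficient `c` of an isolated class of terms of `η` satisfies
`c I(w f)^K ⊆ I(p f) + Ann M`. -/
theorem kill_one (hη : ∀ ψ : GT →* S.H, EE (M := S.M) ψ η = 0) (p : ℕ) (s₀ : GT) :
    ∀ x ∈ S.I (sub j (∏ t ∈ oth η p s₀, ww s₀ t) * f) ^ (oth η p s₀).card,
      ((∑ s ∈ cls η p s₀, η.coeff s : ℤ) : S.R) * x ∈ S.I (p * f) ⊔ S.ann := by
  classical
  set F := oth η p s₀ with hF
  refine S.prod_mem_aux _ _ _ _ fun g => ?_
  have hcard : Fintype.card F = F.card := Fintype.card_coe F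
  let eqv : F ≃ Fin F.card := F.equivFin
  let g' : GT → S.B := fun t => if h : t ∈ F then
    sub j (∏ t' ∈ F.erase t, ww s₀ t') • g (eqv ⟨t, h⟩) else 0
  have h1 := S.kill_aux j f hη p s₀ g'
  have h2 : ∏ t ∈ F, (S.e ((sub j (ww s₀ t) * f) • g' t) - 1) =
      ∏ i, (S.e ((sub j (∏ t ∈ F, ww s₀ t) * f) • g i) - 1) := by
    rw [← Finset.prod_coe_sort]
    refine Fintype.prod_equiv eqv _ _ fun t => ?_
    have h3 : g' t.1 = sub j (∏ t' ∈ F.erase t.1, ww s₀ t') • g (eqv t) := dif_pos t.2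
    rw [h3, smul_smul, ← Finset.mul_prod_erase F _ t.2, map_mul]
    congr 3
    ring
  rw [← h2]
  exact h1

end Sit

theorem red_ww_ne_zero (p : ℕ) (hp : p ≠ 1) (s₀ t : GT)
    (h : ¬ (t.g = s₀.g ∧ (p : ℤ[T;T⁻¹]) ∣ t.m - s₀.m)) : red p (Sit.ww s₀ t) ≠ 0 := by
  unfold Sit.ww
  split_ifs with hg
  · rw [Ne, red_eq_zero]
    intro hd
    exact h ⟨hg, by rw [← neg_sub]; exact (dvd_neg).2 hd⟩
  · rw [map_sub, red_T, red_T, sub_ne_zero]
    intro h1
    have h2 := congrArg (fun y => y.coeff t.g.toAdd) h1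
    simp only [T_apply, if_true] at h2
    rw [if_neg (fun h => hg (Multiplicative.toAdd.injective h.symm))] at h2
    have : Nontrivial (ZMod p) := ZMod.nontrivial_iff.2 hp
    exact one_ne_zero h2

instance (p : ℕ) [hp : Fact p.Prime] : IsDomain (ZMod p)[T;T⁻¹] := inferInstance

end Pool.Agent.FGRF.UP
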