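import Mathlib
import Pool.Agent.Lib_helper93.FGRF.Kill

/-!
# The relation ideal

Block UP of MP_364ede_al: for a set of laws `L` satisfied by no `U(p,q)` there are `n, s, K` such
that the `K`-th power of the augmentation ideal of `(T^n-1)^s B` annihilates `M` in every
situation `Sit L`.
-/

set_option autoImplicit false

namespace Pool.Agent.FGRF.UP

open Pool.Agent.FGRF LaurentPolynomial Multiplicative Sit

universe u v w

theorem redGT_eq (p : ℕ) (s t : GT) :
    redGT p s = redGT p t ↔ s.g = t.g ∧ (p : ℤ[T;T⁻¹]) ∣ s.m - t.m := by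
  rw [← red_eq_zero, map_sub, sub_eq_zero]
  constructor
  · intro h
    exact ⟨congrArg (fun x : Lamp p => x.g) h, congrArg (fun x : Lamp p => x.m) h⟩
  · rintro ⟨h1, h2⟩
    exact SD.ext h2 h1

theorem redG_eq_sum (p q : ℕ) (η : MonoidAlgebra ℤ GT) :
    redG p q η = ∑ s ∈ η.coeff.support, MonoidAlgebra.single (redGT p s) (η.coeff s : ZMod q) := by
  conv_lhs => rw [← MonoidAlgebra.sum_coeff_single η]
  rw [Finsupp.sum, map_sum]
  exact Finset.sum_congr rfl fun s _ => redG_single p q s _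

theorem exists_cls (p q : ℕ) (η : MonoidAlgebra ℤ GT) (h : redG p q η ≠ 0) :
    ∃ s₀ : GT, ((∑ s ∈ cls η p s₀, η.coeff s : ℤ) : ZMod q) ≠ 0 := by
  classical
  by_contra hcon
  push Not at hcon
  apply h
  ext g
  rw [redG_eq_sum, MonoidAlgebra.coeff_sum]
  simp only [MonoidAlgebra.coeff_single, MonoidAlgebra.coeff_zero, Finsupp.coe_zero, Pi.zero_apply,
    Finsupp.coe_finsetSum, Finset.sum_apply]
  by_cases hg : ∃ s₀ : GT, redGT p s₀ = g
  · obtain ⟨s₀, rfl⟩ := hg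
    rw [← hcon s₀, Int.cast_sum]
    have hsub : cls η p s₀ ⊆ η.coeff.support := fun s hs => ((mem_cls _ _ _ _).1 hs).1
    rw [← Finset.sum_subset hsub]
    · refine Finset.sum_congr rfl fun s hs => ?_
      rw [(redGT_eq p s s₀).2 ((mem_cls _ _ _ _).1 hs).2, Finsupp.single_eq_same]
    · intro s hs hs'
      rw [Finsupp.single_eq_of_ne]
      intro h1
      exact hs' ((mem_cls _ _ _ _).2 ⟨hs, (redGT_eq p s s₀).1 h1.symm⟩)
  · refine Finset.sum_eq_zero fun s _ => ?_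
    rw [Finsupp.single_eq_of_ne]
    exact fun h1 => hg ⟨s, h1.symm⟩

theorem exists_cls_zero (p q : ℕ) (η : MonoidAlgebra ℤ GT) (h : redG p q η ≠ 0) :
    ∃ s₀ : GT, ((∑ s ∈ cls η 0 s₀, η.coeff s : ℤ) : ZMod q) ≠ 0 := by
  classical
  by_contra hcon
  push Not at hcon
  apply h
  rw [redG_eq_sum]
  refine Finset.sum_eq_zero fun s hs => ?_
  have h1 : cls η 0 s = {s} := by
    ext t
    rw [mem_cls, Finset.mem_singleton]
    constructor
    · rintro ⟨-, h2, h3⟩
      rw [Nat.cast_zero, zero_dvd_iff, sub_eq_zero] at h3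
      exact SD.ext h3 h2
    · rintro rfl
      exact ⟨hs, rfl, by rw [sub_self]; exact dvd_zero _⟩
  have h2 := hcon s
  rw [h1, Finset.sum_singleton] at h2
  rw [h2, MonoidAlgebra.single_zero]

/-- all `p`, prime or zero: the relation `I(W(T^j) f)^K ⊆ I(p f) + Ann M` -/
theorem rel (L : Set (FreeGroup ℕ)) (hU : ∀ p q : ℕ, p.Prime → q.Prime → ¬ Sat L (UG p q))
    (p : ℕ) (hp : p = 0 ∨ p.Prime) :
    ∃ (W : ℤ[T;T⁻¹]) (K : ℕ), red p W ≠ 0 ∧
      ∀ (S : Sit.{u, v, w} L) (j : ℕ) (f : ℤ[T;T⁻¹]),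
        S.I (sub j W * f) ^ K ≤ S.I (p * f) ⊔ S.ann := by
  classical
  have hdom : IsDomain (ZMod p) := by
    rcases hp with rfl | hp
    · exact (inferInstance : IsDomain ℤ)
    · have := Fact.mk hp
      infer_instance
  have hdomL : IsDomain (ZMod p)[T;T⁻¹] := inferInstance
  have hp1 : p ≠ 1 := by
    rcases hp with rfl | hp
    · norm_num
    · exact hp.one_lt.ne'
  let J : Ideal ℤ :=
    { carrier := {c | ∃ (W : ℤ[T;T⁻¹]) (K : ℕ), red p W ≠ 0 ∧
        ∀ (S : Sit.{u, v, w} L) (j : ℕ) (f : ℤ[T;T⁻¹]),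
          ∀ x ∈ S.I (sub j W * f) ^ K, (c : S.R) * x ∈ S.I (p * f) ⊔ S.ann}
      zero_mem' := ⟨1, 0, by rw [map_one]; exact one_ne_zero, fun S j f x _ => by
        rw [Int.cast_zero, zero_mul]; exact Ideal.zero_mem _⟩
      add_mem' := by
        rintro c c' ⟨W, K, hW, h⟩ ⟨W', K', hW', h'⟩
        refine ⟨W * W', K + K', by rw [map_mul]; exact mul_ne_zero hW hW', ?_⟩
        intro S j f x hx
        have e1 : S.I (sub j (W * W') * f) ≤ S.I (sub j W * f) := by
          rw [map_mul, show sub j W * sub j W' * f = (sub j W * f) * sub j W' by ring]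
          exact S.I_mul_le _ _
        have e2 : S.I (sub j (W * W') * f) ≤ S.I (sub j W' * f) := by
          rw [map_mul, show sub j W * sub j W' * f = (sub j W' * f) * sub j W by ring]
          exact S.I_mul_le _ _
        rw [Int.cast_add, add_mul]
        refine Ideal.add_mem _ (h S j f x ?_) (h' S j f x ?_)
        · exact (Ideal.pow_right_mono e1 K) (Ideal.pow_le_pow_right (Nat.le_add_right K K') hx)
        · exact (Ideal.pow_right_mono e2 K') (Ideal.pow_le_pow_right (Nat.le_add_left K' K) hx)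
      smul_mem' := by
        rintro a c ⟨W, K, hW, h⟩
        refine ⟨W, K, hW, ?_⟩
        intro S j f x hx
        rw [smul_eq_mul, Int.cast_mul, mul_assoc]
        exact Ideal.mul_mem_left _ _ (h S j f x hx) }
  have hJ : ∀ q : ℕ, q.Prime → ∃ c ∈ J, ¬ (q : ℤ) ∣ c := by
    intro q hq
    obtain ⟨s₀, η, hs₀, hη⟩ : ∃ (s₀ : GT) (η : MonoidAlgebra ℤ GT),
        ((∑ s ∈ cls η p s₀, η.coeff s : ℤ) : ZMod q) ≠ 0 ∧
        ∀ (H : Type u) (M : Type v) [Group H] [AddCommGroup M] [DistribMulAction H M],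
          Sat L (SD M H) → ∀ ψ : GT →* H, EE (M := M) ψ η = 0 := by
      rcases hp with rfl | hp
      · obtain ⟨η, h1, h2⟩ := lemmaI.{u, v} L 2 q hq.one_lt.ne' (hU 2 q Nat.prime_two hq)
        obtain ⟨s₀, hs₀⟩ := exists_cls_zero 2 q η h1
        exact ⟨s₀, η, hs₀, h2⟩
      · obtain ⟨η, h1, h2⟩ := lemmaI.{u, v} L p q hq.one_lt.ne' (hU p q hp hq)
        obtain ⟨s₀, hs₀⟩ := exists_cls p q η h1
        exact ⟨s₀, η, hs₀, h2⟩
    refine ⟨∑ s ∈ cls η p s₀, η.coeff s, ⟨∏ t ∈ oth η p s₀, Sit.ww s₀ t, (oth η p s₀).card, ?_, ?_⟩,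
      ?_⟩
    · rw [map_prod]
      refine Finset.prod_ne_zero_iff.2 fun t ht => red_ww_ne_zero p hp1 s₀ t fun hcon => ?_
      rw [oth, Finset.mem_sdiff] at ht
      exact ht.2 ((mem_cls _ _ _ _).2 ⟨ht.1, hcon⟩)
    · intro S j f
      exact S.kill_one j f (hη S.H S.M S.hV) p s₀
    · intro hd
      exact hs₀ ((ZMod.intCast_zmod_eq_zero_iff_dvd _ _).2 hd)
  have h1 : (1 : ℤ) ∈ J := by
    obtain ⟨d, hd⟩ := (inferInstance : J.IsPrincipal)
    have hdu : d.natAbs = 1 := by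
      by_contra hne
      obtain ⟨q, hq, hqd⟩ := Nat.exists_prime_and_dvd hne
      obtain ⟨c, hc, hqc⟩ := hJ q hq
      rw [hd] at hc
      obtain ⟨a, rfl⟩ := Submodule.mem_span_singleton.1 hc
      exact hqc ((Int.natCast_dvd.2 hqd).mul_left a)
    rw [hd]
    refine Submodule.mem_span_singleton.2 ?_
    rcases Int.natAbs_eq d with h | h
    · exact ⟨1, by rw [h, hdu]; rfl⟩
    · exact ⟨-1, by rw [h, hdu]; rfl⟩
  obtain ⟨W, K, hW, h⟩ := h1
  refine ⟨W, K, hW, ?_⟩
  intro S j f x hx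
  have := h S j f x hx
  rwa [Int.cast_one, one_mul] at this

theorem sub_sub' (i j : ℕ) (f : ℤ[T;T⁻¹]) : sub i (sub j f) = sub ((i * j : ℕ) : ℤ) f := by
  induction f using AddMonoidAlgebra.induction_linear with
  | zero => simp
  | add x y hx hy => rw [map_add, map_add, map_add, hx, hy]
  | single m c =>
    rw [sub_single_nat, map_mul, map_pow, sub_single_nat]
    have h1 : sub i (C c) = C c := by
      have := sub_single_nat i 0 c
      rw [T_zero, one_pow, mul_one] at this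
      exact this
    have h2 : sub i (T m) = T m ^ i := by
      have := sub_single_nat i m 1
      rw [map_one, one_mul] at this
      exact this
    rw [h1, h2, ← pow_mul]

theorem sub_one' (f : ℤ[T;T⁻¹]) : sub ((1 : ℕ) : ℤ) f = f := by
  induction f using AddMonoidAlgebra.induction_linear with
  | zero => simp
  | add x y hx hy => rw [map_add, hx, hy]
  | single m c =>
    rw [sub_single_nat, pow_one, ← single_eq_C_mul_T]

/-- Prop U', ideal form -/
theorem propU_ideal (L : Set (FreeGroup ℕ))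
    (hU : ∀ p q : ℕ, p.Prime → q.Prime → ¬ Sat L (UG p q)) :
    ∃ n s K : ℕ, 1 ≤ n ∧ ∀ S : Sit.{u, v, w} L, S.I ((T (n : ℤ) - 1) ^ s) ^ K ≤ S.ann := by
  let N : Ideal ℤ[T;T⁻¹] :=
    { carrier := {f | ∀ j : ℕ, 1 ≤ j → ∃ K : ℕ, ∀ S : Sit.{u, v, w} L, S.I (sub j f) ^ K ≤ S.ann}
      zero_mem' := fun j _ => ⟨1, fun S => by
        rw [map_zero, S.I_zero, pow_one]; exact bot_le⟩
      add_mem' := by
        intro f g hf hg j hj
        obtain ⟨K, hK⟩ := hf j hj
        obtain ⟨K', hK'⟩ := hg j hj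
        refine ⟨K + K', fun S => ?_⟩
        rw [map_add]
        refine (Ideal.pow_right_mono (S.I_add_le _ _) _).trans ?_
        exact Ideal.sup_pow_add_le_pow_sup_pow.trans (sup_le (hK S) (hK' S))
      smul_mem' := by
        intro a f hf j hj
        obtain ⟨K, hK⟩ := hf j hj
        refine ⟨K, fun S => ?_⟩
        rw [smul_eq_mul, map_mul, mul_comm]
        exact (Ideal.pow_right_mono (S.I_mul_le _ _) _).trans (hK S) }
  have hsub : ∀ j : ℕ, 1 ≤ j → ∀ f ∈ N, sub j f ∈ N := by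
    intro j hj f hf i hi
    rw [sub_sub']
    exact hf (i * j) (Nat.mul_pos hi hj)
  have h0 : ∃ f ∈ N, f ≠ 0 := by
    obtain ⟨W, K, hW, h⟩ := rel.{u, v, w} L hU 0 (Or.inl rfl)
    refine ⟨W, fun j _ => ⟨K, fun S => ?_⟩, ?_⟩
    · have := h S j 1
      rwa [mul_one, Nat.cast_zero, zero_mul, S.I_zero, bot_sup_eq] at this
    · rintro rfl
      exact hW (map_zero _)
  have hp : ∀ p : ℕ, p.Prime → ∃ w : ℤ[T;T⁻¹], ¬ (p : ℤ[T;T⁻¹]) ∣ w ∧
      ∀ f, (p : ℤ[T;T⁻¹]) * f ∈ N → w * f ∈ N := by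
    intro p hpp
    obtain ⟨W, K, hW, h⟩ := rel.{u, v, w} L hU p (Or.inr hpp)
    refine ⟨W, fun hd => hW ((red_eq_zero p W).2 hd), ?_⟩
    intro f hf j hj
    obtain ⟨K', hK'⟩ := hf j hj
    refine ⟨K * (K' + 1), fun S => ?_⟩
    have h1 := h S j (sub j f)
    have h2 := hK' S
    rw [map_mul, map_natCast] at h2
    rw [map_mul, pow_mul]
    refine (Ideal.pow_right_mono h1 _).trans (Ideal.sup_pow_add_le_pow_sup_pow.trans ?_)
    rw [pow_one]
    exact sup_le h2 le_rfl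
  obtain ⟨n, s, hn, hN⟩ := core N hsub h0 hp
  obtain ⟨K, hK⟩ := hN 1 le_rfl
  refine ⟨n, s, K, hn, fun S => ?_⟩
  have := hK S
  rwa [sub_one'] at this

end Pool.Agent.FGRF.UP
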