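import Mathlib
import Pool.Agent.Lib_helper35.FGRF.SLI
import Pool.Agent.Lib_helper93.FGRF.Rel
import Pool.Agent.Lib_helper93.FGRF.PairDef

/-!
# Prop U'

Block UP of MP_364ede_al, module form and group form.
-/

set_option autoImplicit false

namespace Pool.Agent.FGRF

open LaurentPolynomial Multiplicative

universe u v w

namespace UP.Sit

variable {L : Set (FreeGroup ℕ)} (S : UP.Sit.{u, v, w} L)

theorem prod_mem (f : ℤ[T;T⁻¹]) (gs : List S.B) :
    (gs.map fun g => S.e (f • g) - 1).prod ∈ S.I f ^ gs.length := by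
  induction gs with
  | nil => simp
  | cons g gs ih =>
    rw [List.map_cons, List.prod_cons, List.length_cons, pow_succ']
    exact Ideal.mul_mem_mul (S.e_sub_one_mem f g) ih

theorem prod_apply (f : ℤ[T;T⁻¹]) (gs : List S.B) (x : S.M) :
    (S.σ (gs.map fun g => S.e (f • g) - 1).prod) x =
      dl (gs.map fun g => S.ρ (ofAdd (f • g))) x := by
  induction gs with
  | nil => simp
  | cons g gs ih =>
    rw [List.map_cons, List.map_cons, List.prod_cons, map_mul, dl_cons, ← ih, map_sub, map_one,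
      σ_e]
    rfl

end UP.Sit

/-- Prop U', module and group form, with the same constants. -/
theorem propU_both (L : Set (FreeGroup ℕ))
    (hU : ∀ p q : ℕ, p.Prime → q.Prime → ¬ Sat L (UG p q)) :
    ∃ n s K : ℕ, 1 ≤ n ∧
      (∀ (M : Type v) [AddCommGroup M] (G : Type u) [Group G] [DistribMulAction G M],
        Sat L (SD M G) →
        ∀ (A : Type w) [AddCommGroup A] (al : Multiplicative A →* G) (t : G) (tau : A ≃ₗ[ℤ] A),
          (∀ a : A, t * al (ofAdd a) * t⁻¹ = al (ofAdd (tau a))) →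
          ∀ gs : List A, gs.length = K → ∀ x : M,
            dl (gs.map fun g => al (ofAdd (evL tau ((T (n : ℤ) - 1) ^ s) g))) x = 0) := by
  obtain ⟨n, s, K, hn, h⟩ := UP.propU_ideal.{u, v, w} L hU
  refine ⟨n, s, K, hn, ?_⟩
  intro M _ G _ _ hV A _ al t tau ht gs hgs x
  let md : Module ℤ[T;T⁻¹] A := Module.compHom A (evL tau).toRingHom
  have hmd : ∀ (f : ℤ[T;T⁻¹]) (a : A), f • a = evL tau f a := fun _ _ => rfl
  let S : UP.Sit.{u, v, w} L :=
    { M := M
      H := G
      B := A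
      ρ := al
      τ := t
      hτ := fun b => by rw [ht, hmd, evL_T, zpow_one]
      hV := hV }
  have h1 := S.prod_mem ((T (n : ℤ) - 1) ^ s) gs
  rw [hgs] at h1
  have h2 := (S.mem_ann _).1 (h S h1)
  have h3 := S.prod_apply ((T (n : ℤ) - 1) ^ s) gs x
  rw [h2] at h3
  exact h3.symm

theorem al_iterate {G : Type*} [Group G] {A : Type*} [AddCommGroup A]
    (al : Multiplicative A →* G) (t : G) (tau : A ≃ₗ[ℤ] A)
    (ht : ∀ a : A, t * al (ofAdd a) * t⁻¹ = al (ofAdd (tau a))) (n s : ℕ) (a : A) :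
    al (ofAdd (evL tau ((T (n : ℤ) - 1) ^ s) a)) = (cg t n)^[s] (al (ofAdd a)) := by
  have h1 : ∀ (n : ℕ) (a : A), t ^ n * al (ofAdd a) * (t ^ n)⁻¹ =
      al (ofAdd (evL tau (T (n : ℤ)) a)) := by
    intro n
    induction n with
    | zero => intro a; simp
    | succ n ih =>
      intro a
      rw [pow_succ, mul_inv_rev]
      have e1 : t ^ n * t * al (ofAdd a) * (t⁻¹ * (t ^ n)⁻¹) =
          t ^ n * (t * al (ofAdd a) * t⁻¹) * (t ^ n)⁻¹ := by group
      rw [e1, ht, ih, evL_T, evL_T]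
      push_cast
      rw [zpow_add_one]
      rfl
  induction s with
  | zero => simp
  | succ s ih =>
    rw [Function.iterate_succ_apply', ← ih, cg, h1, pow_succ', ← map_inv al, ← map_mul al,
      ← ofAdd_neg, ← ofAdd_add, map_mul, map_sub, map_one, ← sub_eq_add_neg]
    rfl

/-- Prop U', group form. -/
theorem propU_group (L : Set (FreeGroup ℕ))
    (hU : ∀ p q : ℕ, p.Prime → q.Prime → ¬ Sat L (UG p q)) :
    ∃ n s K : ℕ, 1 ≤ n ∧
      ∀ (M : Type v) [AddCommGroup M] (G : Type u) [Group G] [DistribMulAction G M],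
        Sat L (SD M G) →
        ∀ (A : Subgroup G) (t : G), (∀ a ∈ A, t * a * t⁻¹ ∈ A) → (∀ a ∈ A, t⁻¹ * a * t ∈ A) →
          (∀ a ∈ A, ∀ b ∈ A, ∀ x : M, a • b • x = b • a • x) →
          ∀ xs : List G, xs.length = K → (∀ x ∈ xs, ∃ a ∈ A, x = (cg t n)^[s] a) →
            ∀ m : M, dl xs m = 0 := by
  obtain ⟨n, s, K, hn, H⟩ := propU_both.{v, v, v} L hU
  refine ⟨n, s, K, hn, ?_⟩
  intro M _ G _ _ hsat A t ht1 ht2 hcomm xs hxs hxA m
  -- the image group
  let κ : G →* (M ≃ₗ[ℤ] M) := DistribMulAction.toModuleAut ℤ M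
  let κ' : G →* κ.range := κ.rangeRestrict
  have hκ : ∀ (g : G) (m : M), κ' g • m = g • m := fun _ _ => rfl
  let ψ : SD M G →* SD M κ.range := SD.map (AddMonoidHom.id M) κ' (fun g m => rfl)
  have hψ : Function.Surjective ψ := by
    rintro ⟨m, ⟨g, g', rfl⟩⟩
    exact ⟨⟨m, g'⟩, rfl⟩
  have hsat' : Sat L (SD M κ.range) := hsat.of_surjective ψ hψ
  let A' : Subgroup κ.range := A.map κ'
  have hA'comm : ∀ a b : A', a * b = b * a := by
    rintro ⟨_, a, ha, rfl⟩ ⟨_, b, hb, rfl⟩
    apply Subtype.ext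
    apply Subtype.ext
    apply LinearEquiv.ext
    intro x
    exact hcomm a ha b hb x
  let _ : CommGroup A' := { (inferInstance : Group A') with mul_comm := hA'comm }
  let al : Multiplicative (Additive A') →* κ.range :=
    { toFun := fun x => (x.toAdd.toMul : A').1
      map_one' := rfl
      map_mul' := fun _ _ => rfl }
  let cj : A' ≃* A' :=
    { toFun := fun x => ⟨κ' t * x.1 * (κ' t)⁻¹, by
        obtain ⟨a, ha, hx⟩ := x.2
        exact ⟨t * a * t⁻¹, ht1 a ha, by rw [map_mul, map_mul, map_inv, hx]⟩⟩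
      invFun := fun x => ⟨(κ' t)⁻¹ * x.1 * κ' t, by
        obtain ⟨a, ha, hx⟩ := x.2
        exact ⟨t⁻¹ * a * t, ht2 a ha, by rw [map_mul, map_mul, map_inv, hx]⟩⟩
      left_inv := fun x => Subtype.ext (by simp only; group)
      right_inv := fun x => Subtype.ext (by simp only; group)
      map_mul' := fun x y => Subtype.ext (by
        change κ' t * (x.1 * y.1) * (κ' t)⁻¹ = κ' t * x.1 * (κ' t)⁻¹ * (κ' t * y.1 * (κ' t)⁻¹)
        group) }
  let tau : Additive A' ≃ₗ[ℤ] Additive A' := (MulEquiv.toAdditive cj).toIntLinearEquiv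
  have htau : ∀ a : Additive A', κ' t * al (ofAdd a) * (κ' t)⁻¹ = al (ofAdd (tau a)) :=
    fun a => rfl
  choose f hf using hxA
  let gs : List (Additive A') := xs.attach.map fun x =>
    Additive.ofMul (⟨κ' (f x.1 x.2), f x.1 x.2, (hf x.1 x.2).1, rfl⟩ : A')
  have h1 := H M κ.range hsat' (Additive A') al (κ' t) tau htau gs
    (by rw [List.length_map, List.length_attach, hxs]) m
  have hcg : ∀ (s : ℕ) (a : G), κ' ((cg t n)^[s] a) = (cg (κ' t) n)^[s] (κ' a) := by
    intro s
    induction s with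
    | zero => intro a; rfl
    | succ s ih =>
      intro a
      rw [Function.iterate_succ_apply', Function.iterate_succ_apply', ← ih]
      simp [cg]
  have h2 : (gs.map fun g => al (ofAdd (evL tau ((T (n : ℤ) - 1) ^ s) g))) = xs.map κ' := by
    rw [List.map_map, ← List.attach_map_val (l := xs)]
    refine List.map_congr_left fun x _ => ?_
    refine (al_iterate al (κ' t) tau htau n s _).trans ?_
    conv_rhs => rw [(hf x.1 x.2).2, hcg]
    rfl
  rw [h2] at h1
  have h3 := dl_map (AddMonoidHom.id M) xs κ' (fun g _ m => rfl) m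
  rw [AddMonoidHom.id_apply, AddMonoidHom.id_apply] at h3
  rw [h3, h1]

/-- Prop U', module and group form with the same constants. -/
theorem propU_full (L : Set (FreeGroup ℕ))
    (hU : ∀ p q : ℕ, p.Prime → q.Prime → ¬ Sat L (UG p q)) :
    ∃ n s K : ℕ, 1 ≤ n ∧
      (∀ (M : Type v) [AddCommGroup M] (G : Type u) [Group G] [DistribMulAction G M],
        Sat L (SD M G) →
        ∀ (A : Type w) [AddCommGroup A] (al : Multiplicative A →* G) (t : G) (tau : A ≃ₗ[ℤ] A),
          (∀ a : A, t * al (ofAdd a) * t⁻¹ = al (ofAdd (tau a))) →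
          ∀ gs : List A, gs.length = K → ∀ x : M,
            dl (gs.map fun g => al (ofAdd (evL tau ((T (n : ℤ) - 1) ^ s) g))) x = 0) ∧
      (∀ (M : Type v) [AddCommGroup M] (G : Type u) [Group G] [DistribMulAction G M],
        Sat L (SD M G) →
        ∀ (A : Subgroup G) (t : G), (∀ a ∈ A, t * a * t⁻¹ ∈ A) → (∀ a ∈ A, t⁻¹ * a * t ∈ A) →
          (∀ a ∈ A, ∀ b ∈ A, ∀ x : M, a • b • x = b • a • x) →
          ∀ xs : List G, xs.length = K → (∀ x ∈ xs, ∃ a ∈ A, x = (cg t n)^[s] a) →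
            ∀ m : M, dl xs m = 0) := by
  obtain ⟨n, s, K, hn, H⟩ := propU_group.{u, v} L hU
  refine ⟨n, s, K, hn, ?_, H⟩
  intro M _ G _ _ hsat A _ al t tau ht gs hgs x
  refine H M G hsat al.range t ?_ ?_ ?_ _ (by rw [List.length_map, hgs]) ?_ x
  · rintro _ ⟨a, rfl⟩
    exact ⟨ofAdd (tau a.toAdd), (ht a.toAdd).symm⟩
  · rintro _ ⟨a, rfl⟩
    refine ⟨ofAdd (tau.symm a.toAdd), ?_⟩
    have := ht (tau.symm a.toAdd)
    rw [LinearEquiv.apply_symm_apply] at this
    change _ = al a at this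
    rw [← this]
    group
  · rintro _ ⟨a, rfl⟩ _ ⟨b, rfl⟩ x
    rw [← mul_smul, ← mul_smul, ← map_mul, ← map_mul, mul_comm]
  · intro y hy
    obtain ⟨g, -, rfl⟩ := List.mem_map.1 hy
    exact ⟨al (ofAdd g), ⟨_, rfl⟩, al_iterate al t tau ht n s g⟩

end Pool.Agent.FGRF
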