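import Mathlib
import Pool.Agent.Lib_helper93.FGRF.StepB
import Pool.Agent.Lib_helper35.FGRF.LemI

/-!
# Step C, second half: from the relation on `Z(P/B)` to virtual nilpotency of `G / B`
-/

set_option autoImplicit false

namespace Pool.Agent.FGRF

universe u v w

section

variable {G : Type u} [Group G]

/-- the upper central series of `P` modulo `B` -/
def zsAux (P B : Subgroup G) (hP : P.Normal) (hB : B.Normal) : ℕ → {K : Subgroup G // K.Normal}
  | 0 => ⟨B, hB⟩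
  | n + 1 => ⟨cstep P (zsAux P B hP hB n).1 (zsAux P B hP hB n).2,
      cstep_normal hP (zsAux P B hP hB n).2⟩

/-- the upper central series of `P` modulo `B`, as normal subgroups of `G` -/
def zs (P B : Subgroup G) (hP : P.Normal) (hB : B.Normal) (n : ℕ) : Subgroup G :=
  (zsAux P B hP hB n).1

variable {P B : Subgroup G} {hP : P.Normal} {hB : B.Normal}

theorem zs_normal (n : ℕ) : (zs P B hP hB n).Normal := (zsAux P B hP hB n).2

theorem zs_zero : zs P B hP hB 0 = B := rfl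

theorem mem_zs_succ {n : ℕ} {x : G} :
    x ∈ zs P B hP hB (n + 1) ↔ x ∈ P ∧ ∀ y ∈ P, y * x * y⁻¹ * x⁻¹ ∈ zs P B hP hB n := Iff.rfl

theorem zs_le (hBP : B ≤ P) (n : ℕ) : zs P B hP hB n ≤ P := by
  cases n with
  | zero => exact hBP
  | succ n => exact fun x hx => hx.1

theorem zs_le_succ (hBP : B ≤ P) (n : ℕ) :
    zs P B hP hB n ≤ zs P B hP hB (n + 1) := by
  intro x hx
  refine ⟨zs_le hBP n hx, fun y _ => ?_⟩
  have := (zs_normal (hP := hP) (hB := hB) n).conj_mem x hx y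
  exact mul_mem this (inv_mem hx)

theorem lcs_le_zs {c : ℕ} (hc : P.lowerCentralSeries c = ⊥) (k : ℕ) (hk : k ≤ c) :
    P.lowerCentralSeries (c - k) ≤ zs P B hP hB k := by
  induction k with
  | zero => rw [Nat.sub_zero, hc]; exact bot_le
  | succ k ih =>
    intro x hx
    refine ⟨lcs_le _ hx, fun y hy => ih (by omega) ?_⟩
    have h := cm_mem_lcs' hx hy
    have h2 : c - (k + 1) + 1 = c - k := by omega
    rwa [h2] at h

/-- the sections -/
def zsec (hP : P.Normal) (hB : B.Normal) (hBP : B ≤ P) (n : ℕ) : NSec G where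
  A := zs P B hP hB (n + 1)
  B := zs P B hP hB n
  hA := zs_normal (n + 1)
  hB := zs_normal n
  le := zs_le_succ hBP n
  comm := fun _ hx _ hy => hy.2 _ hx.1

theorem zsec_act (hBP : B ≤ P) (n : ℕ) (g : G) (hg : g ∈ P) (m : (zsec hP hB hBP n).Mod) :
    g • m = m := by
  obtain ⟨x, hx, rfl⟩ := NSec.cl_surjective m
  rw [NSec.smul_cl, NSec.cl_eq_iff]
  exact hx.2 g hg

/-- the pairing `Z_{n+2}/Z_{n+1} × P → Z_{n+1}/Z_n` -/
def zpair (hP : P.Normal) (hB : B.Normal) (hBP : B ≤ P) (n : ℕ) : Pair G where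
  D := zs P B hP hB (n + 2)
  N := P
  C := zs P B hP hB (n + 1)
  C₀ := zs P B hP hB n
  hD := zs_normal _
  hN := hP
  hC := zs_normal _
  hC₀ := zs_normal _
  le := zs_le_succ hBP n
  nd := fun _ hx _ hd => hd.2 _ hx
  cc := fun _ hc _ hc' => hc'.2 _ hc.1
  dc := fun _ hd _ hc => hc.2 _ hd.1
  nc := fun _ hx _ hc => hc.2 _ hx

theorem exists_unip {L : Set (FreeGroup ℕ)} (hPB : PBb.{u} L) (hsat : Sat L G)
    (hP : P.Normal) (hB : B.Normal) (hBP : B ≤ P) (n s : ℕ) (hn : 1 ≤ n)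
    (h : ∀ (t : G), ∀ a ∈ P, (∀ y ∈ P, y * a * y⁻¹ * a⁻¹ ∈ B) → (cg t n)^[s] a ∈ B) (i : ℕ) :
    ∃ n' s' : ℕ, 1 ≤ n' ∧ ∀ (t : G), ∀ a ∈ zs P B hP hB (i + 1),
      (cg t n')^[s'] a ∈ zs P B hP hB i := by
  induction i with
  | zero => exact ⟨n, s, hn, fun t a ha => h t a ha.1 ha.2⟩
  | succ i ih =>
    obtain ⟨n₁, s₁, hn₁, h₁⟩ := ih
    obtain ⟨n', s', hn', h'⟩ := hPB n₁ s₁ hn₁
    refine ⟨n', s', hn', fun t a ha => ?_⟩
    obtain ⟨h2, -⟩ := cl_cg_iterate (S := zsec hP hB hBP (i + 1)) ha t n' s'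
    exact ⟨h2.1, fun x hx => h' G hsat (zpair hP hB hBP i) t (fun c hc => h₁ t c hc) a ha x hx⟩

theorem lcs_top_le {H : Subgroup G} (hP : P.Normal) (hc : CCov P H) :
    (∃ j, (⊤ : Subgroup G).lowerCentralSeries j ≤ H) →
      ∃ j, (⊤ : Subgroup G).lowerCentralSeries j ≤ P := by
  induction hc with
  | base => exact id
  | @step H t hH ht ih =>
    rintro ⟨j, hj⟩
    apply ih
    have hHn : H.Normal := hH.normal hP
    refine ⟨j + 1, ?_⟩
    rw [Subgroup.lowerCentralSeries_succ, Subgroup.commutator_def, Subgroup.closure_le]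
    rintro _ ⟨a, ha, g, -, rfl⟩
    have h1 : H ⊔ Subgroup.zpowers t ≤ leftComm H hHn g := by
      refine sup_le ?_ ?_
      · intro x hx
        have := hHn.conj_mem _ (inv_mem hx) g
        have h2 : x * g * x⁻¹ * g⁻¹ = x * (g * x⁻¹ * g⁻¹) := by group
        rw [mem_leftComm, h2]
        exact mul_mem hx this
      · rw [Subgroup.zpowers_le, mem_leftComm]
        have h2 : t * g * t⁻¹ * g⁻¹ = (g * t * g⁻¹ * t⁻¹)⁻¹ := by group
        rw [h2]
        exact inv_mem (ht g)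
    exact h1 (hj ha)

/-- descending through one section on which `H` acts nilpotently -/
theorem lcs_descend (S : NSec G) (H : Subgroup G) (k : ℕ)
    (hk : ∀ xs : List G, (∀ x ∈ xs, x ∈ H) → xs.length = k → ∀ v : S.Mod, dl xs v = 0) (m : ℕ)
    (hm : H.lowerCentralSeries m ≤ S.A) : H.lowerCentralSeries (m + k) ≤ S.B := by
  let W : ℕ → AddSubgroup S.Mod := fun j => AddSubgroup.closure
    {w | ∃ (xs : List G) (v : S.Mod), (∀ x ∈ xs, x ∈ H) ∧ xs.length = j ∧ w = dl xs v}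
  have key : ∀ j, H.lowerCentralSeries (m + j) ≤ NSec.toSub (W j) := by
    intro j
    induction j with
    | zero =>
      intro x hx
      refine ⟨hm hx, ?_⟩
      exact AddSubgroup.subset_closure ⟨[], NSec.cl x (hm hx), by simp, rfl, rfl⟩
    | succ j ih =>
      have hsucc : m + (j + 1) = (m + j) + 1 := by omega
      rw [hsucc, Subgroup.lowerCentralSeries_succ, Subgroup.commutator_def, Subgroup.closure_le]
      rintro _ ⟨a, ha, g, hg, rfl⟩
      obtain ⟨haA, haW⟩ := ih ha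
      have h1 : ∀ w ∈ W j, g • w - w ∈ W (j + 1) := by
        intro w hw
        have h2 : W j ≤ (W (j + 1)).comap
            (DistribSMul.toAddMonoidHom S.Mod g - AddMonoidHom.id S.Mod) := by
          rw [AddSubgroup.closure_le]
          rintro _ ⟨xs, v, hxs, hlen, rfl⟩
          refine AddSubgroup.subset_closure ⟨g :: xs, v, ?_, by simp [hlen], ?_⟩
          · intro x hx
            rcases List.mem_cons.1 hx with rfl | hx
            · exact hg
            · exact hxs x hx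
          · rw [dl_cons]; rfl
        exact h2 hw
      have h3 := h1 _ haW
      have h4 : a * g * a⁻¹ * g⁻¹ = (g * a * g⁻¹ * a⁻¹)⁻¹ := by group
      change a * g * a⁻¹ * g⁻¹ ∈ NSec.toSub (W (j + 1))
      rw [h4]
      refine inv_mem ?_
      have h5 : g * a * g⁻¹ * a⁻¹ ∈ S.A := mul_mem (S.hA.conj_mem a haA g) (inv_mem haA)
      refine ⟨h5, ?_⟩
      have h6 : (NSec.cl (g * a * g⁻¹ * a⁻¹) h5 : S.Mod) = g • NSec.cl a haA - NSec.cl a haA := by
        rw [NSec.smul_cl, sub_eq_add_neg, ← NSec.cl_inv, ← NSec.cl_mul]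
      rw [h6]
      exact h3
  intro x hx
  obtain ⟨h1, h2⟩ := key k hx
  have h3 : W k ≤ ⊥ := by
    rw [AddSubgroup.closure_le]
    rintro _ ⟨xs, v, hxs, hlen, rfl⟩
    exact hk xs hxs hlen v
  exact NSec.cl_eq_zero.1 (h3 h2)

/-- Step C2, with Lemma VN as a hypothesis. -/
theorem stepC2_aux {L : Set (FreeGroup ℕ)} (hPB : PBb.{u} L) (hsat : Sat L G)
    (hP : P.Normal) (hnil : Group.IsNilpotent P) (hc : CCov P ⊤) (hB : B.Normal) (hBP : B ≤ P)
    (n s : ℕ) (hn : 1 ≤ n)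
    (h : ∀ (t : G), ∀ a ∈ P, (∀ y ∈ P, y * a * y⁻¹ * a⁻¹ ∈ B) → (cg t n)^[s] a ∈ B)
    (hvn : ∀ (n s : ℕ), 1 ≤ n → ∀ S : NSec G, (∀ x ∈ P, ∀ v : S.Mod, x • v = v) →
      (∀ (t : G) (v : S.Mod), (fun v : S.Mod => t ^ n • v - v)^[s] v = 0) →
      ∃ H : Subgroup G, H.Normal ∧ P ≤ H ∧ H.FiniteIndex ∧ ∃ k : ℕ,
        ∀ xs : List G, (∀ x ∈ xs, x ∈ H) → xs.length = k → ∀ v : S.Mod, dl xs v = 0) :
    ∃ H : Subgroup G, H.Normal ∧ H.FiniteIndex ∧ ∃ c, H.lowerCentralSeries c ≤ B := by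
  obtain ⟨c, hc0⟩ := (Subgroup.isNilpotent_iff_lowerCentralSeries P).1 hnil
  have hPz : P ≤ zs P B hP hB c := by
    have := lcs_le_zs (hP := hP) (hB := hB) hc0 c le_rfl
    rwa [Nat.sub_self] at this
  -- the subgroups for the sections
  have hH : ∀ i, ∃ H : Subgroup G, H.Normal ∧ P ≤ H ∧ H.FiniteIndex ∧ ∃ k : ℕ,
      ∀ xs : List G, (∀ x ∈ xs, x ∈ H) → xs.length = k → ∀ v : (zsec hP hB hBP i).Mod,
        dl xs v = 0 := by
    intro i
    obtain ⟨n', s', hn', h'⟩ := exists_unip hPB hsat hP hB hBP n s hn h i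
    refine hvn n' s' hn' (zsec hP hB hBP i) (zsec_act hBP i) ?_
    intro t v
    obtain ⟨x, hx, rfl⟩ := NSec.cl_surjective v
    obtain ⟨h2, h3⟩ := cl_cg_iterate hx t n' s'
    have h4 : (NSec.cl ((cg t n')^[s'] x) h2 : (zsec hP hB hBP i).Mod) = 0 :=
      NSec.cl_eq_zero.2 (h' t x hx)
    rw [h3] at h4
    exact h4
  choose H hHn hPH hHf k hk using hH
  let K : Subgroup G := ⨅ i : Fin c, H i
  have hKH : ∀ i < c, K ≤ H i := fun i hi => iInf_le (fun i : Fin c => H i) ⟨i, hi⟩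
  have hKn : K.Normal := Subgroup.normal_iInf_normal fun i => hHn i
  have hKf : K.FiniteIndex := by
    have := fun i : Fin c => hHf i
    exact Subgroup.finiteIndex_iInf this
  refine ⟨K, hKn, hKf, ?_⟩
  obtain ⟨j, hj⟩ := lcs_top_le hP hc ⟨0, le_rfl⟩
  have key : ∀ i ≤ c, ∃ m, K.lowerCentralSeries m ≤ zs P B hP hB (c - i) := by
    intro i
    induction i with
    | zero =>
      intro _
      refine ⟨j, ?_⟩
      rw [Nat.sub_zero]
      exact (Subgroup.lowerCentralSeries_mono j le_top).trans (hj.trans hPz)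
    | succ i ih =>
      intro hi
      obtain ⟨m, hm⟩ := ih (by omega)
      have h2 : c - (i + 1) + 1 = c - i := by omega
      refine ⟨m + k (c - (i + 1)), ?_⟩
      refine lcs_descend (zsec hP hB hBP (c - (i + 1))) K (k (c - (i + 1))) ?_ m ?_
      · intro xs hxs hlen v
        exact hk _ xs (fun x hx => hKH _ (by omega) (hxs x hx)) hlen v
      · change _ ≤ zs P B hP hB (c - (i + 1) + 1)
        rw [h2]
        exact hm
  obtain ⟨m, hm⟩ := key c le_rfl
  rw [Nat.sub_self] at hm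
  exact ⟨m, hm⟩

end

end Pool.Agent.FGRF
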