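import Mathlib
import Pool.Agent.Lib_helper93.FGRF.ChainLem
import Pool.Agent.Lib_helper93.FGRF.UPalg
import Pool.Agent.Lib_helper35.FGRF.LemI
import Pool.Agent.Lib_helper35.FGRF.EvL

/-!
# Lemma VN
-/

set_option autoImplicit false

namespace Pool.Agent.FGRF.VN93

open Pool.Agent.FGRF LaurentPolynomial

universe u v

section

variable {G : Type u} [Group G] {V : Type v} [AddCommGroup V] [DistribMulAction G V]

/-- the `j`-th term of the filtration by augmentation powers of `K` -/
def VJ (V : Type v) [AddCommGroup V] [DistribMulAction G V] (K : Subgroup G) (j : ℕ) :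
    AddSubgroup V :=
  AddSubgroup.closure {w | ∃ (xs : List G) (v : V), (∀ x ∈ xs, x ∈ K) ∧ xs.length = j ∧
    w = dl xs v}

theorem smul_dl (g : G) (xs : List G) (v : V) :
    g • dl xs v = dl (xs.map fun x => g * x * g⁻¹) (g • v) := by
  induction xs with
  | nil => rfl
  | cons x xs ih =>
    rw [dl_cons, List.map_cons, dl_cons, ← ih, smul_sub, mul_smul, mul_smul, inv_smul_smul]

theorem smul_mem_VJ {K : Subgroup G} (hK : K.Normal) {j : ℕ} (g : G) {w : V}
    (hw : w ∈ VJ V K j) : g • w ∈ VJ V K j := by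
  have h : VJ V K j ≤ (VJ V K j).comap (DistribSMul.toAddMonoidHom V g) := by
    unfold VJ
    rw [AddSubgroup.closure_le]
    rintro _ ⟨xs, v, hxs, hlen, rfl⟩
    refine AddSubgroup.subset_closure ⟨xs.map fun x => g * x * g⁻¹, g • v, ?_, by simp [hlen],
      smul_dl g xs v⟩
    intro x hx
    obtain ⟨y, hy, rfl⟩ := List.mem_map.1 hx
    exact hK.conj_mem y (hxs y hy) g
  exact h hw

theorem step_mem_VJ {K : Subgroup G} {j : ℕ} {x : G} (hx : x ∈ K) {w : V} (hw : w ∈ VJ V K j) :
    x • w - w ∈ VJ V K (j + 1) := by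
  have h : VJ V K j ≤ (VJ V K (j + 1)).comap
      (DistribSMul.toAddMonoidHom V x - AddMonoidHom.id V) := by
    unfold VJ
    rw [AddSubgroup.closure_le]
    rintro _ ⟨xs, v, hxs, hlen, rfl⟩
    refine AddSubgroup.subset_closure ⟨x :: xs, v, ?_, by simp [hlen], ?_⟩
    · intro y hy
      rcases List.mem_cons.1 hy with rfl | hy
      · exact hx
      · exact hxs y hy
    · rw [dl_cons]; rfl
  exact h hw

theorem T_dvd (n : ℕ) (m : ℤ) : (T (n : ℤ) - 1 : ℤ[T;T⁻¹]) ∣ T ((n : ℤ) * m) - 1 := by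
  obtain ⟨k, rfl | rfl⟩ := m.eq_nat_or_neg
  · have := UP.T_sub_one_dvd (Dvd.intro k rfl : n ∣ n * k)
    push_cast at this
    exact this
  · have h := UP.T_sub_one_dvd (Dvd.intro k rfl : n ∣ n * k)
    push_cast at h
    have h2 : (T ((n : ℤ) * -(k : ℤ)) - 1 : ℤ[T;T⁻¹]) =
        -T ((n : ℤ) * -(k : ℤ)) * (T ((n : ℤ) * k) - 1) := by
      rw [mul_sub, neg_mul, ← T_add, mul_one]
      have : (n : ℤ) * -(k : ℤ) + n * k = 0 := by ring
      rw [this, T_zero]
      ring
    rw [h2]
    exact h.mul_left _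

/-- the automorphism given by `t` -/
def au (V : Type v) [AddCommGroup V] [DistribMulAction G V] (t : G) : V ≃ₗ[ℤ] V :=
  DistribMulAction.toModuleAut ℤ V t

theorem au_zpow (t : G) (j : ℤ) (v : V) : (au V t ^ j) v = t ^ j • v := by
  unfold au
  rw [← map_zpow]
  rfl

theorem evL_T' (t : G) (j : ℤ) (v : V) : evL (au V t) (T j) v = t ^ j • v := by
  rw [evL_T, au_zpow]

theorem evL_mem {K : Subgroup G} (hK : K.Normal) {j : ℕ} (t : G) (f : ℤ[T;T⁻¹]) {w : V}
    (hw : w ∈ VJ V K j) : evL (au V t) f w ∈ VJ V K j := by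
  rw [evL_apply]
  refine AddSubgroup.sum_mem _ fun i _ => ?_
  change f.coeff i • (au V t ^ i) w ∈ VJ V K j
  rw [au_zpow]
  exact AddSubgroup.zsmul_mem _ (smul_mem_VJ hK _ hw) _

theorem dt_evL (t : G) (n s : ℕ) (v : V) :
    evL (au V t) ((T (n : ℤ) - 1) ^ s) v = (fun v : V => t ^ n • v - v)^[s] v := by
  induction s generalizing v with
  | zero => simp
  | succ s ih =>
    rw [Function.iterate_succ_apply, ← ih, pow_succ, map_mul, Module.End.mul_apply, map_sub,
      map_one, LinearMap.sub_apply, evL_T', zpow_natCast]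
    rfl

theorem dl_approx {K : Subgroup G} (hK : K.Normal) (t : G) (n e : ℕ) (j : ℕ) (xs : List G)
    (hxs : ∀ x ∈ xs, x ∈ K ⊔ Subgroup.zpowers (t ^ (n * e))) {w : V} (hw : w ∈ VJ V K j) :
    ∃ w' ∈ VJ V K j, dl xs w - evL (au V t) ((T (n : ℤ) - 1) ^ xs.length) w' ∈ VJ V K (j + 1) := by
  induction xs with
  | nil => exact ⟨w, hw, by simp⟩
  | cons x xs ih =>
    obtain ⟨w', hw', hz⟩ := ih fun y hy => hxs y (List.mem_cons_of_mem _ hy)
    set a := evL (au V t) ((T (n : ℤ) - 1) ^ xs.length) w' with ha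
    have haV : a ∈ VJ V K j := evL_mem hK t _ hw'
    obtain ⟨y, hy, z, hz', rfl⟩ := Subgroup.mem_sup_of_normal_left.1
      (hxs x (List.mem_cons_self))
    obtain ⟨m, rfl⟩ := Subgroup.mem_zpowers_iff.1 hz'
    obtain ⟨q, hq⟩ := T_dvd n ((e : ℤ) * m)
    have hpow : (t ^ (n * e)) ^ m = t ^ ((n : ℤ) * ((e : ℤ) * m)) := by
      rw [← zpow_natCast, ← zpow_mul]
      congr 1
      push_cast
      ring
    refine ⟨evL (au V t) q w', evL_mem hK t _ hw', ?_⟩
    set b := (t ^ (n * e)) ^ m • a with hb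
    have hbV : b ∈ VJ V K j := smul_mem_VJ hK _ haV
    have h1 : b - a = evL (au V t) ((T (n : ℤ) - 1) ^ (xs.length + 1)) (evL (au V t) q w') := by
      have h2 : b - a = evL (au V t) (T ((n : ℤ) * ((e : ℤ) * m)) - 1) a := by
        rw [map_sub, map_one, LinearMap.sub_apply, evL_T', hb, hpow]
        rfl
      rw [h2, ha, hq, ← Module.End.mul_apply, ← Module.End.mul_apply, ← map_mul, ← map_mul]
      congr 2
      ring
    set U := dl xs w with hU
    have h3 : dl ((y * (t ^ (n * e)) ^ m) :: xs) w -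
        evL (au V t) ((T (n : ℤ) - 1) ^ (xs.length + 1)) (evL (au V t) q w') =
        (y • b - b) + ((y * (t ^ (n * e)) ^ m) • (U - a) - (U - a)) := by
      rw [dl_cons, ← h1, smul_sub, mul_smul y _ a, ← hb]
      abel
    rw [List.length_cons, h3]
    refine AddSubgroup.add_mem _ (step_mem_VJ hy hbV) (AddSubgroup.sub_mem _ ?_ hz)
    exact smul_mem_VJ hK _ hz

theorem dl_mem_VJ {K : Subgroup G} (hK : K.Normal) (t : G) (n s e : ℕ)
    (h : ∀ v : V, (fun v : V => t ^ n • v - v)^[s] v = 0) (j : ℕ) :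
    ∀ xs : List G, (∀ x ∈ xs, x ∈ K ⊔ Subgroup.zpowers (t ^ (n * e))) → xs.length = s * j →
      ∀ v : V, dl xs v ∈ VJ V K j := by
  induction j with
  | zero =>
    intro xs hxs hlen v
    have : xs = [] := List.length_eq_zero_iff.1 (by simpa using hlen)
    subst this
    exact AddSubgroup.subset_closure ⟨[], v, by simp, rfl, rfl⟩
  | succ j ih =>
    intro xs hxs hlen v
    have h1 : xs = xs.take s ++ xs.drop s := (List.take_append_drop s xs).symm
    rw [h1, dl_append]
    have h2 := ih (xs.drop s) (fun x hx => hxs x (List.mem_of_mem_drop hx)) (by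
      rw [List.length_drop, hlen, Nat.mul_succ]; omega) v
    have hlen' : (xs.take s).length = s := by
      rw [List.length_take, hlen, Nat.mul_succ]; omega
    obtain ⟨w', hw', hz⟩ := dl_approx hK t n e j (xs.take s)
      (fun x hx => hxs x (List.mem_of_mem_take hx)) h2
    rw [hlen', dt_evL, h w', sub_zero] at hz
    exact hz

theorem vn_chain {P : Subgroup G} (hP : P.Normal) (htriv : ∀ x ∈ P, ∀ v : V, x • v = v)
    (n s : ℕ) (hn : 1 ≤ n) (h : ∀ (t : G) (v : V), (fun v : V => t ^ n • v - v)^[s] v = 0)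
    {H : Subgroup G} (hc : CCov P H) :
    ∃ K : Subgroup G, ∃ _ : K.Normal, P ≤ K ∧ K ≤ H ∧ Finite (H.map (QuotientGroup.mk' K)) ∧
      ∃ k : ℕ, ∀ xs : List G, (∀ x ∈ xs, x ∈ K) → xs.length = k → ∀ v : V, dl xs v = 0 := by
  induction hc with
  | base =>
    refine ⟨P, hP, le_rfl, le_rfl, ?_, 1, ?_⟩
    · have : P.map (QuotientGroup.mk' P) = ⊥ := by
        rw [eq_bot_iff]
        rintro _ ⟨x, hx, rfl⟩
        exact (QuotientGroup.eq_one_iff x).2 hx
      rw [this]
      infer_instance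
    · intro xs hxs hlen v
      obtain ⟨x, rfl⟩ := List.length_eq_one_iff.1 hlen
      rw [dl_cons, dl_nil, htriv x (hxs x (by simp)), sub_self]
  | @step H t hH ht ih =>
    obtain ⟨K, hK, hPK, hKH, hfin, k, hk⟩ := ih
    have hHn : H.Normal := hH.normal hP
    obtain ⟨e, he, hce⟩ := exists_pow_comm hK hHn hfin t ht
    have hcom : ∀ g : G, g * t ^ (n * e) * g⁻¹ * (t ^ (n * e))⁻¹ ∈ K := by
      intro g
      have h1 : t ^ e ∈ rightComm K hK g := hce g
      have h2 := pow_mem h1 n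
      rw [← pow_mul, mul_comm e n] at h2
      exact h2
    set K' := K ⊔ Subgroup.zpowers (t ^ (n * e)) with hK'
    have hK'n : K'.Normal := sup_zpowers_normal hK _ hcom
    have hKK' : K ≤ K' := le_sup_left
    refine ⟨K', hK'n, hPK.trans hKK', ?_, ?_, s * k, ?_⟩
    · refine sup_le (hKH.trans le_sup_left) ?_
      rw [Subgroup.zpowers_le]
      exact Subgroup.mem_sup_right (pow_mem (Subgroup.mem_zpowers t) _)
    · let π := QuotientGroup.mk' K'
      -- the image of `H` is finite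
      have h1 : Finite (H.map π) := by
        let φ : G ⧸ K →* G ⧸ K' := QuotientGroup.map K K' (MonoidHom.id G) hKK'
        have h2 : H.map π = (H.map (QuotientGroup.mk' K)).map φ := by
          rw [Subgroup.map_map]
          rfl
        rw [h2]
        exact Set.Finite.to_subtype ((Set.toFinite
          ((H.map (QuotientGroup.mk' K) : Subgroup (G ⧸ K)) : Set (G ⧸ K))).image φ)
      have h3 : IsOfFinOrder (π t) := by
        rw [isOfFinOrder_iff_pow_eq_one]
        refine ⟨n * e, Nat.mul_pos hn he, ?_⟩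
        rw [← map_pow]
        exact (QuotientGroup.eq_one_iff _).2
          (Subgroup.mem_sup_right (Subgroup.mem_zpowers _))
      have h4 : Finite (Subgroup.zpowers (π t)) := h3.finite_zpowers
      have hHn' : (H.map π).Normal := hHn.map π (QuotientGroup.mk'_surjective K')
      rw [Subgroup.map_sup, MonoidHom.map_zpowers]
      have h5 : ((H.map π ⊔ Subgroup.zpowers (π t) : Subgroup (G ⧸ K')) : Set (G ⧸ K')) =
          (fun x : (G ⧸ K') × (G ⧸ K') => x.1 * x.2) ''
            ((H.map π : Set (G ⧸ K')) ×ˢ (Subgroup.zpowers (π t) : Set (G ⧸ K'))) := by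
        ext x
        constructor
        · intro hx
          obtain ⟨a, ha, b, hb, rfl⟩ := Subgroup.mem_sup_of_normal_left.1 hx
          exact ⟨(a, b), ⟨ha, hb⟩, rfl⟩
        · rintro ⟨⟨a, b⟩, ⟨ha, hb⟩, rfl⟩
          exact Subgroup.mem_sup_of_normal_left.2 ⟨a, ha, b, hb, rfl⟩
      have h6 : ((H.map π ⊔ Subgroup.zpowers (π t) : Subgroup (G ⧸ K')) :
          Set (G ⧸ K')).Finite := by
        rw [h5]
        exact Set.Finite.image _ (Set.Finite.prod (Set.toFinite _) (Set.toFinite _))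
      exact h6.to_subtype
    · intro xs hxs hlen v
      have h7 := dl_mem_VJ hK t n s e (h t) k xs hxs hlen v
      have h8 : VJ V K k ≤ ⊥ := by
        unfold VJ
        rw [AddSubgroup.closure_le]
        rintro _ ⟨ys, w, hys, hlen', rfl⟩
        exact hk ys hys hlen' w
      exact h8 h7

/-- Lemma VN. -/
theorem vn {P : Subgroup G} (hP : P.Normal) (hc : CCov P ⊤)
    (htriv : ∀ x ∈ P, ∀ v : V, x • v = v) (n s : ℕ) (hn : 1 ≤ n)
    (h : ∀ (t : G) (v : V), (fun v : V => t ^ n • v - v)^[s] v = 0) :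
    ∃ H : Subgroup G, H.Normal ∧ P ≤ H ∧ H.FiniteIndex ∧ ∃ k : ℕ,
      ∀ xs : List G, (∀ x ∈ xs, x ∈ H) → xs.length = k → ∀ v : V, dl xs v = 0 := by
  obtain ⟨K, hK, hPK, -, hfin, hk⟩ := vn_chain hP htriv n s hn h hc
  refine ⟨K, hK, hPK, ?_, hk⟩
  rw [Subgroup.map_top_of_surjective _ (QuotientGroup.mk'_surjective K)] at hfin
  rw [Subgroup.finiteIndex_iff_finite_quotient]
  exact Finite.of_equiv _ Subgroup.topEquiv.toEquiv

end

end Pool.Agent.FGRF.VN93
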