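import Mathlib
import Pool.Agent.Lib_helper93.FGRF.StepC2
import Pool.Agent.Lib_helper93.FGRF.VN

/-!
# Step C, second half (final form)
-/

set_option autoImplicit false

namespace Pool.Agent.FGRF

universe u

/-- Step C2. -/
theorem stepC2 {G : Type u} [Group G] {P B : Subgroup G} {L : Set (FreeGroup ℕ)}
    (hPB : PBb.{u} L) (hsat : Sat L G)
    (hP : P.Normal) (hnil : Group.IsNilpotent P) (hc : CCov P ⊤) (hB : B.Normal) (hBP : B ≤ P)
    (n s : ℕ) (hn : 1 ≤ n)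
    (h : ∀ (t : G), ∀ a ∈ P, (∀ y ∈ P, y * a * y⁻¹ * a⁻¹ ∈ B) → (cg t n)^[s] a ∈ B) :
    ∃ H : Subgroup G, H.Normal ∧ H.FiniteIndex ∧ ∃ c, H.lowerCentralSeries c ≤ B :=
  stepC2_aux hPB hsat hP hnil hc hB hBP n s hn h fun n s hn S htriv hu =>
    VN93.vn hP hc htriv n s hn hu

end Pool.Agent.FGRF
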